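import Pool.Agent.Helper65.BF.FC

/-!
Lines in the Fermat covers with few hyperplanes.
-/

set_option autoImplicit false

open MvPolynomial

namespace Pool.Agent.Helper65.HD

open Pool.Agent.W602.GT Pool.Agent.Helper65.BF

variable {n N d : ℕ} {ℓ : Fin (n + 1) → Fin (N + 1) → ℂ}

/-- common zeros of `N` linear forms -/
theorem exists_zero_of (s : Fin N → Fin (n + 1)) :
    ∃ u : Fin (N + 1) → ℂ, u ≠ 0 ∧ ∀ i, ∑ j, ℓ (s i) j * u j = 0 := by
  set L : (Fin (N + 1) → ℂ) →ₗ[ℂ] (Fin N → ℂ) :=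
    Matrix.mulVecLin (Matrix.of fun i j => ℓ (s i) j) with hL
  have h1 : LinearMap.ker L ≠ ⊥ := LinearMap.ker_ne_bot_of_finrank_lt (by simp)
  obtain ⟨u, hu, hu0⟩ := Submodule.exists_mem_ne_zero_of_ne_bot h1
  exact ⟨u, hu0, fun i => congrFun (LinearMap.mem_ker.1 hu) i⟩

theorem exists_ne (hg : GeneralPosition ℓ) (hr : N + 1 ≤ n + 1) {u : Fin (N + 1) → ℂ}
    (hu : u ≠ 0) : ∃ l, ∑ j, ℓ l j * u j ≠ 0 := by
  by_contra hcon
  push Not at hcon
  apply hu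
  have h0 : Mt ℓ (Fin.castLE hr) ≠ 0 := hg.mt (Fin.castLE_injective hr)
  have h1 : IsUnit (Matrix.of fun i j => ℓ (Fin.castLE hr i) j :
      Matrix (Fin (N + 1)) (Fin (N + 1)) ℂ) :=
    (Matrix.isUnit_iff_isUnit_det _).2 (isUnit_iff_ne_zero.2 h0)
  apply Matrix.mulVec_injective_iff_isUnit.2 h1
  rw [Matrix.mulVec_zero]
  funext i
  exact hcon _

/-- **Lines.** -/
theorem exists_line (hg : GeneralPosition ℓ) (hd : 0 < d) (hNn : N ≤ n) (hn : n + 1 ≤ 2 * N) :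
    ∃ P Q : Fin (n + 1) → ℂ, Line (fermatForms ℓ d) P Q := by
  obtain ⟨u, hu0, hu⟩ := exists_zero_of (ℓ := ℓ) fun i : Fin N => ⟨i, by omega⟩
  obtain ⟨v, hv0, hv⟩ := exists_zero_of (ℓ := ℓ) fun i : Fin N => ⟨min (N + i) n, by omega⟩
  have hu' : ∀ l : Fin (n + 1), (l : ℕ) < N → ∑ j, ℓ l j * u j = 0 := fun l hl => hu ⟨l, hl⟩
  have hv' : ∀ l : Fin (n + 1), N ≤ (l : ℕ) → ∑ j, ℓ l j * v j = 0 := by
    intro l hl
    have h1 := hv ⟨l - N, by omega⟩
    have h2 : (⟨min (N + (⟨l - N, by omega⟩ : Fin N)) n, by omega⟩ : Fin (n + 1)) = l := by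
      apply Fin.ext
      simp only
      omega
    rwa [h2] at h1
  choose rt hrt using fun x : ℂ => IsAlgClosed.exists_pow_nat_eq x hd
  have hrt0 : rt 0 = 0 := (pow_eq_zero_iff hd.ne').1 (hrt 0)
  set P : Fin (n + 1) → ℂ := fun l => rt (∑ j, ℓ l j * u j) with hP
  set Q : Fin (n + 1) → ℂ := fun l => rt (∑ j, ℓ l j * v j) with hQ
  have hPd : ∀ l, P l ^ d = ∑ j, ℓ l j * u j := fun l => hrt _
  have hQd : ∀ l, Q l ^ d = ∑ j, ℓ l j * v j := fun l => hrt _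
  have hP0 : ∀ l : Fin (n + 1), (l : ℕ) < N → P l = 0 := fun l hl => by
    rw [hP]
    simp only
    rw [hu' l hl, hrt0]
  have hQ0 : ∀ l : Fin (n + 1), N ≤ (l : ℕ) → Q l = 0 := fun l hl => by
    rw [hQ]
    simp only
    rw [hv' l hl, hrt0]
  obtain ⟨a, ha⟩ := exists_ne hg (by omega) hu0
  obtain ⟨b, hb⟩ := exists_ne hg (by omega) hv0
  have haP : P a ≠ 0 := fun h => ha (by rw [← hPd, h, zero_pow hd.ne'])
  have hbQ : Q b ≠ 0 := fun h => hb (by rw [← hQd, h, zero_pow hd.ne'])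
  have haN : N ≤ (a : ℕ) := not_lt.1 fun h => haP (hP0 a h)
  have hbN : (b : ℕ) < N := not_le.1 fun h => hbQ (hQ0 b h)
  refine ⟨P, Q, ?_, fun c c' i => ?_⟩
  · rw [LinearIndependent.pair_iff]
    intro x y hxy
    have e1 := congrFun hxy a
    have e2 := congrFun hxy b
    simp only [Pi.add_apply, Pi.smul_apply, smul_eq_mul, Pi.zero_apply, hQ0 a haN, hP0 b hbN,
      mul_zero, add_zero, zero_add] at e1 e2
    exact ⟨(mul_eq_zero.1 e1).resolve_right haP, (mul_eq_zero.1 e2).resolve_right hbQ⟩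
  · rw [val_fermat]
    refine rel_of_u (ℓ := ℓ) (u := fun j => c ^ d * u j + c' ^ d * v j)
      (y := fun l => (c • P + c' • Q) l ^ d) (fun l => ?_) i.2
    have h1 : ∑ j, ℓ l j * (c ^ d * u j + c' ^ d * v j) =
        c ^ d * P l ^ d + c' ^ d * Q l ^ d := by
      rw [hPd, hQd, Finset.mul_sum, Finset.mul_sum, ← Finset.sum_add_distrib]
      exact Finset.sum_congr rfl fun j _ => by ring
    rw [h1, ← mul_pow, ← mul_pow]
    simp only [Pi.add_apply, Pi.smul_apply, smul_eq_mul]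
    rcases lt_or_ge (l : ℕ) N with hl | hl
    · rw [hP0 l hl, mul_zero, zero_add, zero_pow hd.ne', zero_add]
    · rw [hQ0 l hl, mul_zero, add_zero, zero_pow hd.ne', add_zero]

end Pool.Agent.Helper65.HD
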