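import Pool.Agent.Helper65.HD.De

/-!
Degenerate curves of bounded derivative are constant if the number of hyperplanes is `2 N + 1`.
-/

set_option autoImplicit false

open Filter Topology Metric MvPolynomial Set

namespace Pool.Agent.Helper65.HD

open Pool.Agent.W602.GT Pool.Agent.N155.BB Pool.Agent.Y190.OP Pool.Agent.N155
  Pool.Agent.N155.GD Pool.Agent.Helper65.BF Pool.Agent.Helper65.GG

variable {n k e' f M δ : ℕ} {κ : Fin (n + 1) → Fin (k + 1) → ℂ}
  {t0 : Fin (k + 1) → Fin (n + 1)} {φ : ℂ → Mat (n + 1)} {p : Fin (n + 1) → ℕ}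

/-- the points where the coordinates with positive weight do not vanish -/
def Aset (p : Fin (n + 1) → ℕ) (φ : ℂ → Mat (n + 1)) : Set ℂ := {z | ∀ l, p l ≠ 0 → φ z l l ≠ 0}

theorem Aset_open (hφ : HolP univ φ) : IsOpen (Aset p φ) := by
  have hcont : Continuous φ := continuous_iff_continuousAt.2 fun w =>
    hφ.continuousAt (mem_univ w)
  have h1 : Aset p φ = ⋂ l, {z | p l ≠ 0 → φ z l l ≠ 0} := by
    ext z
    simp [Aset]
  rw [h1]
  refine isOpen_iInter_of_finite fun l => ?_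
  by_cases hl : p l = 0
  · have h2 : {z | p l ≠ 0 → φ z l l ≠ 0} = univ := by
      ext z
      simp [hl]
    rw [h2]
    exact isOpen_univ
  · have h2 : {z | p l ≠ 0 → φ z l l ≠ 0} = {z | φ z l l ≠ 0} := by
      ext z
      simp [hl]
    rw [h2]
    exact isOpen_ne_fun ((continuous_apply_apply l l).comp hcont) continuous_const

theorem Aset_dense (hS : Sep (k + f) κ) (hn : k + f ≤ n) (he : 0 < e')
    (hφ : BD (TF (fermatForms κ (e' + k))) φ) (h0 : Mt κ t0 ≠ 0)
    (hD : ∀ z i, φ z i i ≠ 0 → ¬ ∀ᶠ w in 𝓝 z, Dk k e' φ t0 i w = 0)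
    (hpκ : ∀ l, p l ≠ 0 → κ l ≠ 0) (z : ℂ) : ∀ᶠ w in 𝓝[≠] z, w ∈ Aset p φ := by
  have h1 : ∀ᶠ w in 𝓝[≠] z, ∀ l, p l ≠ 0 → φ w l l ≠ 0 := by
    rw [eventually_all]
    intro l
    by_cases hl : p l = 0
    · exact Eventually.of_forall fun w h => absurd hl h
    · exact (coord_ne hS hn he hφ h0 hD (hpκ l hl) z).mono fun w hw _ => hw
  exact h1

theorem closure_TF (hφ : BD (TF (fermatForms κ (e' + k))) φ) :
    closure (range φ) ⊆ TF (fermatForms κ (e' + k)) :=
  closure_minimal (by rintro _ ⟨z, rfl⟩; exact hφ.mem z) (isCompact_TF form_fermat).isClosed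

theorem compact_closure (hφ : BD (TF (fermatForms κ (e' + k))) φ) :
    IsCompact (closure (range φ)) :=
  (isCompact_TF form_fermat).of_isClosed_subset isClosed_closure (closure_TF hφ)

theorem den_ne (hφ : HolP univ φ) {z : ℂ} (hz : z ∈ Aset p φ) {i : Fin (n + 1)}
    (hi : φ z i i ≠ 0) : ∏ l, cu φ i z l ^ (e' * p l) ≠ 0 := by
  refine Finset.prod_ne_zero_iff.2 fun l _ => ?_
  by_cases hl : p l = 0
  · rw [hl, mul_zero, pow_zero]
    exact one_ne_zero
  · exact pow_ne_zero _ (chart_diag_ne (hφ.mem_PM (mem_univ z)) hi (hz l hl))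

/-- **The auxiliary functions are constant.** -/
theorem ha_const (hS : Sep (k + f) κ) (hn : k + f ≤ n) (he : 0 < e')
    (hφ : BD (TF (fermatForms κ (e' + k))) φ) (h0 : Mt κ t0 ≠ 0)
    (hp : ∀ M0 ∈ closure (range φ), ∀ S : Finset (Fin (n + 1)), (∀ l ∈ S, M0 l l = 0) →
      ∑ l ∈ S, p l ≤ M * rkv κ S) (hpκ : ∀ l, p l ≠ 0 → κ l ≠ 0)
    (hδ : δ + M * ((k + 1) * (e' + k)) = e' * ∑ l, p l)
    (hD : ∀ z i, φ z i i ≠ 0 → ¬ ∀ᶠ w in 𝓝 z, Dk k e' φ t0 i w = 0) (a : Fin (n + 1)) :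
    ∃ c : ℂ, ∀ z ∈ Aset p φ, ∀ i, φ z i i ≠ 0 → Ha k e' M δ p φ t0 a i z = c := by
  classical
  choose idx hidx using fun z => PM.exists_diag (TF_PM (hφ.mem z))
  set h : ℂ → ℂ := fun z => Ha k e' M δ p φ t0 a (idx z) z with hh
  have hhi : ∀ z i, φ z i i ≠ 0 → h z = Ha k e' M δ p φ t0 a i z := fun z i hi =>
    Ha_chart hφ.hol hδ a hi (hidx z)
  have hdiff : DifferentiableOn ℂ h (Aset p φ) := by
    intro z hz
    apply DifferentiableAt.differentiableWithinAt
    have han := cu_an hφ.hol (idx z) (hidx z)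
    have hl : ∀ l, AnalyticAt ℂ (fun w => cu φ (idx z) w l) z := fun l =>
      (analyticAt_pi_iff.1 han) l
    have h1 : AnalyticAt ℂ (Ha k e' M δ p φ t0 a (idx z)) z := by
      unfold Ha
      refine AnalyticAt.fun_div (((hl a).fun_pow δ).fun_mul
        ((Dk_an hφ.hol t0 (hidx z)).fun_pow M)) ?_ (den_ne hφ.hol hz (hidx z))
      exact Finset.analyticAt_fun_prod _ fun l _ => (hl l).fun_pow _
    refine (h1.congr ?_).differentiableAt
    filter_upwards [BF.ev_diag hφ.hol (hidx z)] with w hw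
    exact (hhi w _ hw).symm
  have hbdd : ∃ C : ℝ, ∀ z ∈ Aset p φ, ‖h z‖ ≤ C := by
    have h1 : ∃ C : ℝ, ∀ z, φ z ∈ closure (range φ) → z ∈ Aset p φ → ‖h z‖ ≤ C := by
      refine (compact_closure hφ).induction_on
        (p := fun s => ∃ C : ℝ, ∀ z, φ z ∈ s → z ∈ Aset p φ → ‖h z‖ ≤ C) ?_ ?_ ?_ ?_
      · exact ⟨0, fun z hz => absurd hz (notMem_empty _)⟩
      · rintro s s' hss ⟨C, hC⟩
        exact ⟨C, fun z hz => hC z (hss hz)⟩
      · rintro s s' ⟨C, hC⟩ ⟨C', hC'⟩
        refine ⟨max C C', fun z hz hzA => ?_⟩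
        rcases hz with hz | hz
        · exact (hC z hz hzA).trans (le_max_left _ _)
        · exact (hC' z hz hzA).trans (le_max_right _ _)
      · intro M1 hM1
        have hM1' := closure_TF hφ hM1
        obtain ⟨i, hi⟩ := PM.exists_diag (TF_PM hM1')
        obtain ⟨O, C, hO, hMO, hC, h1⟩ := bd_loc2 (δ := δ) hS hn hφ h0 a hM1' (hp M1 hM1) hi
        obtain ⟨O', C', hO', hMO', hC', h2⟩ := st_bd hφ hM1' hi
        refine ⟨O ∩ O', mem_nhdsWithin_of_mem_nhds ((hO.inter hO').mem_nhds ⟨hMO, hMO'⟩),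
          C * C' ^ M, fun z hz hzA => ?_⟩
        obtain ⟨h3, t, -, h4⟩ := h1 z hz.1 hzA
        rw [hhi z i h3]
        refine h4.trans (mul_le_mul_of_nonneg_left ?_ hC)
        exact pow_le_pow_left₀ (norm_nonneg _) (h2 z hz.2 t) _
    obtain ⟨C, hC⟩ := h1
    exact ⟨C, fun z hz => hC z (subset_closure ⟨z, rfl⟩) hz⟩
  obtain ⟨C, hC⟩ := hbdd
  have hAd := Aset_dense hS hn he hφ h0 hD hpκ
  have hconst := const_of_bdd (Aset_open (p := p) hφ.hol) hAd hdiff hC
  obtain ⟨z0, hz0⟩ := (hAd 0).exists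
  exact ⟨h z0, fun z hz i hi => by rw [← hhi z i hi]; exact hconst z hz z0 hz0⟩

/-- **Curves with nonzero Wronskian are constant.** -/
theorem nondeg_const2 (hS : Sep (k + f) κ) (hn : k + f ≤ n) (he : 0 < e')
    (hφ : BD (TF (fermatForms κ (e' + k))) φ) (h0 : Mt κ t0 ≠ 0)
    (hp : ∀ M0 ∈ closure (range φ), ∀ S : Finset (Fin (n + 1)), (∀ l ∈ S, M0 l l = 0) →
      ∑ l ∈ S, p l ≤ M * rkv κ S) (hpκ : ∀ l, p l ≠ 0 → κ l ≠ 0)
    (hδ : δ + M * ((k + 1) * (e' + k)) = e' * ∑ l, p l) (hδ0 : 0 < δ)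
    (hD : ∀ z i, φ z i i ≠ 0 → ¬ ∀ᶠ w in 𝓝 z, Dk k e' φ t0 i w = 0) (z : ℂ) :
    fderiv ℝ φ z = 0 := by
  classical
  choose c hc using ha_const hS hn he hφ h0 hp hpκ hδ hD
  obtain ⟨i, hi0⟩ := PM.exists_diag (TF_PM (hφ.mem 0))
  have hDne : ∀ᶠ w in 𝓝[≠] (0 : ℂ), Dk k e' φ t0 i w ≠ 0 :=
    ((Dk_an hφ.hol t0 hi0).eventually_eq_zero_or_eventually_ne_zero).resolve_left (hD 0 i hi0)
  obtain ⟨z1, ⟨hz1D, hz1A⟩, hz1i⟩ := ((hDne.and (Aset_dense hS hn he hφ h0 hD hpκ 0)).and
    ((BF.ev_diag hφ.hol hi0).filter_mono nhdsWithin_le_nhds)).exists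
  obtain ⟨q, hq⟩ : ∃ q, δ = q + 1 := ⟨δ - 1, by omega⟩
  refine const_of_ratio hφ.hol hz1i (fun a => ?_) z
  have hpow : ∀ᶠ w in 𝓝 z1, cu φ i w a ^ δ = c a / c i := by
    filter_upwards [(Aset_open (p := p) hφ.hol).mem_nhds hz1A, BF.ev_diag hφ.hol hz1i,
      (Dk_an hφ.hol t0 hz1i).continuousAt.eventually_ne hz1D] with w hwA hwi hwD
    rw [← hc a w hwA i hwi, ← hc i w hwA i hwi]
    unfold Ha
    have h1 : cu φ i w i = 1 := PM.chart_self hwi
    have h2 := den_ne (e' := e') hφ.hol hwA hwi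
    have h3 := pow_ne_zero M hwD
    rw [h1, one_pow, one_mul]
    field_simp
  filter_upwards [hpow.eventually_nhds.eventually_nhds, BF.ev_diag hφ.hol hz1i] with w hw hwi
  refine root_flat (q := q) ((analyticAt_pi_iff.1 (cu_an hφ.hol i hwi)) a) ?_
  filter_upwards [hw] with v hv
  rw [← hq]
  have hv' : (fun w => cu φ i w a ^ δ) =ᶠ[𝓝 v] fun _ => c a / c i := hv
  exact (hasDerivAt_const v (c a / c i)).congr_of_eventuallyEq hv'

/-- **The extremal case.** -/
theorem rank_le_one (hS : Sep (k + f) κ) (hn : k + f ≤ n) (he : 0 < e')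
    (hφ : BD (TF (fermatForms κ (e' + k))) φ) (h0 : Mt κ t0 ≠ 0) (hM : 0 < M)
    (hp : ∀ M0 ∈ closure (range φ), ∀ S : Finset (Fin (n + 1)), (∀ l ∈ S, M0 l l = 0) →
      ∑ l ∈ S, p l ≤ M * rkv κ S) (hpκ : ∀ l, p l ≠ 0 → κ l ≠ 0)
    (hδ : M * ((k + 1) * (e' + k)) = e' * ∑ l, p l)
    (hD : ∀ z i, φ z i i ≠ 0 → ¬ ∀ᶠ w in 𝓝 z, Dk k e' φ t0 i w = 0) {M0 : Mat (n + 1)}
    (hM0 : M0 ∈ closure (range φ)) : rkv κ (Zf M0) ≤ 1 := by
  classical
  by_contra hcon
  push Not at hcon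
  have hδ' : 0 + M * ((k + 1) * (e' + k)) = e' * ∑ l, p l := by rw [zero_add, hδ]
  obtain ⟨c, hc⟩ := ha_const hS hn he hφ h0 hp hpκ hδ' hD 0
  have hAd := Aset_dense hS hn he hφ h0 hD hpκ
  -- the constant is not zero
  have hc0 : c ≠ 0 := by
    obtain ⟨i, hi0⟩ := PM.exists_diag (TF_PM (hφ.mem 0))
    have hDne : ∀ᶠ w in 𝓝[≠] (0 : ℂ), Dk k e' φ t0 i w ≠ 0 :=
      ((Dk_an hφ.hol t0 hi0).eventually_eq_zero_or_eventually_ne_zero).resolve_left (hD 0 i hi0)
    obtain ⟨z1, ⟨hz1D, hz1A⟩, hz1i⟩ := ((hDne.and (hAd 0)).and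
      ((BF.ev_diag hφ.hol hi0).filter_mono nhdsWithin_le_nhds)).exists
    rw [← hc z1 hz1A i hz1i]
    unfold Ha
    rw [pow_zero, one_mul]
    exact div_ne_zero (pow_ne_zero _ hz1D) (den_ne hφ.hol hz1A hz1i)
  have hM0' := closure_TF hφ hM0
  obtain ⟨i, hi⟩ := PM.exists_diag (TF_PM hM0')
  obtain ⟨O, C, hO, hMO, hC, h1⟩ := bd_loc2 (δ := 0) hS hn hφ h0 0 hM0' (hp M0 hM0) hi
  have hcpos := norm_pos_iff.2 hc0
  -- a small number
  obtain ⟨ε, hε, hεC⟩ : ∃ ε : ℝ, 0 < ε ∧ C * ε ^ M < ‖c‖ := by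
    have h2 : Tendsto (fun ε : ℝ => C * ε ^ M) (𝓝[>] 0) (𝓝 0) := by
      have h3 : Tendsto (fun ε : ℝ => C * ε ^ M) (𝓝 0) (𝓝 (C * 0 ^ M)) :=
        (continuous_const.mul (continuous_pow M)).tendsto 0
      rw [zero_pow hM.ne', mul_zero] at h3
      exact h3.mono_left nhdsWithin_le_nhds
    obtain ⟨ε, h3, h4⟩ := ((h2.eventually_lt_const hcpos).and self_mem_nhdsWithin).exists
    exact ⟨ε, h4, h3⟩
  obtain ⟨O', hO', hMO', h2⟩ := st_near hφ hi hM0' hε
  -- a point of the curve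
  obtain ⟨_, ⟨hzO, hzO'⟩, ⟨z, rfl⟩⟩ := mem_closure_iff.1 hM0 (O ∩ O') (hO.inter hO')
    ⟨hMO, hMO'⟩
  have hcont : Continuous φ := continuous_iff_continuousAt.2 fun w =>
    hφ.hol.continuousAt (mem_univ w)
  have hz1 : ∀ᶠ w in 𝓝[≠] z, φ w ∈ O ∩ O' :=
    ((hcont.continuousAt.eventually_mem ((hO.inter hO').mem_nhds ⟨hzO, hzO'⟩))).filter_mono
      nhdsWithin_le_nhds
  obtain ⟨w, hwO, hwA⟩ := (hz1.and (hAd z)).exists
  obtain ⟨h3, t, ⟨T1, hT1Z, hT1c, hT1t⟩, h4⟩ := h1 w hwO.1 hwA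
  obtain ⟨l1, hl1, l2, hl2, hl⟩ := Finset.one_lt_card.1 (by rw [hT1c]; exact hcon)
  obtain ⟨j1, hj1⟩ := hT1t l1 hl1
  obtain ⟨j2, hj2⟩ := hT1t l2 hl2
  have hj : j1 ≠ j2 := by
    rintro rfl
    exact hl (hj1.symm.trans hj2)
  have h5 := h2 w hwO.2 t j1 j2 hj (by rw [hj1]; exact mem_Zf.1 (hT1Z hl1))
    (by rw [hj2]; exact mem_Zf.1 (hT1Z hl2))
  rw [hc w hwA i h3] at h4
  have h6 : C * ‖St (cc k e' (cu φ i) w) t‖ ^ M ≤ C * ε ^ M :=
    mul_le_mul_of_nonneg_left (pow_le_pow_left₀ (norm_nonneg _) h5.le _) hC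
  linarith

theorem numer_le {k f e q M sp : ℕ} (he : 0 < e) (heN : e ≤ k + f + 1)
    (hq : q * e = (k + f + 1) * (e + f + k))
    (h : (k + 1) * q * M ≤ (k + 2 * f + 1) * sp) :
    M * ((k + 1) * (e + f + k)) ≤ (e + f) * sp := by
  have hB : 0 < (k + 2 * f + 1) * e := by positivity
  apply Nat.le_of_mul_le_mul_left _ hB
  have h1 : (k + 1) * ((k + f + 1) * (e + f + k)) * M * (e + f) ≤
      (k + 2 * f + 1) * e * ((e + f) * sp) := by
    rw [← hq]
    calc (k + 1) * (q * e) * M * (e + f) = ((k + 1) * q * M) * (e * (e + f)) := by ring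
      _ ≤ ((k + 2 * f + 1) * sp) * (e * (e + f)) := Nat.mul_le_mul_right _ h
      _ = _ := by ring
  refine le_trans ?_ h1
  have h2 : (k + 2 * f + 1) * e ≤ (k + f + 1) * (e + f) := by
    have h3 : e * f ≤ (k + f + 1) * f := Nat.mul_le_mul_right _ heN
    nlinarith
  calc (k + 2 * f + 1) * e * (M * ((k + 1) * (e + f + k))) ≤
        (k + f + 1) * (e + f) * (M * ((k + 1) * (e + f + k))) := Nat.mul_le_mul_right _ h2
    _ = _ := by ring

/-- the weights vanish at the zero vectors -/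
theorem pk_of {S0 : ℕ} (hp : ∀ S : Finset (Fin (n + 1)), S.card ≤ S0 + 1 →
    ∑ l ∈ S, p l ≤ M * rkv κ S) : ∀ l, p l ≠ 0 → κ l ≠ 0 := by
  intro l hl hκ
  apply hl
  have h1 := hp {l} (by simp)
  have h2 : rkv κ {l} = 0 := by
    unfold rkv
    rw [Finset.coe_singleton, Set.image_singleton, hκ]
    simp
  rw [h2, mul_zero, Finset.sum_singleton] at h1
  omega

/-- **Degenerate curves are constant: `2 N + 1` hyperplanes.** -/
theorem deg_const2 {N : ℕ} (hN : 2 ≤ N) (hnN : n = 2 * N) :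
    ∀ k, k < N → ∀ κ : Fin (n + 1) → Fin (k + 1) → ℂ, Sep N κ →
      BD (TF (fermatForms κ (2 * N + 1))) φ → ∀ z, fderiv ℝ φ z = 0 := by
  classical
  intro k
  induction k with
  | zero =>
    intro hk κ hS hφ
    obtain ⟨f, hf⟩ : ∃ f, N = 0 + f := ⟨N, by omega⟩
    obtain ⟨e', he'⟩ : ∃ e', 2 * N + 1 = e' + 0 := ⟨2 * N + 1, rfl⟩
    rw [hf] at hS
    rw [he'] at hφ
    obtain ⟨T, -, -, hTi, hTc⟩ := exists_basis_ext (κ := κ) (Finset.empty_subset Finset.univ)
      (by simp)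
    rw [full_univ hS (by omega)] at hTc
    set t0 : Fin (0 + 1) → Fin (n + 1) := fun j => T.orderEmbOfFin hTc j with ht
    have h0 : Mt κ t0 ≠ 0 := basis_fun hTi hTc
    -- the coordinates that vanish
    have hzero : ∀ M0 ∈ TF (fermatForms κ (e' + 0)), ∀ l, M0 l l = 0 → κ l = 0 := by
      intro M0 hM0 l hl
      obtain ⟨i, hi⟩ := PM.exists_diag (TF_PM hM0)
      have hx := chart_cone form_fermat hM0 hi
      obtain ⟨u, hu⟩ := exists_u h0 (mem_cone.1 hx).2
      have h1 := hu l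
      rw [(chart_zero (TF_PM hM0) hi).2 hl, zero_pow (by omega), Fin.sum_univ_one] at h1
      have hu0 : u 0 ≠ 0 := by
        intro h2
        apply hx.1
        funext l'
        have h3 := hu l'
        rw [Fin.sum_univ_one, h2, mul_zero] at h3
        exact (pow_eq_zero_iff (by omega)).1 h3
      have h2 := (mul_eq_zero.1 h1.symm).resolve_right hu0
      funext j
      have hj0 : j = 0 := Fin.ext (by
        have := j.2
        simp only [Fin.val_zero]
        omega)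
      rw [hj0, h2]
      rfl
    by_cases hD : ∀ z i, φ z i i ≠ 0 → ¬ ∀ᶠ w in 𝓝 z, Dk 0 e' φ t0 i w = 0
    · set p : Fin (n + 1) → ℕ := fun l => if κ l = 0 then 0 else 1 with hp
      have hpκ : ∀ l, p l ≠ 0 → κ l ≠ 0 := by
        intro l hl h
        apply hl
        rw [hp]
        simp only
        rw [if_pos h]
      have hsum : 2 ≤ ∑ l, p l := by
        have h1 : ∑ l, p l = (Finset.univ.filter fun l => ¬ κ l = 0).card := by
          rw [Finset.card_filter]
          refine Finset.sum_congr rfl fun l _ => ?_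
          rw [hp]
          simp only
          by_cases h : κ l = 0
          · rw [if_pos h, if_neg (not_not.2 h)]
          · rw [if_neg h, if_pos h]
        rw [h1]
        have h2 := Finset.card_filter_add_card_filter_not
          (s := (Finset.univ : Finset (Fin (n + 1)))) (fun l => κ l = 0)
        rw [Finset.card_univ, Fintype.card_fin] at h2
        have h3 : (Finset.univ.filter fun l => κ l = 0).card ≤ 0 + f := by
          by_contra hcon
          push Not at hcon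
          have h4 := rkv_full hS (S := Finset.univ.filter fun l => κ l = 0) (by omega)
          have h5 : rkv κ (Finset.univ.filter fun l => κ l = 0) = 0 := by
            unfold rkv
            have h6 : Submodule.span ℂ (κ '' ((Finset.univ.filter fun l => κ l = 0 :
                Finset (Fin (n + 1))) : Set (Fin (n + 1)))) = ⊥ := by
              rw [Submodule.span_eq_bot]
              rintro _ ⟨l, hl, rfl⟩
              exact (Finset.mem_filter.1 (by exact_mod_cast hl :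
                l ∈ Finset.univ.filter fun l => κ l = 0)).2
            rw [h6, finrank_bot]
          omega
        omega
      have hlt : 1 * ((0 + 1) * (e' + 0)) < e' * ∑ l, p l := by
        have : e' * 2 ≤ e' * ∑ l, p l := Nat.mul_le_mul_left _ hsum
        omega
      exact nondeg_const2 (M := 1) (p := p) (f := f) hS (by omega) (by omega) hφ h0
        (fun M0 hM0 S hSz => by
          have h1 : ∑ l ∈ S, p l = 0 := Finset.sum_eq_zero fun l hl => by
            rw [hp]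
            simp only
            rw [if_pos (hzero M0 (closure_TF hφ hM0) l (hSz l hl))]
          rw [h1]
          exact Nat.zero_le _) hpκ
        (δ := e' * ∑ l, p l - 1 * ((0 + 1) * (e' + 0))) (by omega) (by omega) hD
    · exfalso
      push Not at hD
      obtain ⟨z, i, hi, hev⟩ := hD
      obtain ⟨b, hb, hb0⟩ := Dk_dep hφ h0 hi hev
      have h1 := hb0 z i hi
      rw [Fin.sum_univ_one] at h1
      have hb1 : b 0 ≠ 0 := fun h => hb (by
        funext j
        have hj0 : j = 0 := Fin.ext (by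
          have := j.2
          simp only [Fin.val_zero]
          omega)
        rw [hj0, h]
        rfl)
      have h2 := (mul_eq_zero.1 h1).resolve_left hb1
      have hx := chart_cone form_fermat (hφ.mem z) hi
      apply hx.1
      funext l
      have h3 := gg_rel h0 hx l
      rw [Fin.sum_univ_one] at h3
      have h4 : gg κ t0 (e' + 0) 0 (chart i (φ z)) = 0 := h2
      rw [h4, mul_zero] at h3
      exact (pow_eq_zero_iff (by omega)).1 h3
  | succ k ih =>
    intro hk κ hS hφ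
    have hSN := hS
    obtain ⟨f, hf⟩ : ∃ f, N = (k + 1) + f := ⟨N - (k + 1), by omega⟩
    obtain ⟨e', he'⟩ : ∃ e', 2 * N + 1 = e' + (k + 1) := ⟨2 * N + 1 - (k + 1), by omega⟩
    rw [hf] at hS
    have hφ' := hφ
    rw [he'] at hφ'
    obtain ⟨T, -, -, hTi, hTc⟩ := exists_basis_ext (κ := κ) (Finset.empty_subset Finset.univ)
      (by simp)
    rw [full_univ hS (by omega)] at hTc
    set t0 : Fin (k + 1 + 1) → Fin (n + 1) := fun j => T.orderEmbOfFin hTc j with ht
    have h0 : Mt κ t0 ≠ 0 := basis_fun hTi hTc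
    by_cases hD : ∀ z i, φ z i i ≠ 0 → ¬ ∀ᶠ w in 𝓝 z, Dk (k + 1) e' φ t0 i w = 0
    · obtain ⟨M, p, hM, hp, hq⟩ := exists_weights (sep_rk hS (by omega)) (by omega) (by
        rw [Fintype.card_fin]
        omega)
      rw [Fintype.card_fin] at hq
      have hpκ := pk_of hp
      have he'f : e' = (N + 1) + f := by omega
      have hle := numer_le (k := k + 1) (f := f) (e := N + 1) (q := n + 1) (M := M)
        (sp := ∑ l, p l) (by omega) (by omega) (by
          rw [← hf]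
          have h1 : n + 1 = N + 1 + f + (k + 1) := by omega
          rw [h1]
          ring) hq
      rw [← he'f] at hle
      have hpc : ∀ M0 ∈ closure (range φ), ∀ S : Finset (Fin (n + 1)),
          (∀ l ∈ S, M0 l l = 0) → ∑ l ∈ S, p l ≤ M * rkv κ S := by
        intro M0 hM0 S hSz
        refine hp S ?_
        have hM0' := closure_TF hφ' hM0
        obtain ⟨i, hi⟩ := PM.exists_diag (TF_PM hM0')
        have h1 := zeros_card (κ := κ) hS (by omega) h0 (chart_cone form_fermat hM0' hi) (Z := S)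
          fun l hl => (chart_zero (TF_PM hM0') hi).2 (hSz l hl)
        omega
      rcases Nat.eq_or_lt_of_le hle with heq | hlt
      · -- the extremal case
        have hrk : ∀ M0 ∈ closure (range φ), rkv κ (Zf M0) ≤ 1 := fun M0 hM0 =>
          rank_le_one hS (by omega) (by omega) hφ' h0 hM hpc hpκ heq hD hM0
        obtain ⟨R, hR0, hR1, hR2⟩ := exists_reps hSN hnN
        set p' : Fin (n + 1) → ℕ := fun l => if l ∈ R then 1 else 0 with hp'
        have hsum : ∀ S : Finset (Fin (n + 1)), ∑ l ∈ S, p' l = (R ∩ S).card := by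
          intro S
          rw [hp', Finset.sum_ite_mem, Finset.sum_const, smul_eq_mul, mul_one, Finset.inter_comm]
        have hnum := numer_two (k := k + 1) (s := R.card) hN (by omega) hk hR2
        have hlt : 1 * ((k + 1 + 1) * (e' + (k + 1))) < e' * ∑ l, p' l := by
          rw [hsum, Finset.inter_univ, one_mul, ← he']
          have h1 : 2 * N + 1 - (k + 1) = e' := by omega
          rwa [h1] at hnum
        exact nondeg_const2 (M := 1) (p := p') (f := f) hS (by omega) (by omega) hφ' h0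
          (fun M0 hM0 S hSz => by
            rw [hsum, one_mul]
            refine hR1 S (le_trans (rkv_mono fun l hl => ?_) (hrk M0 hM0))
            exact mem_Zf.2 (hSz l hl)) (fun l hl => by
            apply hR0
            by_contra h
            exact hl (by rw [hp']; simp only; rw [if_neg h]))
          (δ := e' * ∑ l, p' l - 1 * ((k + 1 + 1) * (e' + (k + 1)))) (by omega) (by omega) hD
      · exact nondeg_const2 hS (by omega) (by omega) hφ' h0 hpc hpκ
          (δ := e' * ∑ l, p l - M * ((k + 1 + 1) * (e' + (k + 1)))) (by omega) (by omega) hD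
    · push Not at hD
      obtain ⟨z, i, hi, hev⟩ := hD
      obtain ⟨b, hb, hb0⟩ := Dk_dep hφ' h0 hi hev
      obtain ⟨κ', hS', hφ''⟩ := restrict hSN h0 hφ' hb hb0
      rw [← he'] at hφ''
      exact ih (by omega) κ' hS' hφ''

end Pool.Agent.Helper65.HD
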