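import Pool.Agent.Helper65.HD.Rc

/-!
The classes of curves with constant nonzero Wronskian are rigid.
-/

set_option autoImplicit false

open Filter Topology Metric MvPolynomial Set

namespace Pool.Agent.Helper65.HD

open Pool.Agent.W602.GT Pool.Agent.N155.BB Pool.Agent.Y190.OP Pool.Agent.N155
  Pool.Agent.N155.GD Pool.Agent.Helper65.BF Pool.Agent.Helper65.GG

variable {n N m e : ℕ} {ℓ : Fin (n + 1) → Fin (N + 1) → ℂ} {T : Set (Mat (n + 1))}

/-- the data of the family of varieties -/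
structure Dat (n N m e : ℕ) (ℓ : Fin (n + 1) → Fin (N + 1) → ℂ) : Prop where
  gp : GeneralPosition ℓ
  two : 2 ≤ N
  dim : n = m + N
  eq : m * e = N * (N + 1)

theorem Dat.hr (D : Dat n N m e ℓ) : N + 1 ≤ n + 1 := by
  have := D.dim
  omega

theorem Dat.he (D : Dat n N m e ℓ) : 0 < e := by
  rcases Nat.eq_zero_or_pos e with h | h
  · exfalso
    have h1 := D.eq
    rw [h, mul_zero] at h1
    have h2 := D.two
    have : 0 < N * (N + 1) := by positivity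
    omega
  · exact h

theorem Dat.hN (D : Dat n N m e ℓ) : 0 < N := by
  have := D.two
  omega

theorem Dat.jd (D : Dat n N m e ℓ) :
    JetDiff (Cone (fermatForms ℓ (e + N))) N (N * (N + 1) / 2) (wn D.hr ℓ e) :=
  jetDiff_wn D.hr D.gp D.hN D.dim D.eq

theorem Dat.man (D : Dat n N m e ℓ) : ProjManifold (fermatForms ℓ (e + N)) N :=
  manifold D.gp (by have := D.two; omega) (by have := D.dim; omega)

theorem Dat.ji (D : Dat n N m e ℓ) :
    JI (TF (fermatForms ℓ (e + N))) (N * (N + 1) / 2) (GJ (wn D.hr ℓ e)) :=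
  ji_of D.man D.jd D.hN

theorem Dat.wpos (D : Dat n N m e ℓ) : 0 < N * (N + 1) / 2 := by
  have h := D.two
  have h1 : 2 * 3 ≤ N * (N + 1) := Nat.mul_le_mul h (by omega)
  omega

/-- the value of the Wronskian -/
theorem wc_of (D : Dat n N m e ℓ) {φ : ℂ → Mat (n + 1)}
    (hφ : BD (TF (fermatForms ℓ (e + N))) φ) {c : ℂ}
    (h : ∀ z, GJ (wn D.hr ℓ e) φ z = c) : Wc N e ℓ φ c := by
  intro z i t hi ht
  rw [← h z, GJ_lift form_fermat D.jd isOpen_univ ⟨hφ.hol, fun w _ => hφ.mem w⟩ (mem_univ z)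
    (cu_an hφ.hol i hi) (cu_lift isOpen_univ hφ.hol (mem_univ z) hi)]
  exact (wn_rows D.gp D.he.ne' (cu_an hφ.hol i hi) (ev_cone form_fermat hφ.hol hφ.mem hi) ht).symm

theorem gj_shift {k : ℕ} {G : (ℂ → Mat (n + 1)) → ℂ → ℂ} (hJ : JI T k G) {φ : ℂ → Mat (n + 1)}
    (hφ : BD T φ) (a z : ℂ) : G (fun w => φ (a + w)) z = G φ (a + z) := by
  have h1 := hJ.comp φ univ isOpen_univ (hφ.cv _) univ (fun w => a + w) isOpen_univ
    (((differentiable_id (𝕜 := ℂ)).const_add a).differentiableOn) (fun _ _ => mem_univ _) z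
    (mem_univ _)
  have h2 : deriv (fun w : ℂ => a + w) z = 1 := by
    have := ((hasDerivAt_id z).const_add a).deriv
    exact this
  rwa [h2, one_pow, one_mul] at h1

theorem bd_shift {φ : ℂ → Mat (n + 1)} (hφ : BD T φ) (a : ℂ) : BD T (fun w => φ (a + w)) :=
  ⟨holP_shift hφ.hol a, fun z => hφ.mem _, fun z => by rw [fderiv_shift]; exact hφ.bd _⟩

/-- limits of curves with given Wronskian -/
theorem cw_lim {k : ℕ} {G : (ℂ → Mat (n + 1)) → ℂ → ℂ} (hJ : JI T k G) (hT : IsCompact T)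
    (hTP : T ⊆ PM) (𝓤 : Ultrafilter ℕ) {P : ℕ → ℂ → Mat (n + 1)} (hP : ∀ m, BD T (P m)) {c : ℂ}
    (hc : ∀ m z, G (P m) z = c) :
    ∃ φ, BD T φ ∧ (∀ z, G φ z = c) ∧ CConv (𝓤 : Filter ℕ) univ P φ := by
  obtain ⟨φ, h1, h2, h3, h4⟩ := exists_limit hT hTP (𝓤 := 𝓤) (K := 2)
    (fun m => (hP m).hol) (fun m => (hP m).mem) (fun m => (hP m).bd)
  have hbd : BD T φ := ⟨h1, h2, fun z => le_of_tendsto (h4 z).norm
    (Eventually.of_forall fun m => (hP m).bd z)⟩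
  refine ⟨φ, hbd, fun z => ?_, h3⟩
  have h5 := hJ.lim 𝓤 P φ (‖z‖ + 1) (by positivity) (Eventually.of_forall fun m => (hP m).cv _)
    (fun w _ => h3 w (mem_univ w)) (hbd.cv _) z (mem_ball_zero_iff.2 (lt_add_one _))
  refine tendsto_nhds_unique h5 ?_
  simp only [hc]
  exact tendsto_const_nhds

/-- **The coordinates have zeros.** -/
theorem exists_zero (D : Dat n N m e ℓ) {χ : ℂ → Mat (n + 1)}
    (hχ : BD (TF (fermatForms ℓ (e + N))) χ) {c : ℂ} (hc : c ≠ 0)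
    (h : ∀ z, GJ (wn D.hr ℓ e) χ z = c) (l0 : Fin (n + 1)) : ∃ p, χ p l0 l0 = 0 := by
  by_contra hcon
  push Not at hcon
  have hcomp := isCompact_TF (F := fermatForms ℓ (e + N)) form_fermat
  have hPM : ∀ z, χ z ∈ PM := fun z => TF_PM (hχ.mem z)
  -- the coordinate is not bounded below
  have h1 : ∀ m : ℕ, ∃ z, ‖χ z l0 l0‖ < 1 / ((m : ℝ) + 1) := by
    intro m
    by_contra hcon2
    push Not at hcon2
    obtain ⟨C, hC⟩ := hcomp.exists_bound_of_continuousOn (f := fun M : Mat (n + 1) => M)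
      continuous_id.continuousOn
    have hd : Differentiable ℂ (cu χ l0) := fun z => hχ.hol.diff_chart (mem_univ z) (hcon z)
    have hconst : ∀ z w, cu χ l0 z = cu χ l0 w := by
      intro z w
      apply hd.apply_eq_apply_of_bounded
      rw [isBounded_iff_forall_norm_le]
      refine ⟨C * ((m : ℝ) + 1), ?_⟩
      rintro _ ⟨z, rfl⟩
      have hC0 : 0 ≤ C := (norm_nonneg _).trans (hC _ (hχ.mem z))
      rw [pi_norm_le_iff_of_nonneg (by positivity)]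
      intro j
      change ‖χ z j l0 / χ z l0 l0‖ ≤ _
      rw [norm_div]
      have h2 : ‖χ z j l0‖ ≤ C := ((norm_le_pi_norm (χ z j) l0).trans
        (norm_le_pi_norm (χ z) j)).trans (hC _ (hχ.mem z))
      have h3 := hcon2 z
      have h4 : 0 < ‖χ z l0 l0‖ := norm_pos_iff.2 (hcon z)
      rw [div_le_iff₀ h4]
      have h5 : 1 ≤ ((m : ℝ) + 1) * ‖χ z l0 l0‖ := by
        rw [div_le_iff₀ (by positivity)] at h3
        linarith
      calc ‖χ z j l0‖ ≤ C := h2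
        _ ≤ C * (((m : ℝ) + 1) * ‖χ z l0 l0‖) := le_mul_of_one_le_right hC0 h5
        _ = _ := by ring
    apply hc
    have h2 : deriv (cu χ l0) 0 = (0 : ℂ) • cu χ l0 0 := by
      have h3 : cu χ l0 = fun _ => cu χ l0 0 := funext fun z => hconst z 0
      rw [h3, deriv_const, zero_smul]
    rw [← h 0, GJ_lift form_fermat D.jd isOpen_univ ⟨hχ.hol, fun w _ => hχ.mem w⟩ (mem_univ 0)
      (cu_an hχ.hol l0 (hcon 0)) (cu_lift isOpen_univ hχ.hol (mem_univ 0) (hcon 0))]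
    exact D.jd.sing _ _ (cu_an hχ.hol l0 (hcon 0))
      (ev_cone form_fermat hχ.hol hχ.mem (hcon 0)) ⟨0, h2⟩
  choose a ha using h1
  set P : ℕ → ℂ → Mat (n + 1) := fun m w => χ (a m + w) with hP
  have hPb : ∀ m, BD (TF (fermatForms ℓ (e + N))) (P m) := fun m => bd_shift hχ (a m)
  obtain ⟨H, hH, hHc, hcc⟩ := cw_lim D.ji hcomp TF_PM (hyperfilter ℕ : Ultrafilter ℕ) hPb
    (c := c) (fun m z => by rw [hP, gj_shift D.ji hχ]; exact h _)
  -- the limit has a zero at the origin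
  have hH0 : H 0 l0 l0 = 0 := by
    have h2 : Tendsto (fun m => P m 0 l0 l0) (hyperfilter ℕ : Filter ℕ) (𝓝 (H 0 l0 l0)) :=
      ((continuous_apply_apply l0 l0).tendsto _).comp (hcc.pointwise (mem_univ 0))
    have h3 : Tendsto (fun m => P m 0 l0 l0) (hyperfilter ℕ : Filter ℕ) (𝓝 0) := by
      rw [tendsto_zero_iff_norm_tendsto_zero]
      refine squeeze_zero (fun m => norm_nonneg _) (fun m => ?_) hyp_inv
      have h4 := (ha m).le
      simp only [hP, add_zero]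
      exact h4
    exact tendsto_nhds_unique h2 h3
  obtain ⟨i, hi⟩ := PM.exists_diag (TF_PM (hH.mem 0))
  have hanH := cu_an hH.hol i hi
  obtain ⟨t, ht⟩ := exists_Adm D.gp (by have := D.two; omega) D.hr
    (chart_cone form_fermat (hH.mem 0) hi)
  have hWc := wc_of D hH hHc
  have hx0 : cu H i 0 l0 = 0 := (chart_zero (TF_PM (hH.mem 0)) hi).2 hH0
  have hx1 := row_ne D.hN hanH ht (hWc.nz hc 0 i t hi ht) hx0
  have hpiv : deriv (fun w => chart i (H w) l0) 0 ≠ 0 := by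
    have h3 := iter_pi hanH 1 l0
    rw [iteratedDeriv_one, iteratedDeriv_one] at h3
    have h4 : deriv (fun w => cu H i w l0) 0 ≠ 0 := by rwa [← h3]
    exact h4
  have hUo : IsOpen {w | H w i i ≠ 0} := by
    have hc' : Continuous H := continuous_iff_continuousAt.2 fun w =>
      hH.hol.continuousAt (mem_univ w)
    exact isOpen_ne_fun ((continuous_apply_apply i i).comp hc') continuous_const
  -- the domain of the chart
  have hO : {M : Mat (n + 1) | M i i ≠ 0} ∈ 𝓝 (H 0) :=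
    (isOpen_ne_fun (continuous_apply_apply i i) continuous_const).mem_nhds hi
  obtain ⟨V0, hV0, h0V0, hm0⟩ := cc_mem hcc hO
  obtain ⟨ρ0, hρ0, hρ0V⟩ := Metric.isOpen_iff.1 hV0 0 h0V0
  obtain ⟨ρ, σ, hρ, hρρ, hσ, hinv⟩ := loc_inv (cc_chart hcc i l0) hUo hi
    (cc_chart_diff hcc (fun m => (hPb m).hol) i l0 hi) hpiv hρ0
  obtain ⟨m, ⟨-, -, I, -, hI⟩, hm⟩ := (hinv.and hm0).exists
  have hc0 : chart i (H 0) l0 = 0 := hx0
  obtain ⟨h2, h3⟩ := hI 0 (by
    rw [hc0]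
    exact mem_ball_self hσ)
  have h4 : P m (I 0) i i ≠ 0 := hm _ (hρ0V (ball_subset_ball hρρ h2))
  exact hcon _ ((chart_zero (TF_PM ((hPb m).mem _)) h4).1 h3)

/-- **Rigidity of the classes.** -/
theorem rigid_of (D : Dat n N m e ℓ) (hT : T ⊆ TF (fermatForms ℓ (e + N)))
    {𝒞 : (ℂ → Mat (n + 1)) → Prop}
    (h𝒞 : ∀ φ, 𝒞 φ → BD (TF (fermatForms ℓ (e + N))) φ ∧
      ∃ c : ℂ, c ≠ 0 ∧ ∀ z, GJ (wn D.hr ℓ e) φ z = c) : Rigid T 𝒞 := by
  intro 𝓤 χ P Q s wt B C0 h hχ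
  obtain ⟨hbd, c, hc, hval⟩ := h𝒞 χ hχ
  obtain ⟨p, hp⟩ := exists_zero D hbd hc hval 0
  exact par_of D.gp D.hr D.two D.he hT h hbd hc (wc_of D hbd hval) hp

theorem rigid_bcw (D : Dat n N m e ℓ) (hT : T ⊆ TF (fermatForms ℓ (e + N)))
    (hnd : ∀ φ, BD T φ → (∀ z, GJ (wn D.hr ℓ e) φ z = 0) → ∀ z, fderiv ℝ φ z = 0) {c0 : ℝ}
    (hc0 : 0 < c0) : Rigid T (BCw T c0) := by
  refine rigid_of D hT fun φ hφ => ?_
  have hbd : BD T φ := ⟨hφ.hol, hφ.mem, hφ.bd⟩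
  have hbd' : BD (TF (fermatForms ℓ (e + N))) φ := ⟨hφ.hol, fun z => hT (hφ.mem z), hφ.bd⟩
  refine ⟨hbd', GJ (wn D.hr ℓ e) φ 0, fun h0 => ?_, fun z => D.ji.const_bd hbd' z 0⟩
  have h1 := hφ.low 0
  rw [hnd φ hbd (fun z => by rw [D.ji.const_bd hbd' z 0, h0]) 0, norm_zero] at h1
  linarith

/-- **Nondegenerate curves of bounded derivative are doubly periodic.** -/
theorem brody_periodic (D : Dat n N m e ℓ) {φ : ℂ → Mat (n + 1)}
    (hφ : BD (TF (fermatForms ℓ (e + N))) φ) (hne : ∃ z, GJ (wn D.hr ℓ e) φ z ≠ 0) :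
    ∃ p q : ℂ, LinearIndependent ℝ ![p, q] ∧ (∀ z, φ (z + p) = φ z) ∧ ∀ z, φ (z + q) = φ z := by
  obtain ⟨z0, hz0⟩ := hne
  set c : ℂ := GJ (wn D.hr ℓ e) φ z0 with hc
  obtain ⟨C, hC, hbd⟩ := D.ji.bd
  have hcomp := isCompact_TF (F := fermatForms ℓ (e + N)) form_fermat
  have hcls : Cls (TF (fermatForms ℓ (e + N))) (‖c‖ / (C + 1))
      (fun φ => BD (TF (fermatForms ℓ (e + N))) φ ∧ ∀ z, GJ (wn D.hr ℓ e) φ z = c) := by
    refine ⟨hcomp, TF_PM, by positivity, fun φ h => h.1.hol, fun φ h => h.1.mem,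
      fun φ h => h.1.bd, ?_, ?_, ?_⟩
    · rintro ψ ⟨h1, h2⟩ z
      have h3 := hbd ψ z (h1.cv _) (fun w _ => h1.bd w)
      rw [h2 z] at h3
      rw [div_le_iff₀ (by positivity)]
      have h4 := norm_nonneg (fderiv ℝ ψ z)
      nlinarith
    · rintro ψ ⟨h1, h2⟩ a
      exact ⟨bd_shift h1 a, fun z => by rw [gj_shift D.ji h1]; exact h2 _⟩
    · intro 𝓤 P hP
      obtain ⟨ψ, h1, h2, h3⟩ := cw_lim D.ji hcomp TF_PM 𝓤 (fun m => (hP m).1)
        (fun m => (hP m).2)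
      exact ⟨ψ, ⟨h1, h2⟩, h3⟩
  exact two_periods' (rigid_of D le_rfl fun ψ hψ => ⟨hψ.1, c, hz0, hψ.2⟩) hcls
    ⟨hφ, fun z => D.ji.const_bd hφ z z0⟩

end Pool.Agent.Helper65.HD
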