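import Pool.Agent.Helper65.HD.Eng
import Pool.Agent.Helper65.HD.Rd
import Pool.Agent.Helper65.HD.Dg
import Pool.Agent.Helper65.GG.Fer

/-!
Entire curves in closed subsets of the borderline Fermat covers.
-/

set_option autoImplicit false

open Filter Topology Metric MvPolynomial Set LinearAlgebra.Projectivization

namespace Pool.Agent.Helper65.HD

open Pool.Agent.W602.GT Pool.Agent.N155.BB Pool.Agent.Y190.OP Pool.Agent.N155
  Pool.Agent.N155.GD Pool.Agent.Helper65.BF Pool.Agent.Helper65.GG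

variable {n d : ℕ} {ι : Type} {F : ι → MvPolynomial (Fin (n + 1)) ℂ}
  {V : Set (Fin (n + 1) → ℂ)}

/-- forms vanishing along finitely many elliptic curves -/
theorem forms_of (hX : ProjManifold F d) (hd : 2 ≤ d) (S : Finset (ℂ → Mat (n + 1)))
    (hS : ∀ g ∈ S, HolP univ g ∧ (∀ z, ‖fderiv ℝ g z‖ ≤ 2) ∧ (∀ z, g z ∈ TF F) ∧
      ∃ p q : ℂ, LinearIndependent ℝ ![p, q] ∧ (∀ z, g (z + p) = g z) ∧ ∀ z, g (z + q) = g z)
    (x : Fin (n + 1) → ℂ) (hx : x ∈ Cone F) :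
    ∃ P : MvPolynomial (Fin (n + 1)) ℂ, IsForm P ∧
      (∃ᶠ y in 𝓝 x, y ∈ Cone F ∧ eval y P ≠ 0) ∧
      ∀ g ∈ S, ∀ z, eval (toProj (g z)).rep P = 0 := by
  classical
  obtain ⟨i, J, U, Ψ, hxi, hU, hxU, hΨ, hΨX, hev⟩ := hX.smooth x hx
  set j0 : Fin d := ⟨0, by omega⟩ with hj0
  set j1 : Fin d := ⟨1, by omega⟩ with hj1
  have hj01 : j0 ≠ j1 := by
    intro h
    have := congrArg Fin.val h
    simp [hj0, hj1] at this
  set t : Fin 3 → Fin (n + 1) := ![i, J j0, J j1] with ht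
  have hform : ∀ g ∈ S, ∃ (D : ℕ) (Q : MvPolynomial (Fin 3) ℂ), Q ≠ 0 ∧ Q.IsHomogeneous D ∧
      ∀ z, np (rename t Q) D (g z) = 0 := by
    intro g hg
    obtain ⟨h1, h2, h3, p, q, hind, hp, hq⟩ := hS g hg
    exact exists_form t h1 h2 hind hp hq
  choose! D Q hQ0 hQh hQz using hform
  set Q0 : MvPolynomial (Fin 3) ℂ := ∏ g ∈ S, Q g with hQ0def
  have hQ0ne : Q0 ≠ 0 := Finset.prod_ne_zero_iff.2 hQ0
  have hQ0h : Q0.IsHomogeneous (∑ g ∈ S, D g) := IsHomogeneous.prod _ _ _ hQh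
  refine ⟨rename t Q0, ⟨_, hQ0h.rename_isHomogeneous⟩, ?_, fun g hg z => ?_⟩
  · intro hcon
    -- the form vanishes near a point
    have hcon' : ∀ᶠ y in 𝓝 x, y ∈ Cone F → eval y (rename t Q0) = 0 := by
      filter_upwards [hcon] with y hy hyF
      by_contra h1
      exact hy ⟨hyF, h1⟩
    apply hQ0ne
    set y0 : Fin 3 → ℂ := fun a => x (t a) with hy0
    have hy00 : y0 0 = x i := rfl
    set u : (Fin 3 → ℂ) → Fin d → ℂ := fun y k => if k = j0 then y 1 / y 0 else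
      if k = j1 then y 2 / y 0 else x (J k) / x i with hu
    have hu0 : u y0 = fun k => x (J k) / x i := by
      funext k
      rw [hu]
      simp only
      split_ifs with h1 h2
      · rw [h1]
        rfl
      · rw [h2]
        rfl
      · rfl
    have huc : ContinuousAt u y0 := by
      rw [continuousAt_pi]
      intro k
      rw [hu]
      simp only
      have hc0 : ContinuousAt (fun y : Fin 3 → ℂ => y 0) y0 := (continuous_apply 0).continuousAt
      split_ifs with h1 h2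
      · exact ContinuousAt.div (continuous_apply 1).continuousAt hc0 hxi
      · exact ContinuousAt.div (continuous_apply 2).continuousAt hc0 hxi
      · exact continuousAt_const
    have hself := hev.self_of_nhds hx
    have hXc : ContinuousAt (fun y : Fin 3 → ℂ => y 0 • Ψ (u y)) y0 := by
      refine ContinuousAt.smul (continuous_apply 0).continuousAt ?_
      have h1 : ContinuousAt Ψ (u y0) := by
        rw [hu0]
        exact (hΨ _ hxU).continuousAt
      exact ContinuousAt.comp (f := u) h1 huc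
    have hX0 : y0 0 • Ψ (u y0) = x := by
      rw [hu0, hy00]
      exact hself.symm
    have h1 : ∀ᶠ y in 𝓝 y0, eval y Q0 = 0 := by
      have e1 : ∀ᶠ y in 𝓝 y0, (y 0 • Ψ (u y) ∈ Cone F →
          eval (y 0 • Ψ (u y)) (rename t Q0) = 0) := by
        have h2 : Tendsto (fun y : Fin 3 → ℂ => y 0 • Ψ (u y)) (𝓝 y0) (𝓝 x) := by
          have := hXc.tendsto
          rwa [hX0] at this
        exact h2.eventually hcon'
      have e2 : ∀ᶠ y in 𝓝 y0, u y ∈ U := huc.eventually_mem (hU.mem_nhds (by rwa [hu0]))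
      have e3 : ∀ᶠ y in 𝓝 y0, y 0 ≠ 0 :=
        (continuous_apply (0 : Fin 3)).continuousAt.eventually_ne hxi
      filter_upwards [e1, e2, e3] with y hy1 hy2 hy3
      obtain ⟨h3, h4, h5⟩ := hΨX _ hy2
      have h6 := hy1 (cone_smul hX.form h3 hy3)
      rw [eval_rename] at h6
      rw [← h6]
      congr 1
      have h7 : (y 0 • Ψ (u y)) ∘ t = y := by
        funext a
        simp only [Function.comp, Pi.smul_apply, smul_eq_mul]
        fin_cases a
        · change y 0 * Ψ (u y) i = y 0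
          rw [h4, mul_one]
        · change y 0 * Ψ (u y) (J j0) = y 1
          rw [h5 j0, hu]
          simp only [if_true]
          field_simp
        · change y 0 * Ψ (u y) (J j1) = y 2
          rw [h5 j1, hu]
          simp only [if_neg hj01.symm, if_true]
          field_simp
      rw [h7]
    have h2 : (fun y : Fin 3 → ℂ => eval y Q0) = fun _ => 0 :=
      (AnalyticOnNhd.eval_mvPolynomial Q0).eq_of_eventuallyEq analyticOnNhd_const h1
    exact MvPolynomial.funext fun y => by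
      rw [map_zero]
      exact congrFun h2 y
  · have h1 := hQz g hg z
    have h2 : eval (toProj (g z)).rep (rename t (Q g)) = 0 := np_eq_zero.1 h1
    rw [hQ0def, map_prod, map_prod]
    exact Finset.prod_eq_zero hg h2

/-- rescaled curves of bounded derivative -/
theorem exists_rho' (hF : ∀ i, IsForm (F i)) {f : ℂ → ℙ ℂ (Fin (n + 1) → ℂ)} (hf : HolIn F f)
    {C : ℝ} (hb : DerBetween 0 C f) : ∃ ρ : ℝ, 0 < ρ ∧
      BD (TF F) fun z => Phi (f (aff 0 ρ z)).rep := by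
  obtain ⟨B, hB⟩ := bounded_of_between hf.1 hb
  have hB0 : 0 ≤ B := (norm_nonneg _).trans (hB 0)
  refine ⟨2 / (B + 1), by positivity, (bd_aff hF hf (a := 0) (by positivity) hB ?_).1⟩
  rw [div_mul_eq_mul_div, div_le_iff₀ (by positivity)]
  linarith

/-! ### curves over hyperplanes -/

variable {N m e : ℕ} {ℓ : Fin (n + 1) → Fin (N + 1) → ℂ}

/-- The curve `f` in the variety given by `X l ^ d = ℓ l` lies over a hyperplane of the projective
space. -/
def OverHyperplane (ℓ : Fin (n + 1) → Fin (N + 1) → ℂ) (d : ℕ)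
    (f : ℂ → ℙ ℂ (Fin (n + 1) → ℂ)) : Prop :=
  ∃ b : Fin (N + 1) → ℂ, b ≠ 0 ∧ ∀ (z : ℂ) (u : Fin (N + 1) → ℂ),
    (∀ l, (f z).rep l ^ d = ∑ j, ℓ l j * u j) → ∑ j, b j * u j = 0

/-- the same for curves of matrices -/
def OvM (ℓ : Fin (n + 1) → Fin (N + 1) → ℂ) (d : ℕ) (φ : ℂ → Mat (n + 1)) : Prop :=
  ∃ b : Fin (N + 1) → ℂ, b ≠ 0 ∧ ∀ (z : ℂ) (i : Fin (n + 1)), φ z i i ≠ 0 →
    ∀ u : Fin (N + 1) → ℂ, (∀ l, cu φ i z l ^ d = ∑ j, ℓ l j * u j) → ∑ j, b j * u j = 0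

theorem gg_eq {t0 : Fin (N + 1) → Fin (n + 1)} (h0 : Mt ℓ t0 ≠ 0) {x : Fin (n + 1) → ℂ}
    {u : Fin (N + 1) → ℂ} (hu : ∀ l, x l ^ d = ∑ j, ℓ l j * u j) (j : Fin (N + 1)) :
    gg ℓ t0 d j x = u j := by
  have h2 : (Matrix.of fun i j => ℓ (t0 i) j :
      Matrix (Fin (N + 1)) (Fin (N + 1)) ℂ).mulVec u = fun i => x (t0 i) ^ d := by
    funext i
    exact (hu (t0 i)).symm
  have h3 : (iv ℓ t0).mulVec (fun i => x (t0 i) ^ d) = u := by
    rw [← h2, Matrix.mulVec_mulVec]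
    unfold iv
    rw [Matrix.nonsing_inv_mul _ (isUnit_iff_ne_zero.2 h0), Matrix.one_mulVec]
  exact congrFun h3 j

/-- from matrices to projective space -/
theorem over_of_ovM {φ : ℂ → Mat (n + 1)} (h : OvM ℓ d φ)
    {f : ℂ → ℙ ℂ (Fin (n + 1) → ℂ)} {ψ : ℂ → ℂ} (hf : ∀ z, Phi (f z).rep = φ (ψ z)) :
    OverHyperplane ℓ d f := by
  obtain ⟨b, hb, hb0⟩ := h
  refine ⟨b, hb, fun z u hu => ?_⟩
  obtain ⟨i, hi, hrep⟩ := rep_chart (p := f z)
  have hri : (f z).rep i ≠ 0 := (Phi_diag_ne (f z).rep_nonzero).1 hi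
  have h1 := hb0 (ψ z) i (by rw [← hf]; exact hi) (fun j => ((f z).rep i)⁻¹ ^ d * u j) (fun l => by
    have h2 : cu φ i (ψ z) = ((f z).rep i)⁻¹ • (f z).rep := by
      change chart i (φ (ψ z)) = _
      rw [← hf, chart_Phi (f z).rep_nonzero hri]
    rw [h2, Pi.smul_apply, smul_eq_mul, mul_pow, hu l, Finset.mul_sum]
    exact Finset.sum_congr rfl fun j _ => by ring)
  have h2 : ((f z).rep i)⁻¹ ^ d * ∑ j, b j * u j = 0 := by
    rw [← h1, Finset.mul_sum]
    exact Finset.sum_congr rfl fun j _ => by ring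
  exact (mul_eq_zero.1 h2).resolve_left (pow_ne_zero _ (inv_ne_zero hri))

/-- from projective space to matrices -/
theorem ovM_of_over {φ : ℂ → Mat (n + 1)} {f : ℂ → ℙ ℂ (Fin (n + 1) → ℂ)}
    (h : OverHyperplane ℓ d f) {ψ : ℂ → ℂ} (hf : ∀ z, φ z = Phi (f (ψ z)).rep) : OvM ℓ d φ := by
  obtain ⟨b, hb, hb0⟩ := h
  refine ⟨b, hb, fun z i hi u hu => ?_⟩
  set p := f (ψ z) with hp
  rw [hf] at hi
  have hri : p.rep i ≠ 0 := (Phi_diag_ne p.rep_nonzero).1 hi
  have h2 : cu φ i z = (p.rep i)⁻¹ • p.rep := by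
    change chart i (φ z) = _
    rw [hf, chart_Phi p.rep_nonzero hri]
  have h1 := hb0 (ψ z) (fun j => p.rep i ^ d * u j) (fun l => by
    have h3 : p.rep l = p.rep i * cu φ i z l := by
      rw [h2, Pi.smul_apply, smul_eq_mul, mul_inv_cancel_left₀ hri]
    rw [← hp, h3, mul_pow, hu l, Finset.mul_sum]
    exact Finset.sum_congr rfl fun j _ => by ring)
  have h3 : p.rep i ^ d * ∑ j, b j * u j = 0 := by
    rw [← h1, Finset.mul_sum]
    exact Finset.sum_congr rfl fun j _ => by ring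
  exact (mul_eq_zero.1 h3).resolve_left (pow_ne_zero _ hri)

/-- **Curves with vanishing Wronskian lie over hyperplanes.** -/
theorem ovM_of_zero (D : Dat n N m e ℓ) {φ : ℂ → Mat (n + 1)}
    (hφ : BD (TF (fermatForms ℓ (e + N))) φ) (h : ∀ z, GJ (wn D.hr ℓ e) φ z = 0) :
    OvM ℓ (e + N) φ := by
  have hWc := wc_of D hφ h
  set t0 : Fin (N + 1) → Fin (n + 1) := Fin.castLE D.hr with ht0
  have h0 : Mt ℓ t0 ≠ 0 := D.gp.mt (Fin.castLE_injective D.hr)
  obtain ⟨i, hi⟩ := PM.exists_diag (TF_PM (hφ.mem 0))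
  have hD : ∀ᶠ w in 𝓝 (0 : ℂ), Dk N e φ t0 i w = 0 := by
    filter_upwards [BF.ev_diag hφ.hol hi] with w hw
    obtain ⟨t, ht⟩ := exists_Adm D.gp (by have := D.two; omega) D.hr
      (chart_cone form_fermat (hφ.mem w) hw)
    have h1 := hWc w i t hw ht
    have hMt : Mt ℓ t ≠ 0 := D.gp.mt ht.1
    have hGt : Gt (fun l => cu φ i w l ^ e) t ≠ 0 :=
      Gt_ne.2 fun l hl => pow_ne_zero _ (adm_ne ht hl)
    unfold Qt at h1
    rw [div_eq_zero_iff] at h1
    have h2 : St (cc N e (cu φ i) w) t = 0 := h1.resolve_right (mul_ne_zero hMt hGt)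
    have h3 := Dk_rows hφ h0 t hw
    have h4 : Dk N e φ t i w = 0 := by
      unfold Dk
      rw [h2, mul_zero]
    rw [h4, zero_mul] at h3
    exact (mul_eq_zero.1 h3.symm).resolve_right hMt
  obtain ⟨b, hb, hb0⟩ := Dk_dep hφ h0 hi hD
  refine ⟨b, hb, fun z i hi u hu => ?_⟩
  have h1 := hb0 z i hi
  simp only [gg_eq h0 hu] at h1
  exact h1

theorem Dat.sep (D : Dat n N m e ℓ) : Sep N ℓ := by
  intro t ht u hu
  have h1 : IsUnit (Matrix.of fun i j => ℓ (t i) j : Matrix (Fin (N + 1)) (Fin (N + 1)) ℂ) :=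
    (Matrix.isUnit_iff_isUnit_det _).2 (isUnit_iff_ne_zero.2 (D.gp.mt ht))
  have h2 := Matrix.mulVec_injective_iff_isUnit.2 h1
  apply h2
  rw [Matrix.mulVec_zero]
  funext i
  exact hu i

theorem Dat.hne (D : Dat n N m e ℓ) : (n + 1) * e = (N + 1) * (e + N) := by
  have h1 := D.dim
  have h2 := D.eq
  rw [h1]
  nlinarith

/-- **The curves over hyperplanes are constant if there are more than `2 N` of them.** -/
theorem const_ovM (D : Dat n N m e ℓ) (hNm : N ≤ m) {φ : ℂ → Mat (n + 1)}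
    (hφ : BD (TF (fermatForms ℓ (e + N))) φ) (h : OvM ℓ (e + N) φ) (z : ℂ) :
    fderiv ℝ φ z = 0 := by
  obtain ⟨b, hb, hb0⟩ := h
  obtain ⟨t0, h0⟩ : ∃ t0 : Fin (N + 1) → Fin (n + 1), Mt ℓ t0 ≠ 0 :=
    ⟨Fin.castLE D.hr, D.gp.mt (Fin.castLE_injective D.hr)⟩
  have hgg : ∀ w j, φ w j j ≠ 0 → ∑ m, b m * gg ℓ t0 (e + N) m (cu φ j w) = 0 := by
    intro w j hj
    exact hb0 w j hj _ fun l => gg_rel h0 (chart_cone form_fermat (hφ.mem w) hj) l
  have hsep := D.sep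
  have hne := D.hne
  have he := D.he
  have hN := D.two
  have hdim := D.dim
  have heq := D.eq
  clear D
  have heN1 : e ≤ N + 1 := by
    by_contra hcon
    push Not at hcon
    have h1 : N * (N + 1) < N * e := Nat.mul_lt_mul_of_pos_left hcon (by omega)
    have h2 : N * e ≤ m * e := Nat.mul_le_mul_right _ hNm
    omega
  rcases Nat.eq_or_lt_of_le heN1 with h1 | h1
  · subst h1
    have hmN : m = N := Nat.eq_of_mul_eq_mul_right (Nat.succ_pos N) heq
    subst hmN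
    have hd : m + 1 + m = 2 * m + 1 := by ring
    rw [hd] at hφ hgg
    obtain ⟨N', hN'⟩ : ∃ N', m = N' + 1 := ⟨m - 1, by omega⟩
    subst hN'
    obtain ⟨κ', hS', hφ'⟩ := restrict hsep h0 hφ hb hgg
    exact deg_const2 hN (by omega) N' (by omega) κ' hS' hφ' z
  · obtain ⟨N', hN'⟩ : ∃ N', N = N' + 1 := ⟨N - 1, by omega⟩
    subst hN'
    obtain ⟨κ', hS', hφ'⟩ := restrict hsep h0 hφ hb hgg
    exact deg_const he (by omega) hne N' (by omega) κ' hS' hφ' z

/-- **Entire curves in closed sets.** -/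
theorem closed_all (D : Dat n N m e ℓ) (hV : ClosedCone V) (hVX : V ⊆ Cone (fermatForms ℓ (e + N)))
    (hnd : ∀ f, CurveIn V f → ∀ C : ℝ, DerBetween 0 C f → OverHyperplane ℓ (e + N) f →
      ∀ z w, f z = f w) :
    ∃ S : Finset (ℂ → ℙ ℂ (Fin (n + 1) → ℂ)),
      (∀ g ∈ S, CurveIn V g ∧ DoublyPeriodic g ∧ ¬ ∀ z w, g z = g w) ∧
      (∀ f, CurveIn V f → (¬ ∀ z w, f z = f w) →
        ∃ g ∈ S, ∃ h : ℂ → ℂ, Differentiable ℂ h ∧ ∀ z, f z = g (h z)) ∧
      ∀ x ∈ Cone (fermatForms ℓ (e + N)), ∃ P : MvPolynomial (Fin (n + 1)) ℂ, IsForm P ∧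
        (∃ᶠ y in 𝓝 x, y ∈ Cone (fermatForms ℓ (e + N)) ∧ eval y P ≠ 0) ∧
        ∀ g ∈ S, ∀ z, eval (g z).rep P = 0 := by
  classical
  have hX := D.man
  have hsub : Phi '' V ⊆ TF (fermatForms ℓ (e + N)) := V_sub hVX
  have hTP : Phi '' V ⊆ PM := hsub.trans TF_PM
  have hT := compact_V hV hVX
  have hJ : JI (Phi '' V) (N * (N + 1) / 2) (GJ (wn D.hr ℓ e)) := D.ji.subset hsub
  have hND : ∀ φ, BD (Phi '' V) φ → (∀ z, GJ (wn D.hr ℓ e) φ z = 0) →
      ∀ z, fderiv ℝ φ z = 0 := by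
    intro φ hφ h0 z
    obtain ⟨h1, ⟨C, h2⟩, h3⟩ := curve_of hV hVX hφ
    have hφ' : BD (TF (fermatForms ℓ (e + N))) φ := ⟨hφ.hol, fun w => hsub (hφ.mem w), hφ.bd⟩
    exact const_of_toProj hVX hφ.mem (hnd _ h1 C h2 (over_of_ovM (ψ := fun z => z)
      (ovM_of_zero D hφ' h0) fun z => congrFun h3 z)) z
  have hNDf : NDf (Phi '' V) fun _ : Fin 1 => GJ (wn D.hr ℓ e) := fun φ hφ h0 =>
    hND φ hφ (h0 0)
  obtain ⟨S, c0, hc0, hS, hfac⟩ := core_all' (N := 1) (k := fun _ => N * (N + 1) / 2)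
    (G := fun _ => GJ (wn D.hr ℓ e)) hT hTP (fun _ => hJ) (fun _ => D.wpos) hNDf
    (fun c hc => rigid_bcw D hsub hND hc)
  refine ⟨S.image fun φ z => toProj (φ z), fun g hg => ?_, fun f hf hne => ?_, fun x hx => ?_⟩
  · obtain ⟨φ, hφ, rfl⟩ := Finset.mem_image.1 hg
    obtain ⟨h1, p, q, hind, hp, hq⟩ := hS φ hφ
    obtain ⟨h2, -, -⟩ := curve_of hV hVX ⟨h1.hol, h1.mem, h1.bd⟩
    refine ⟨h2, ?_, fun hcon => ?_⟩
    · obtain ⟨L, hL⟩ := pair_periods hind hp hq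
      exact ⟨L, fun l hl z => by
        change toProj (φ (z + l)) = toProj (φ z)
        rw [hL l hl z]⟩
    · have h3 := h1.low 0
      rw [const_of_toProj hVX h1.mem hcon, norm_zero] at h3
      linarith
  · obtain ⟨g, hg, h, hh, hfg⟩ := hfac (fun z => Phi (f z).rep)
      ⟨holP_of_map hf.1, fun z _ => ⟨_, hf.2 z, rfl⟩⟩ (nonconst_of hf.1 hne)
    refine ⟨_, Finset.mem_image_of_mem _ hg, h, hh, fun z => ?_⟩
    rw [← hfg z, toProj_Phi_rep]
  · obtain ⟨P, hP, h1, h2⟩ := forms_of hX D.two S (fun g hg => ⟨(hS g hg).1.hol,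
      (hS g hg).1.bd, fun z => hsub ((hS g hg).1.mem z), (hS g hg).2⟩) x hx
    refine ⟨P, hP, h1, fun g hg z => ?_⟩
    obtain ⟨φ, hφ, rfl⟩ := Finset.mem_image.1 hg
    exact h2 φ hφ z

/-- **Curves of bounded derivative.** -/
theorem brody_all (D : Dat n N m e ℓ) {f : ℂ → ℙ ℂ (Fin (n + 1) → ℂ)}
    (hf : HolIn (fermatForms ℓ (e + N)) f) {C : ℝ} (hb : DerBetween 0 C f) :
    DoublyPeriodic f ∨ OverHyperplane ℓ (e + N) f := by
  obtain ⟨ρ, hρ, hbd⟩ := exists_rho' form_fermat hf hb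
  have hρc : (ρ : ℂ) ≠ 0 := by exact_mod_cast hρ.ne'
  have haff : ∀ z : ℂ, aff 0 ρ (z / ρ) = z := by
    intro z
    unfold aff
    field_simp
    ring
  by_cases h : ∀ z, GJ (wn D.hr ℓ e) (fun z => Phi (f (aff 0 ρ z)).rep) z = 0
  · right
    exact over_of_ovM (ψ := fun z => z / ρ) (ovM_of_zero D hbd h) fun z => by
      rw [haff]
  · left
    push Not at h
    obtain ⟨p, q, hind, hp, hq⟩ := brody_periodic D hbd h
    have hper : ∀ p : ℂ, (∀ z, Phi (f (aff 0 ρ (z + p))).rep = Phi (f (aff 0 ρ z)).rep) →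
        ∀ z, f (z + ρ * p) = f z := by
      intro p hp z
      have h1 := proj_ext (hp (z / ρ))
      have h2 : aff 0 ρ (z / ρ + p) = z + ρ * p := by
        unfold aff
        field_simp
        ring
      rw [h2, haff] at h1
      exact h1
    refine pair_periods (p := ρ * p) (q := ρ * q) ?_ (hper p hp) (hper q hq)
    rw [LinearIndependent.pair_iff] at hind ⊢
    intro a b hab
    apply hind a b
    have h1 : (ρ : ℂ) * (a • p + b • q) = 0 := by
      rw [← hab]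
      simp only [Complex.real_smul]
      ring
    exact (mul_eq_zero.1 h1).resolve_left hρc

/-- **Curves over hyperplanes.** -/
theorem const_over (D : Dat n N m e ℓ) (hNm : N ≤ m) {f : ℂ → ℙ ℂ (Fin (n + 1) → ℂ)}
    (hf : HolIn (fermatForms ℓ (e + N)) f) {C : ℝ} (hb : DerBetween 0 C f)
    (h : OverHyperplane ℓ (e + N) f) : ∀ z w, f z = f w := by
  obtain ⟨ρ, hρ, hbd⟩ := exists_rho' form_fermat hf hb
  exact const_of_flat hf.1 hρ (const_ovM D hNm hbd (ovM_of_over (ψ := aff 0 ρ) h fun z => rfl))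

/-- **The case of the plane.** -/
theorem FermatPlane.closed {m e : ℕ} {ℓ : Fin (m + 2 + 1) → Fin (2 + 1) → ℂ}
    (hℓ : GeneralPosition ℓ) (hme : m * e = 6) {V : Set (Fin (m + 2 + 1) → ℂ)} (hV : ClosedCone V)
    (hVX : V ⊆ Cone (fermatForms ℓ (e + 2)))
    (hline : m + 2 = 3 → ∀ P Q, Line (fermatForms ℓ (e + 2)) P Q →
        ∃ s t : ℂ, s • P + t • Q ≠ 0 ∧ s • P + t • Q ∉ V) :
    ∃ S : Finset (ℂ → ℙ ℂ (Fin (m + 2 + 1) → ℂ)),
      (∀ g ∈ S, CurveIn V g ∧ DoublyPeriodic g ∧ ¬ ∀ z w, g z = g w) ∧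
      (∀ f, CurveIn V f → (¬ ∀ z w, f z = f w) →
        ∃ g ∈ S, ∃ h : ℂ → ℂ, Differentiable ℂ h ∧ ∀ z, f z = g (h z)) ∧
      ∀ x ∈ Cone (fermatForms ℓ (e + 2)), ∃ P : MvPolynomial (Fin (m + 2 + 1)) ℂ, IsForm P ∧
        (∃ᶠ y in 𝓝 x, y ∈ Cone (fermatForms ℓ (e + 2)) ∧ eval y P ≠ 0) ∧
        ∀ g ∈ S, ∀ z, eval (g z).rep P = 0 := by
  have hm1 : m ≠ 0 := by
    rintro rfl
    omega
  have he1 : e ≠ 0 := by
    rintro rfl
    omega
  have hr : 3 ≤ m + 2 + 1 := by omega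
  have hX : ProjManifold (fermatForms ℓ (e + 2)) 2 := manifold hℓ (by omega) (by omega)
  have hnd' : ∀ f, CurveIn V f → ∀ C : ℝ, DerBetween 0 C f →
      ((∀ _ : Fin 1, Annihilates (wj hr ℓ e) f) ∨
        CurveIn (Cone fun _ : Unit => (1 : MvPolynomial (Fin (m + 2 + 1)) ℂ)) f) →
      ∀ z w, f z = f w := by
    rintro f hf C hb (h1 | h1)
    · have hf' : HolIn (fermatForms ℓ (e + 2)) f := ⟨hf.1, fun z => hVX (hf.2 z)⟩
      by_cases hm2 : 2 ≤ m
      · exact wj_nd hr hℓ rfl hme hm2 hf' hb (h1 0)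
      · have hm' : m = 1 := by omega
        subst hm'
        have he' : e = 6 := by omega
        subst he'
        exact wj_nd_line hr hℓ hV hVX (hline rfl) hf hb (h1 0)
    · exfalso
      have h2 := (h1.2 0).2 ()
      unfold W602.GT.val at h2
      rw [map_one] at h2
      exact one_ne_zero h2
  obtain ⟨S, h1, h2, h3⟩ := entire_closed (N := 1) (r := fun _ => 2) (k := fun _ => 3)
    (σ := fun _ => wj hr ℓ e) hX form_one (two_forms hℓ hr rfl hme)
    (fun _ => jetDiff_wj hr hℓ rfl hme) (fun _ => two_pos) (fun _ => three_pos) hV hVX hnd'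
  exact ⟨S, h1, h2, h3 le_rfl⟩

end Pool.Agent.Helper65.HD
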