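import Mathlib

/-!
Bounded holomorphic functions on the complement of a discrete set are constant.
-/

set_option autoImplicit false

open Filter Topology Metric Set

namespace Pool.Agent.Helper65.HD

theorem const_of_bdd {A : Set ℂ} {h : ℂ → ℂ} (hA : IsOpen A)
    (hd : ∀ z, ∀ᶠ w in 𝓝[≠] z, w ∈ A) (hh : DifferentiableOn ℂ h A) {C : ℝ}
    (hb : ∀ z ∈ A, ‖h z‖ ≤ C) : ∀ z ∈ A, ∀ w ∈ A, h z = h w := by
  classical
  set F : ℂ → ℂ := fun z => limUnder (𝓝[≠] z) h with hF
  have hFA : ∀ z ∈ A, F z = h z := by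
    intro z hz
    have h1 : ContinuousAt h z := (hh.differentiableAt (hA.mem_nhds hz)).continuousAt
    exact (h1.tendsto.mono_left nhdsWithin_le_nhds).limUnder_eq
  have key : ∀ c, ∃ s : Set ℂ, s ∈ 𝓝 c ∧ s \ {c} ⊆ A ∧
      DifferentiableOn ℂ (Function.update h c (limUnder (𝓝[≠] c) h)) s := by
    intro c
    have h1 : ∀ᶠ w in 𝓝 c, w ≠ c → w ∈ A := eventually_nhdsWithin_iff.1 (hd c)
    refine ⟨{w | w ≠ c → w ∈ A}, h1, fun w hw => hw.1 hw.2, ?_⟩
    apply Complex.differentiableOn_update_limUnder_of_bddAbove h1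
    · exact hh.mono fun w hw => hw.1 hw.2
    · refine ⟨C, ?_⟩
      rintro _ ⟨w, hw, rfl⟩
      exact hb w (hw.1 hw.2)
  have hFd : Differentiable ℂ F := by
    intro c
    obtain ⟨s, hs, hsA, hds⟩ := key c
    refine (hds.differentiableAt hs).congr_of_eventuallyEq ?_
    filter_upwards [hs] with w hw
    by_cases hwc : w = c
    · rw [hwc, Function.update_self]
    · rw [Function.update_of_ne hwc]
      exact hFA w (hsA ⟨hw, hwc⟩)
  have hFb : ∀ c, ‖F c‖ ≤ C := by
    intro c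
    have h1 : Tendsto F (𝓝[≠] c) (𝓝 (F c)) := (hFd c).continuousAt.tendsto.mono_left
      nhdsWithin_le_nhds
    refine le_of_tendsto h1.norm ?_
    filter_upwards [hd c] with w hw
    rw [hFA w hw]
    exact hb w hw
  intro z hz w hw
  rw [← hFA z hz, ← hFA w hw]
  apply hFd.apply_eq_apply_of_bounded
  rw [isBounded_iff_forall_norm_le]
  refine ⟨C, ?_⟩
  rintro _ ⟨c, rfl⟩
  exact hFb c

end Pool.Agent.Helper65.HD
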