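import Pool.Agent.Helper65.HD.Jd

/-!
Linear algebra of the columns.
-/

set_option autoImplicit false

open Filter Topology Metric MvPolynomial Set

namespace Pool.Agent.Helper65.HD

open Pool.Agent.W602.GT Pool.Agent.N155.BB Pool.Agent.Y190.OP Pool.Agent.N155
  Pool.Agent.N155.GD Pool.Agent.Helper65.BF Pool.Agent.Helper65.GG

/-- Cramer's rule -/
theorem cramer_eq {ι : Type} {r : ℕ} {s : Fin r → ι → ℂ} {w : ι → ℂ} {t : Fin r → ι}
    (hS : St s t ≠ 0) {ζ : Fin r → ℂ} (h : ∀ i, w (t i) = ∑ k, ζ k * s k (t i)) (k : Fin r) :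
    ζ k = St (Function.update s k w) t / St s t := by
  rw [eq_div_iff hS]
  set A : Matrix (Fin r) (Fin r) ℂ := Matrix.of fun i k => s k (t i) with hA
  have h1 : A.mulVec ζ = fun i => w (t i) := by
    funext i
    rw [h i]
    unfold Matrix.mulVec dotProduct
    exact Finset.sum_congr rfl fun k _ => mul_comm _ _
  have h2 : A.cramer (fun i => w (t i)) = A.det • ζ := by
    rw [Matrix.cramer_eq_adjugate_mulVec, ← h1, Matrix.mulVec_mulVec, Matrix.adjugate_mul,
      Matrix.smul_mulVec, Matrix.one_mulVec]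
  have h3 := congrFun h2 k
  rw [Matrix.cramer_apply, Pi.smul_apply, smul_eq_mul] at h3
  have h4 : St (Function.update s k w) t = (A.updateCol k fun i => w (t i)).det := by
    unfold St
    congr 1
    ext i k'
    simp only [Matrix.of_apply, Matrix.updateCol_apply, hA]
    by_cases hk : k' = k
    · rw [hk, Function.update_self, if_pos rfl]
    · rw [Function.update_of_ne hk, if_neg hk]
  rw [h4, h3]
  unfold St
  rw [mul_comm]

theorem rep_uniq {ι : Type} {r : ℕ} {s : Fin r → ι → ℂ} {t : Fin r → ι}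
    (hS : St s t ≠ 0) {ζ ζ' : Fin r → ℂ} (h : ∀ i, ∑ k, ζ k * s k (t i) = ∑ k, ζ' k * s k (t i)) :
    ζ = ζ' := by
  funext k
  rw [cramer_eq hS (w := fun l => ∑ k, ζ k * s k l) (ζ := ζ) (fun i => rfl) k,
    cramer_eq hS (w := fun l => ∑ k, ζ k * s k l) (ζ := ζ') (fun i => h i) k]

variable {n N m e : ℕ} {ℓ : Fin (n + 1) → Fin (N + 1) → ℂ}

/-- existence of the coefficients -/
theorem rep_ex (hg : GeneralPosition ℓ) {x : Fin (n + 1) → ℂ} {s : Fin (N + 1) → Fin (n + 1) → ℂ}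
    (hs : ∀ k, Tg ℓ e x (s k)) {w : Fin (n + 1) → ℂ} (hw : Tg ℓ e x w)
    {t : Fin (N + 1) → Fin (n + 1)} (ht : Adm (Zs x) t) (hS : St s t ≠ 0) :
    ∃ ζ : Fin (N + 1) → ℂ, ∀ l, w l = ∑ k, ζ k * s k l := by
  set A : Matrix (Fin (N + 1)) (Fin (N + 1)) ℂ := Matrix.of fun i k => s k (t i) with hA
  have hu : IsUnit A := (Matrix.isUnit_iff_isUnit_det _).2 (isUnit_iff_ne_zero.2 hS)
  obtain ⟨ζ, hζ⟩ := (Matrix.mulVec_surjective_iff_isUnit.2 hu) fun i => w (t i)
  refine ⟨ζ, ?_⟩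
  have h1 : ∀ i, ∑ k, s k (t i) * ζ k = w (t i) := fun i => congrFun hζ i
  have h2 : Tg ℓ e x (fun l => w l - ∑ k, s k l * ζ k) := by
    obtain ⟨u1, hu1⟩ := hw
    obtain ⟨u2, hu2⟩ := tg_comb hs ζ
    refine ⟨fun j => u1 j - u2 j, fun l => ?_⟩
    rw [mul_sub, hu1 l]
    have h3 := hu2 l
    simp only at h3
    rw [h3, ← Finset.sum_sub_distrib]
    exact Finset.sum_congr rfl fun j _ => by ring
  have h3 := tg_zero hg h2 ht fun i => by
    rw [h1 i, sub_self]
  intro l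
  have h4 := congrFun h3 l
  simp only [Pi.zero_apply] at h4
  rw [sub_eq_zero] at h4
  rw [h4]
  exact Finset.sum_congr rfl fun k _ => mul_comm _ _

/-- the top coefficients in two frames -/
theorem rep_top {ι : Type} {s s' : Fin (N + 1) → ι → ℂ}
    {L : Fin (N + 1) → Fin (N + 1) → ℂ} {c μ : ℂ} (hc : c ≠ 0)
    (hL : ∀ k j, k < j → L k j = 0) (hLd : ∀ k, L k k = c)
    (hs : ∀ k l, s' k l = ∑ j, L k j * s j l) {w w' : ι → ℂ}
    (hw : ∀ l, w' l = c * w l + μ * s 0 l) {ζ ζ' : Fin (N + 1) → ℂ}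
    (h : ∀ l, w l = ∑ k, ζ k * s k l) (h' : ∀ l, w' l = ∑ k, ζ' k * s' k l)
    {t : Fin (N + 1) → ι} (hS : St s t ≠ 0) {k : Fin (N + 1)} (hk : k ≠ 0)
    (h0' : ∀ j, k < j → ζ' j = 0) : ζ' k = ζ k := by
  have h1 : (fun i => ∑ j, ζ' j * L j i) = fun i => c * ζ i + if i = 0 then μ else 0 := by
    apply rep_uniq hS
    intro a
    have e1 : ∑ i, (∑ j, ζ' j * L j i) * s i (t a) = w' (t a) := by
      rw [h' (t a)]
      simp only [Finset.sum_mul, hs, Finset.mul_sum]
      rw [Finset.sum_comm]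
      exact Finset.sum_congr rfl fun j _ => Finset.sum_congr rfl fun i _ => by ring
    have e2 : ∑ i, (c * ζ i + if i = 0 then μ else 0) * s i (t a) = w' (t a) := by
      rw [hw, h (t a)]
      simp only [add_mul, Finset.sum_add_distrib, Finset.mul_sum]
      congr 1
      · exact Finset.sum_congr rfl fun j _ => by ring
      · simp
    rw [e1, e2]
  have h2 := congrFun h1 k
  simp only [if_neg hk, add_zero] at h2
  rw [Finset.sum_eq_single k] at h2
  · rw [hLd, mul_comm] at h2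
    exact mul_left_cancel₀ hc h2
  · intro j _ hj
    rcases lt_or_gt_of_ne hj with h3 | h3
    · rw [hL j k h3, mul_zero]
    · rw [h0' j h3, zero_mul]
  · intro h3
    exact absurd (Finset.mem_univ k) h3

/-- the column of a tangent vector -/
noncomputable def vc (N e : ℕ) (x v : Fin (n + 1) → ℂ) : Fin (n + 1) → ℂ :=
  fun l => ((e + N : ℕ) : ℂ) * x l ^ (N - 1) * v l

theorem vc_add (x v v' : Fin (n + 1) → ℂ) (c : ℂ) (l : Fin (n + 1)) :
    vc N e x (v + c • v') l = vc N e x v l + c * vc N e x v' l := by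
  unfold vc
  rw [Pi.add_apply, Pi.smul_apply, smul_eq_mul]
  ring

theorem vc_tg {x v : Fin (n + 1) → ℂ} (hv : Tg ℓ (e + (N - 1)) x v) :
    Tg ℓ e x (vc N e x v) := by
  obtain ⟨u, hu⟩ := hv
  refine ⟨fun j => ((e + N : ℕ) : ℂ) * u j, fun l => ?_⟩
  unfold vc
  have h1 := hu l
  rw [pow_add] at h1
  calc x l ^ e * (((e + N : ℕ) : ℂ) * x l ^ (N - 1) * v l) =
        ((e + N : ℕ) : ℂ) * (x l ^ e * x l ^ (N - 1) * v l) := by ring
    _ = _ := by
      rw [h1, Finset.mul_sum]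
      exact Finset.sum_congr rfl fun j _ => by ring

theorem vc_change (hN : 0 < N) (x v : Fin (n + 1) → ℂ) (c μ : ℂ) (l : Fin (n + 1)) :
    vc N e (c • x) (c • v + μ • x) l =
      c ^ N * vc N e x v l + (((e + N : ℕ) : ℂ) * c ^ (N - 1) * μ) * x l ^ N := by
  unfold vc
  obtain ⟨N', rfl⟩ : ∃ N', N = N' + 1 := ⟨N - 1, by omega⟩
  simp only [Pi.smul_apply, Pi.add_apply, smul_eq_mul, Nat.add_sub_cancel]
  ring

/-- the first column -/
theorem cc_one (hN : 0 < N) {γ : ℂ → Fin (n + 1) → ℂ} {z : ℂ} (hγ : AnalyticAt ℂ γ z)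
    (l : Fin (n + 1)) : cc N e γ z ⟨1, by omega⟩ l = vc N e (γ z) (deriv γ z) l := by
  unfold cc vc
  rw [Ev_one, jt_zero]
  congr 1
  unfold jt
  rw [← iter_pi hγ, iteratedDeriv_one]

theorem cc_an {γ : ℂ → Fin (n + 1) → ℂ} {z : ℂ} (hγ : AnalyticAt ℂ γ z) (k : Fin (N + 1))
    (l : Fin (n + 1)) : AnalyticAt ℂ (fun w => cc N e γ w k l) z := by
  unfold cc
  apply Ev_an
  intro i
  exact iter_an ((analyticAt_pi_iff.1 hγ) l) i

theorem vc_an {E : Type*} [NormedAddCommGroup E] [NormedSpace ℂ E] {x v : E → Fin (n + 1) → ℂ}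
    {p : E} (hx : ∀ l, AnalyticAt ℂ (fun q => x q l) p) (hv : ∀ l, AnalyticAt ℂ (fun q => v q l) p)
    (l : Fin (n + 1)) : AnalyticAt ℂ (fun q => vc N e (x q) (v q) l) p := by
  unfold vc
  exact (analyticAt_const.mul ((hx l).pow _)).mul (hv l)

theorem St_an {E : Type*} [NormedAddCommGroup E] [NormedSpace ℂ E] {ι : Type} {r : ℕ}
    {s : E → Fin r → ι → ℂ} {p : E} (hs : ∀ k l, AnalyticAt ℂ (fun q => s q k l) p)
    (t : Fin r → ι) : AnalyticAt ℂ (fun q => St (s q) t) p := by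
  unfold St
  simp only [Matrix.det_apply]
  refine Finset.analyticAt_fun_sum _ fun σ _ => ?_
  have h1 : AnalyticAt ℂ (fun q => ∏ i, (Matrix.of fun i k => s q k (t i) :
      Matrix (Fin r) (Fin r) ℂ) (σ i) i) p :=
    Finset.analyticAt_fun_prod _ fun i _ => hs _ _
  have h2 : AnalyticAt ℂ (fun q => ((Equiv.Perm.sign σ : ℤ) : ℂ) *
      ∏ i, (Matrix.of fun i k => s q k (t i) :
      Matrix (Fin r) (Fin r) ℂ) (σ i) i) p := analyticAt_const.mul h1
  refine h2.congr (Eventually.of_forall fun q => ?_)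
  simp only [Units.smul_def, zsmul_eq_mul]

theorem St_cont {E : Type*} [TopologicalSpace E] {ι : Type} {r : ℕ}
    {s : E → Fin r → ι → ℂ} (hs : ∀ k l, Continuous (fun q => s q k l))
    (t : Fin r → ι) : Continuous (fun q => St (s q) t) := by
  unfold St
  apply Continuous.matrix_det
  exact continuous_pi fun i => continuous_pi fun k => hs k (t i)

/-- at a zero of a coordinate its derivative is different from zero -/
theorem row_ne (hN : 0 < N) {γ : ℂ → Fin (n + 1) → ℂ} {z : ℂ} (hγ : AnalyticAt ℂ γ z)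
    {t : Fin (N + 1) → Fin (n + 1)} (ht : Adm (Zs (γ z)) t) (hS : St (cc N e γ z) t ≠ 0)
    {l : Fin (n + 1)} (hl : γ z l = 0) : deriv γ z l ≠ 0 := by
  intro h0
  apply hS
  obtain ⟨i, hi⟩ : ∃ i, t i = l := by
    by_contra hcon
    push Not at hcon
    exact adm_ne ht hcon hl
  unfold St
  apply Matrix.det_eq_zero_of_row_eq_zero i
  intro k
  simp only [Matrix.of_apply, hi]
  unfold cc
  have h1 : jt (fun w => γ w l) z 0 = 0 := by
    rw [jt_zero]
    exact hl
  by_cases hk : (k : ℕ) < N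
  · exact Ev_at_zero hk h1
  · have hk' : (k : ℕ) = N := by omega
    unfold Ev
    rw [eval_rho_zero _ _ h1]
    have h2 : jt (fun w => γ w l) z 1 = 0 := by
      unfold jt
      rw [← iter_pi hγ, iteratedDeriv_one]
      exact h0
    rw [h2, zero_pow (by omega), mul_zero, mul_zero]

end Pool.Agent.Helper65.HD
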