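import Pool.Agent.Helper65.HD.Jp

/-!
Analytic functions with vanishing Wronskian are linearly dependent.
-/

set_option autoImplicit false

open Filter Topology Metric Set

namespace Pool.Agent.Helper65.HD

/-- the Wronskian matrix -/
noncomputable def wm {r : ℕ} (g : Fin r → ℂ → ℂ) (z : ℂ) : Matrix (Fin r) (Fin r) ℂ :=
  Matrix.of fun j i => iteratedDeriv (j : ℕ) (g i) z

theorem det_an {r : ℕ} {A : ℂ → Matrix (Fin r) (Fin r) ℂ} {z : ℂ}
    (hA : ∀ i j, AnalyticAt ℂ (fun z => A z i j) z) : AnalyticAt ℂ (fun z => (A z).det) z := by
  simp only [Matrix.det_apply]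
  refine Finset.analyticAt_fun_sum _ fun σ _ => ?_
  have h1 : AnalyticAt ℂ (fun q => ∏ i, A q (σ i) i) z :=
    Finset.analyticAt_fun_prod _ fun i _ => hA _ _
  have h2 : AnalyticAt ℂ (fun q => ((Equiv.Perm.sign σ : ℤ) : ℂ) * ∏ i, A q (σ i) i) z :=
    analyticAt_const.mul h1
  refine h2.congr (Eventually.of_forall fun q => ?_)
  simp only [Units.smul_def, zsmul_eq_mul]

/-- **Linear dependence.** -/
theorem wron_dep {r : ℕ} : ∀ (g : Fin r → ℂ → ℂ) (z0 : ℂ), (∀ i, AnalyticAt ℂ (g i) z0) →
    (∀ᶠ z in 𝓝 z0, (wm g z).det = 0) →
    ∃ b : Fin r → ℂ, b ≠ 0 ∧ ∀ᶠ z in 𝓝 z0, ∑ i, b i * g i z = 0 := by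
  induction r with
  | zero =>
    intro g z0 _ h
    have h1 := h.self_of_nhds
    rw [Matrix.det_isEmpty] at h1
    exact absurd h1 one_ne_zero
  | succ r ih =>
    intro g z0 hg h
    set g' : Fin r → ℂ → ℂ := fun i => g i.castSucc with hg'
    have hw : AnalyticAt ℂ (fun z => (wm g' z).det) z0 := by
      apply det_an
      intro i j
      exact iter_an (hg _) _
    rcases hw.eventually_eq_zero_or_eventually_ne_zero with h1 | h1
    · obtain ⟨b, hb, hb0⟩ := ih g' z0 (fun i => hg _) h1
      refine ⟨Fin.snoc b 0, fun h2 => hb ?_, ?_⟩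
      · funext i
        have h3 := congrFun h2 i.castSucc
        rw [Fin.snoc_castSucc] at h3
        exact h3
      · filter_upwards [hb0] with z hz
        rw [Fin.sum_univ_castSucc]
        simp only [Fin.snoc_castSucc, Fin.snoc_last, zero_mul, add_zero]
        exact hz
    · -- a ball on which all is analytic
      have han : ∀ᶠ z in 𝓝 z0, (∀ i, AnalyticAt ℂ (g i) z) ∧ (wm g z).det = 0 := by
        refine Filter.Eventually.and ?_ h
        rw [eventually_all]
        exact fun i => (hg i).eventually_analyticAt
      obtain ⟨ρ, hρ, hsub⟩ := Metric.mem_nhds_iff.1 han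
      have hmem : ∀ᶠ z in 𝓝 z0, z ∈ ball z0 ρ := ball_mem_nhds z0 hρ
      obtain ⟨z1, hz1, hz1ρ⟩ := (h1.and (hmem.filter_mono nhdsWithin_le_nhds)).exists
      have hgB : ∀ z ∈ ball z0 ρ, ∀ i, AnalyticAt ℂ (g i) z := fun z hz => (hsub hz).1
      have hdB : ∀ z ∈ ball z0 ρ, (wm g z).det = 0 := fun z hz => (hsub hz).2
      -- the coefficients
      set a : ℂ → Fin r → ℂ := fun z i =>
        ((wm g' z).cramer fun j => iteratedDeriv (j : ℕ) (g (Fin.last r)) z) i /
          (wm g' z).det with ha
      have hwc : ContinuousAt (fun z => (wm g' z).det) z1 := by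
        have : AnalyticAt ℂ (fun z => (wm g' z).det) z1 := by
          apply det_an
          intro i j
          exact iter_an (hgB z1 hz1ρ _) _
        exact this.continuousAt
      have hmem1 : ∀ᶠ z in 𝓝 z1, z ∈ ball z0 ρ := isOpen_ball.mem_nhds hz1ρ
      have hev : ∀ᶠ z in 𝓝 z1, z ∈ ball z0 ρ ∧ (wm g' z).det ≠ 0 :=
        hmem1.and (hwc.eventually_ne hz1)
      have hrel : ∀ z, z ∈ ball z0 ρ → (wm g' z).det ≠ 0 → ∀ j : ℕ, j ≤ r →
          iteratedDeriv j (g (Fin.last r)) z = ∑ i, a z i * iteratedDeriv j (g i.castSucc) z := by
        intro z hz hdet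
        -- a relation between the columns
        obtain ⟨c, hc, hc0⟩ := Matrix.exists_mulVec_eq_zero_iff.2 (hdB z hz)
        have hcr : ∀ j : ℕ, j ≤ r → ∑ i : Fin r, c i.castSucc *
            iteratedDeriv j (g i.castSucc) z + c (Fin.last r) *
              iteratedDeriv j (g (Fin.last r)) z = 0 := by
          intro j hj
          have h2 : ∑ i, iteratedDeriv j (g i) z * c i = 0 :=
            congrFun hc0 (⟨j, by omega⟩ : Fin (r + 1))
          rw [Fin.sum_univ_castSucc] at h2
          rw [← h2]
          congr 1
          · exact Finset.sum_congr rfl fun i _ => mul_comm _ _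
          · exact mul_comm _ _
        have hcl : c (Fin.last r) ≠ 0 := by
          intro h2
          have h3 : (wm g' z).mulVec (fun i : Fin r => c i.castSucc) = 0 := by
            funext j
            have h4 := hcr j (by omega)
            rw [h2, zero_mul, add_zero] at h4
            change ∑ i : Fin r, iteratedDeriv (j : ℕ) (g i.castSucc) z * c i.castSucc = 0
            rw [← h4]
            exact Finset.sum_congr rfl fun i _ => mul_comm _ _
          have h4 := Matrix.eq_zero_of_mulVec_eq_zero hdet h3
          apply hc
          funext i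
          refine Fin.lastCases h2 (fun i => ?_) i
          exact congrFun h4 i
        have hci : ∀ i : Fin r, a z i = -(c i.castSucc / c (Fin.last r)) := by
          have h2 : (wm g' z).mulVec (fun i : Fin r => -(c i.castSucc / c (Fin.last r))) =
              fun j : Fin r => iteratedDeriv (j : ℕ) (g (Fin.last r)) z := by
            funext j
            have h4 := hcr j (by omega)
            change ∑ i : Fin r, iteratedDeriv (j : ℕ) (g i.castSucc) z *
              -(c i.castSucc / c (Fin.last r)) = _
            have h5 : ∑ i : Fin r, iteratedDeriv (j : ℕ) (g i.castSucc) z *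
                -(c i.castSucc / c (Fin.last r)) = -(∑ i : Fin r, c i.castSucc *
                  iteratedDeriv (j : ℕ) (g i.castSucc) z) / c (Fin.last r) := by
              rw [neg_div, Finset.sum_div, ← Finset.sum_neg_distrib]
              exact Finset.sum_congr rfl fun i _ => by ring
            rw [h5, div_eq_iff hcl]
            linear_combination -h4
          intro i
          have h3 : (wm g' z).cramer (fun j : Fin r => iteratedDeriv (j : ℕ) (g (Fin.last r)) z) =
              (wm g' z).det • fun i : Fin r => -(c i.castSucc / c (Fin.last r)) := by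
            rw [Matrix.cramer_eq_adjugate_mulVec, ← h2, Matrix.mulVec_mulVec,
              Matrix.adjugate_mul, Matrix.smul_mulVec, Matrix.one_mulVec]
          rw [ha]
          simp only
          rw [h3, Pi.smul_apply, smul_eq_mul, mul_div_cancel_left₀ _ hdet]
        intro j hj
        have h4 := hcr j hj
        simp only [hci]
        have h5 : ∑ i : Fin r, -(c i.castSucc / c (Fin.last r)) *
            iteratedDeriv j (g i.castSucc) z = -(∑ i : Fin r, c i.castSucc *
              iteratedDeriv j (g i.castSucc) z) / c (Fin.last r) := by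
          rw [neg_div, Finset.sum_div, ← Finset.sum_neg_distrib]
          exact Finset.sum_congr rfl fun i _ => by ring
        rw [h5, eq_div_iff hcl]
        linear_combination h4
      have haan : ∀ z, z ∈ ball z0 ρ → (wm g' z).det ≠ 0 → ∀ i,
          AnalyticAt ℂ (fun z => a z i) z := by
        intro z hz hdet i
        rw [ha]
        refine AnalyticAt.div ?_ ?_ hdet
        · simp only [Matrix.cramer_apply]
          apply det_an
          intro i' j'
          by_cases hj : j' = i
          · rw [hj]
            simp only [Matrix.updateCol_self]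
            exact iter_an (hgB z hz _) _
          · simp only [Matrix.updateCol_ne hj]
            exact iter_an (hgB z hz _) _
        · apply det_an
          intro i' j'
          exact iter_an (hgB z hz _) _
      -- the coefficients are locally constant
      have hder : ∀ᶠ z in 𝓝 z1, ∀ i, deriv (fun z => a z i) z = 0 := by
        filter_upwards [hev.eventually_nhds] with z hz
        obtain ⟨hzB, hdet⟩ := hz.self_of_nhds
        have h2 : (wm g' z).mulVec (fun i => deriv (fun z => a z i) z) = 0 := by
          funext j
          change ∑ i, iteratedDeriv (j : ℕ) (g i.castSucc) z * deriv (fun z => a z i) z = 0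
          have h3 : iteratedDeriv (j : ℕ) (g (Fin.last r)) =ᶠ[𝓝 z]
              fun w => ∑ i, a w i * iteratedDeriv (j : ℕ) (g i.castSucc) w := by
            filter_upwards [hz] with w hw
            exact hrel w hw.1 hw.2 j (by omega)
          have h4 : HasDerivAt (fun w => ∑ i, a w i * iteratedDeriv (j : ℕ) (g i.castSucc) w)
              (∑ i, (deriv (fun z => a z i) z * iteratedDeriv (j : ℕ) (g i.castSucc) z +
                a z i * iteratedDeriv ((j : ℕ) + 1) (g i.castSucc) z)) z :=
            HasDerivAt.fun_sum fun i _ =>
              (haan z hzB hdet i).differentiableAt.hasDerivAt.mul (iter_hd (hgB z hzB _) _)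
          have h5 := (iter_hd (hgB z hzB (Fin.last r)) j).unique
            (h4.congr_of_eventuallyEq h3)
          rw [hrel z hzB hdet ((j : ℕ) + 1) (by omega), Finset.sum_add_distrib] at h5
          have h6 : ∑ i, deriv (fun z => a z i) z * iteratedDeriv (j : ℕ) (g i.castSucc) z = 0 := by
            linear_combination -h5
          rw [← h6]
          exact Finset.sum_congr rfl fun i _ => mul_comm _ _
        have h3 := Matrix.eq_zero_of_mulVec_eq_zero hdet h2
        exact fun i => congrFun h3 i
      obtain ⟨ρ1, hρ1, hsub1⟩ := Metric.mem_nhds_iff.1 (hev.and hder)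
      have hconst : ∀ z ∈ ball z1 ρ1, ∀ i, a z i = a z1 i := by
        intro z hz i
        refine (convex_ball z1 ρ1).is_const_of_fderivWithin_eq_zero (𝕜 := ℂ)
          (f := fun z => a z i) ?_ ?_ hz (mem_ball_self hρ1)
        · intro w hw
          exact (haan w (hsub1 hw).1.1 (hsub1 hw).1.2 i).differentiableAt.differentiableWithinAt
        · intro w hw
          rw [fderivWithin_of_isOpen isOpen_ball hw]
          have h2 := (haan w (hsub1 hw).1.1 (hsub1 hw).1.2 i).differentiableAt.hasDerivAt
          rw [(hsub1 hw).2 i] at h2
          have h3 := h2.hasFDerivAt.fderiv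
          rw [h3]
          ext
          simp
      refine ⟨Fin.snoc (fun i => a z1 i) (-1), fun h2 => ?_, ?_⟩
      · have h3 := congrFun h2 (Fin.last r)
        rw [Fin.snoc_last] at h3
        simp at h3
      · set f : ℂ → ℂ := fun z => ∑ i, (Fin.snoc (fun i => a z1 i) (-1) : Fin (r + 1) → ℂ) i *
          g i z with hf
        have hfa : AnalyticOnNhd ℂ f (ball z0 ρ) := fun z hz =>
          Finset.analyticAt_fun_sum _ fun i _ => analyticAt_const.mul (hgB z hz i)
        have hf1 : f =ᶠ[𝓝 z1] 0 := by
          filter_upwards [ball_mem_nhds z1 hρ1] with z hz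
          have h2 := hrel z (hsub1 hz).1.1 (hsub1 hz).1.2 0 (Nat.zero_le r)
          rw [hf]
          simp only
          rw [Fin.sum_univ_castSucc]
          simp only [Fin.snoc_castSucc, Fin.snoc_last, Pi.zero_apply]
          simp only [iteratedDeriv_zero, hconst z hz] at h2
          rw [h2]
          ring
        have h2 := hfa.eqOn_zero_of_preconnected_of_eventuallyEq_zero
          (convex_ball z0 ρ).isPreconnected hz1ρ hf1
        filter_upwards [ball_mem_nhds z0 hρ] with z hz
        exact h2 hz

end Pool.Agent.Helper65.HD
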