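import Pool.Agent.Helper65.HD.Rkv
import Pool.Agent.Helper65.HD.Wr
import Pool.Agent.Helper65.HD.Ra
import Pool.Agent.Helper65.HD.Lv

/-!
Curves over linear subspaces of projective space: the Wronskian.
-/

set_option autoImplicit false

open Filter Topology Metric MvPolynomial Set

namespace Pool.Agent.Helper65.HD

open Pool.Agent.W602.GT Pool.Agent.N155.BB Pool.Agent.Y190.OP Pool.Agent.N155
  Pool.Agent.N155.GD Pool.Agent.Helper65.BF Pool.Agent.Helper65.GG

variable {n k e' : ℕ} {κ : Fin (n + 1) → Fin (k + 1) → ℂ} {t0 : Fin (k + 1) → Fin (n + 1)}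

/-- the inverse matrix -/
noncomputable def iv (κ : Fin (n + 1) → Fin (k + 1) → ℂ) (t0 : Fin (k + 1) → Fin (n + 1)) :
    Matrix (Fin (k + 1)) (Fin (k + 1)) ℂ :=
  (Matrix.of fun i j => κ (t0 i) j : Matrix (Fin (k + 1)) (Fin (k + 1)) ℂ)⁻¹

/-- the coordinates of the point of projective space -/
noncomputable def gg (κ : Fin (n + 1) → Fin (k + 1) → ℂ) (t0 : Fin (k + 1) → Fin (n + 1)) (d : ℕ)
    (j : Fin (k + 1)) (x : Fin (n + 1) → ℂ) : ℂ := ∑ i, iv κ t0 j i * x (t0 i) ^ d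

theorem gg_rel (h0 : Mt κ t0 ≠ 0) {d : ℕ} {x : Fin (n + 1) → ℂ}
    (hx : x ∈ Cone (fermatForms κ d)) (l : Fin (n + 1)) :
    x l ^ d = ∑ j, κ l j * gg κ t0 d j x := by
  obtain ⟨u, hu⟩ := exists_u h0 (mem_cone.1 hx).2
  have h1 : ∀ j, gg κ t0 d j x = u j := by
    intro j
    have h2 : (Matrix.of fun i j => κ (t0 i) j :
        Matrix (Fin (k + 1)) (Fin (k + 1)) ℂ).mulVec u = fun i => x (t0 i) ^ d := by
      funext i
      exact (hu (t0 i)).symm
    have h3 : (iv κ t0).mulVec (fun i => x (t0 i) ^ d) = u := by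
      rw [← h2, Matrix.mulVec_mulVec]
      unfold iv
      rw [Matrix.nonsing_inv_mul _ (isUnit_iff_ne_zero.2 h0), Matrix.one_mulVec]
    exact congrFun h3 j
  simp only [h1]
  exact hu l

theorem gg_an {γ : ℂ → Fin (n + 1) → ℂ} {z : ℂ} (hγ : AnalyticAt ℂ γ z) (d : ℕ)
    (j : Fin (k + 1)) : AnalyticAt ℂ (fun w => gg κ t0 d j (γ w)) z := by
  unfold gg
  exact Finset.analyticAt_fun_sum _ fun i _ =>
    analyticAt_const.mul (((analyticAt_pi_iff.1 hγ) (t0 i)).pow d)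

/-- **The Wronskian.** -/
theorem wr_key (h0 : Mt κ t0 ≠ 0) {γ : ℂ → Fin (n + 1) → ℂ} {z : ℂ} (hγ : AnalyticAt ℂ γ z)
    (hX : ∀ᶠ w in 𝓝 z, γ w ∈ Cone (fermatForms κ (e' + k))) (t : Fin (k + 1) → Fin (n + 1)) :
    (∏ j, γ z (t j) ^ e') * St (cc k e' γ z) t =
      (wm (fun j w => gg κ t0 (e' + k) j (γ w)) z).det * Mt κ t := by
  have h1 : (Matrix.of fun (j i : Fin (k + 1)) =>
      iteratedDeriv (j : ℕ) (fun w => γ w (t i) ^ (e' + k)) z :
      Matrix (Fin (k + 1)) (Fin (k + 1)) ℂ) =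
      wm (fun j w => gg κ t0 (e' + k) j (γ w)) z *
        (Matrix.of fun i j => κ (t i) j : Matrix (Fin (k + 1)) (Fin (k + 1)) ℂ).transpose := by
    ext j i
    rw [Matrix.mul_apply]
    simp only [Matrix.of_apply, Matrix.transpose_apply, wm]
    have h2 : (fun w => γ w (t i) ^ (e' + k)) =ᶠ[𝓝 z]
        fun w => ∑ m, κ (t i) m * gg κ t0 (e' + k) m (γ w) := by
      filter_upwards [hX] with w hw
      exact gg_rel h0 hw (t i)
    have h5 := iteratedDeriv_fun_sum (𝕜 := ℂ) (n := j) (x := z) (I := Finset.univ)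
      (f := fun (m : Fin (k + 1)) w => κ (t i) m * gg κ t0 (e' + k) m (γ w)) fun m _ =>
      (analyticAt_const.mul (gg_an hγ (e' + k) m)).contDiffAt
    rw [h2.iteratedDeriv_eq, h5]
    refine Finset.sum_congr rfl fun m _ => ?_
    rw [iteratedDeriv_const_mul_field, mul_comm]
  have h2 : (Matrix.of fun (j i : Fin (k + 1)) =>
      iteratedDeriv (j : ℕ) (fun w => γ w (t i) ^ (e' + k)) z :
      Matrix (Fin (k + 1)) (Fin (k + 1)) ℂ) =
      Matrix.of fun (j i : Fin (k + 1)) => γ z (t i) ^ e' *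
        (Matrix.of fun i j => cc k e' γ z j (t i) :
          Matrix (Fin (k + 1)) (Fin (k + 1)) ℂ).transpose j i := by
    ext j i
    simp only [Matrix.of_apply, Matrix.transpose_apply]
    rw [Ev_pow ((analyticAt_pi_iff.1 hγ) (t i)) (by omega : (j : ℕ) ≤ k)]
    rfl
  have h3 := congrArg Matrix.det h1
  rw [h2, Matrix.det_mul_row, Matrix.det_transpose, Matrix.det_mul, Matrix.det_transpose] at h3
  exact h3

/-- the Wronskian, up to a constant -/
noncomputable def Dk (k e' : ℕ) (φ : ℂ → Mat (n + 1)) (t : Fin (k + 1) → Fin (n + 1))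
    (i : Fin (n + 1)) (z : ℂ) : ℂ := (∏ j, cu φ i z (t j) ^ e') * St (cc k e' (cu φ i) z) t

variable {φ : ℂ → Mat (n + 1)}

theorem Dk_rows (hφ : BD (TF (fermatForms κ (e' + k))) φ) (h0 : Mt κ t0 ≠ 0)
    (t : Fin (k + 1) → Fin (n + 1)) {i : Fin (n + 1)} {z : ℂ} (hi : φ z i i ≠ 0) :
    Dk k e' φ t i z * Mt κ t0 = Dk k e' φ t0 i z * Mt κ t := by
  unfold Dk
  have h1 := cu_an hφ.hol i hi
  have h2 := ev_cone form_fermat hφ.hol hφ.mem hi
  rw [wr_key h0 h1 h2 t, wr_key h0 h1 h2 t0]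
  ring

theorem Dk_an (hφ : HolP univ φ) (t : Fin (k + 1) → Fin (n + 1)) {i : Fin (n + 1)} {z : ℂ}
    (hi : φ z i i ≠ 0) : AnalyticAt ℂ (Dk k e' φ t i) z := by
  have han := cu_an hφ i hi
  unfold Dk
  refine AnalyticAt.fun_mul ?_ (St_an (fun j l => cc_an han j l) t)
  exact Finset.analyticAt_fun_prod _ fun j _ => ((analyticAt_pi_iff.1 han) (t j)).pow e'

/-- change of chart -/
theorem Dk_chart (hφ : HolP univ φ) (t : Fin (k + 1) → Fin (n + 1)) {i i' : Fin (n + 1)} {z : ℂ}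
    (hi : φ z i i ≠ 0) (hi' : φ z i' i' ≠ 0) :
    Dk k e' φ t i' z = (cu φ i z i')⁻¹ ^ ((k + 1) * (e' + k)) * Dk k e' φ t i z := by
  have hPM : ∀ w, φ w ∈ PM := fun w => hφ.mem_PM (mem_univ w)
  have hx : cu φ i z i' ≠ 0 := chart_i'_ne (hPM z) hi hi'
  have han := cu_an hφ i hi
  have hani : AnalyticAt ℂ (fun w => cu φ i w i') z := (analyticAt_pi_iff.1 han) i'
  have hh : AnalyticAt ℂ (fun w => (cu φ i w i')⁻¹) z := hani.inv hx
  have hh0 : (cu φ i z i')⁻¹ ≠ 0 := inv_ne_zero hx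
  have h1 : cu φ i' =ᶠ[𝓝 z] fun w => (cu φ i w i')⁻¹ • cu φ i w := by
    filter_upwards [BF.ev_diag hφ hi, BF.ev_diag hφ hi'] with w hw hw'
    exact chart_tr (hPM w) hw hw'
  have h2 : cc k e' (cu φ i') z = cc k e' (fun w => (cu φ i w i')⁻¹ • cu φ i w) z := by
    funext j l
    unfold cc
    congr 1
    funext a
    unfold jt
    have h3 : (fun w => cu φ i' w l) =ᶠ[𝓝 z] fun w => ((cu φ i w i')⁻¹ • cu φ i w) l := by
      filter_upwards [h1] with w hw
      rw [hw]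
    exact h3.iteratedDeriv_eq a
  have h3 := st_tri (Lh_lower (N := k) (e := e') (h := fun w => (cu φ i w i')⁻¹) (z := z))
    (cc_mul han hh hh0) t
  simp only [Lh_diag, Finset.prod_const, Finset.card_univ, Fintype.card_fin] at h3
  unfold Dk
  rw [h2, h3, h1.self_of_nhds]
  simp only [Pi.smul_apply, smul_eq_mul, mul_pow]
  rw [Finset.prod_mul_distrib, Finset.prod_const, Finset.card_univ, Fintype.card_fin]
  have h4 : (cu φ i z i')⁻¹ ^ ((k + 1) * (e' + k)) =
      ((cu φ i z i')⁻¹ ^ e') ^ (k + 1) * ((cu φ i z i')⁻¹ ^ k) ^ (k + 1) := by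
    rw [← pow_mul, ← pow_mul, ← pow_add]
    congr 1
    ring
  rw [h4]
  ring

/-- vanishing of the Wronskian -/
theorem Dk_dep (hφ : BD (TF (fermatForms κ (e' + k))) φ) (h0 : Mt κ t0 ≠ 0)
    {i : Fin (n + 1)} {z : ℂ} (hi : φ z i i ≠ 0) (hD : ∀ᶠ w in 𝓝 z, Dk k e' φ t0 i w = 0) :
    ∃ b : Fin (k + 1) → ℂ, b ≠ 0 ∧ ∀ w j, φ w j j ≠ 0 →
      ∑ m, b m * gg κ t0 (e' + k) m (cu φ j w) = 0 := by
  have han := cu_an hφ.hol i hi
  have hev := ev_cone form_fermat hφ.hol hφ.mem hi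
  obtain ⟨b, hb, hb0⟩ := wron_dep (fun m w => gg κ t0 (e' + k) m (cu φ i w)) z
    (fun m => gg_an han _ m) (by
      filter_upwards [hD, hev.eventually_nhds, BF.ev_diag hφ.hol hi] with w hw hw' hwi
      have h1 := wr_key h0 (cu_an hφ.hol i hwi) hw' t0
      have h2 : (∏ j, cu φ i w (t0 j) ^ e') * St (cc k e' (cu φ i) w) t0 = 0 := hw
      rw [h2] at h1
      exact (mul_eq_zero.1 h1.symm).resolve_right h0)
  refine ⟨b, hb, fun w j hj => ?_⟩
  set G : MvPolynomial (Fin (n + 1)) ℂ :=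
    ∑ m, C (b m) * ∑ a, C (iv κ t0 m a) * X (t0 a) ^ (e' + k) with hG
  have hGh : G.IsHomogeneous (e' + k) := by
    refine IsHomogeneous.sum _ _ _ fun m _ => ?_
    have h1 : (∑ a, C (iv κ t0 m a) * X (t0 a) ^ (e' + k) :
        MvPolynomial (Fin (n + 1)) ℂ).IsHomogeneous (e' + k) := by
      refine IsHomogeneous.sum _ _ _ fun a _ => ?_
      have h2 := (isHomogeneous_C (Fin (n + 1)) (iv κ t0 m a)).mul
        ((isHomogeneous_X ℂ (t0 a)).pow (e' + k))
      simpa using h2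
    have h2 := (isHomogeneous_C (Fin (n + 1)) (b m)).mul h1
    rwa [zero_add] at h2
  have hGe : ∀ x, eval x G = ∑ m, b m * gg κ t0 (e' + k) m x := by
    intro x
    rw [hG, map_sum]
    refine Finset.sum_congr rfl fun m _ => ?_
    rw [map_mul, eval_C, map_sum]
    unfold gg
    congr 1
    refine Finset.sum_congr rfl fun a _ => ?_
    rw [map_mul, eval_C, map_pow, eval_X]
  rw [← hGe]
  refine form_zero hφ.hol hGh hi ?_ hj
  filter_upwards [hb0] with v hv
  rw [hGe]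
  exact hv

/-! ### hyperplanes -/

/-- parametrization of a hyperplane -/
theorem exists_hyper {b : Fin (k + 1 + 1) → ℂ} (hb : b ≠ 0) :
    ∃ B : Fin (k + 1 + 1) → Fin (k + 1) → ℂ,
      (∀ u : Fin (k + 1 + 1) → ℂ, ∑ j, b j * u j = 0 →
        ∃ w : Fin (k + 1) → ℂ, ∀ j, u j = ∑ m, B j m * w m) ∧
      ∀ w : Fin (k + 1) → ℂ, (∀ j, ∑ m, B j m * w m = 0) → w = 0 := by
  classical
  obtain ⟨j0, hj0⟩ := Function.ne_iff.1 hb
  have hj0' : b j0 ≠ 0 := hj0
  set B : Fin (k + 1 + 1) → Fin (k + 1) → ℂ := fun j => Fin.insertNth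
    (α := fun _ => Fin (k + 1) → ℂ) j0 (fun m => -(b (j0.succAbove m) / b j0))
    (fun m' m => if m' = m then 1 else 0) j with hB
  have hB0 : ∀ m, B j0 m = -(b (j0.succAbove m) / b j0) := by
    intro m
    simp only [hB, Fin.insertNth_apply_same]
  have hB1 : ∀ m' m, B (j0.succAbove m') m = if m' = m then 1 else 0 := by
    intro m' m
    simp only [hB, Fin.insertNth_apply_succAbove]
  refine ⟨B, fun u hu => ⟨fun m => u (j0.succAbove m), fun j => ?_⟩, fun w hw => ?_⟩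
  · rcases Fin.eq_self_or_eq_succAbove j0 j with h1 | ⟨m', h1⟩
    · rw [h1]
      simp only [hB0]
      rw [Fin.sum_univ_succAbove _ j0] at hu
      have h2 : ∑ m, -(b (j0.succAbove m) / b j0) * u (j0.succAbove m) =
          -(∑ m, b (j0.succAbove m) * u (j0.succAbove m)) / b j0 := by
        rw [neg_div, Finset.sum_div, ← Finset.sum_neg_distrib]
        exact Finset.sum_congr rfl fun m _ => by ring
      rw [h2, eq_div_iff hj0']
      linear_combination hu
    · rw [h1]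
      simp only [hB1]
      simp
  · funext m
    have h1 := hw (j0.succAbove m)
    simp only [hB1] at h1
    simpa using h1

/-- the curves over a hyperplane -/
theorem restrict {κ : Fin (n + 1) → Fin (k + 1 + 1) → ℂ} {N d : ℕ} (hS : Sep N κ)
    {t0 : Fin (k + 1 + 1) → Fin (n + 1)} (h0 : Mt κ t0 ≠ 0)
    (hφ : BD (TF (fermatForms κ d)) φ) {b : Fin (k + 1 + 1) → ℂ} (hb : b ≠ 0)
    (hb0 : ∀ w j, φ w j j ≠ 0 → ∑ m, b m * gg κ t0 d m (cu φ j w) = 0) :
    ∃ κ' : Fin (n + 1) → Fin (k + 1) → ℂ, Sep N κ' ∧ BD (TF (fermatForms κ' d)) φ := by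
  obtain ⟨B, hB, hB'⟩ := exists_hyper hb
  refine ⟨fun l m => ∑ j, κ l j * B j m, fun t ht w hw => ?_,
    ⟨hφ.hol, fun z => ?_, hφ.bd⟩⟩
  · apply hB'
    have h1 := hS t ht (fun j => ∑ m, B j m * w m) (fun i => by
      have h2 := hw i
      simp only [Finset.sum_mul] at h2
      rw [← h2, Finset.sum_comm]
      refine Finset.sum_congr rfl fun j _ => ?_
      rw [Finset.mul_sum]
      exact Finset.sum_congr rfl fun m _ => by ring)
    exact fun j => congrFun h1 j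
  · obtain ⟨i, hi⟩ := PM.exists_diag (TF_PM (hφ.mem z))
    have hx' := chart_cone form_fermat (hφ.mem z) hi
    have hx := mem_cone.1 hx'
    obtain ⟨w, hw⟩ := hB (fun m => gg κ t0 d m (cu φ i z)) (hb0 z i hi)
    refine ⟨chart i (φ z), mem_cone.2 ⟨hx.1, fun c hc => ?_⟩,
      PM.Phi_chart (TF_PM (hφ.mem z)) hi⟩
    refine rel_of_u (u := w) (fun l => ?_) hc
    rw [gg_rel h0 hx' l]
    have hw' : ∀ j, gg κ t0 d j (chart i (φ z)) = ∑ m, B j m * w m := hw
    simp only [hw', Finset.mul_sum, Finset.sum_mul]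
    rw [Finset.sum_comm]
    exact Finset.sum_congr rfl fun k _ => Finset.sum_congr rfl fun j _ => by ring

end Pool.Agent.Helper65.HD
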