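import Pool.Agent.Helper65.GG.Disc

/-!
The engine for classes of curves with the rigidity property: deformations are tangent to the curve.
(After files of the library, where the rigidity comes from 2-forms.)
-/

set_option autoImplicit false

open Filter Topology Metric Set MvPolynomial

namespace Pool.Agent.Helper65.HD

open Pool.Agent.Y190.OP Pool.Agent.W602.GT Pool.Agent.TH143.GT Pool.Agent.N155
  Pool.Agent.N155.BB Pool.Agent.N155.GD

variable {N : ℕ} {T : Set (Mat N)} {c0 : ℝ} {𝒞 : (ℂ → Mat N) → Prop}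
  {𝒟 : ℝ → (ℂ → Mat N) → Prop} {r c1 η : ℝ}

/-- deformations of the curves of the class are tangent to the curve near some point -/
def Rigid (T : Set (Mat N)) (𝒞 : (ℂ → Mat N) → Prop) : Prop :=
  ∀ (𝓤 : Ultrafilter ℕ) (χ : ℂ → Mat N) (P Q : ℕ → ℂ → Mat N) (s wt : ℕ → ℂ → ℂ) (B C0 : ℝ),
    RGd T 𝓤 χ P Q s wt B C0 → 𝒞 χ → ∃ z, ∀ᶠ t in 𝓝 z, Par 𝓤 χ P Q s wt t

/-- **The normal component vanishes.** -/
theorem final' {𝓤 : Ultrafilter ℕ} {χ : ℂ → Mat N} {P Q : ℕ → ℂ → Mat N} {s wt : ℕ → ℂ → ℂ}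
    {B C0 : ℝ} (hTP : T ⊆ PM) (h : RGd T 𝓤 χ P Q s wt B C0)
    (hZ : ∃ z, ∀ᶠ t in 𝓝 z, Par 𝓤 χ P Q s wt t) : ∃ t : ℕ → ℂ, Tendsto t 𝓤 (𝓝 0) ∧
      Tendsto (fun m => ‖Q m (t m) - P m 0‖ * ‖wt m 0‖) 𝓤 (𝓝 0) := by
  have hpar : ∀ t, Par 𝓤 χ P Q s wt t := by
    set A : Set ℂ := {t | ∀ᶠ u in 𝓝 t, Par 𝓤 χ P Q s wt u} with hA
    have hAo : IsOpen A := by
      rw [isOpen_iff_mem_nhds]
      intro t ht
      exact ht.eventually_nhds
    have hAc : IsClosed A := by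
      rw [← isOpen_compl_iff, isOpen_iff_mem_nhds]
      intro t ht
      rcases h.par_dich hTP t with h1 | h1
      · exact absurd h1 ht
      · rw [eventually_nhdsWithin_iff] at h1
        filter_upwards [h1] with u hu huA
        by_cases hut : u = t
        · rw [hut] at huA
          exact ht huA
        · exact hu hut huA.self_of_nhds
    obtain ⟨z, hzA⟩ := hZ
    have hAu : A = univ := (isClopen_iff.1 ⟨hAc, hAo⟩).resolve_left
      (Set.Nonempty.ne_empty ⟨z, hzA⟩)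
    intro t
    have ht : t ∈ A := by
      rw [hAu]
      trivial
    exact ht.self_of_nhds
  obtain ⟨i, hi0⟩ := PM.exists_diag (hTP (h.mχ 0))
  obtain ⟨γ, hγ⟩ := (h.par_iff hTP hi0).1 (hpar 0)
  obtain ⟨V, a, g, Nn, β, hV, h0V, hrep⟩ := h.rep hi0
  obtain ⟨-, -, r1, r2, r3, r4, r5⟩ := hrep 0 h0V
  have hN0 : Nn 0 = 0 := by
    have e1 : Nn 0 = (γ - β 0) • deriv (fun w => chart i (χ w)) 0 := by
      rw [sub_smul, ← hγ, r5, add_sub_cancel_right]
    have e2 := congrFun e1 a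
    rw [r1, Pi.smul_apply, smul_eq_mul] at e2
    have e3 : γ - β 0 = 0 := by
      rcases mul_eq_zero.1 e2.symm with h | h
      · exact h
      · exact absurd h (r2 rfl)
    rw [e1, e3, zero_smul]
  refine ⟨fun m => g m 0, r3, ?_⟩
  rw [hN0] at r4
  obtain ⟨K, s', hs, hK⟩ := (contDiffAt_Phi (PM.chart_ne hi0)).exists_lipschitzOnWith
  have hPt : Tendsto (fun m => P m 0) 𝓤 (𝓝 (χ 0)) := h.tP 0
  have hQt : Tendsto (fun m => Q m (g m 0)) 𝓤 (𝓝 (χ 0)) := CConv.seq h.lQ (mem_univ 0) r3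
  have hp := (continuousAt_chart hi0).tendsto.comp hPt
  have hq := (continuousAt_chart hi0).tendsto.comp hQt
  have hdg : ∀ᶠ M in 𝓝 (χ 0), M i i ≠ 0 :=
    (continuous_apply_apply i i).continuousAt.eventually_ne hi0
  have h3 := (r4.norm).const_mul (K : ℝ)
  rw [norm_zero, mul_zero] at h3
  refine squeeze_zero' (Eventually.of_forall fun m => by positivity) ?_ h3
  filter_upwards [hp.eventually hs, hq.eventually hs, hPt.eventually hdg, hQt.eventually hdg,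
    h.mPt 0] with m e3 e4 e5 e6 hmP
  have e7 := hK.dist_le_mul _ e4 _ e3
  rw [dist_eq_norm, dist_eq_norm, Function.comp_apply, Function.comp_apply,
    PM.Phi_chart (hTP hmP) e5, PM.Phi_chart (hTP (h.mQ m _)) e6] at e7
  rw [norm_smul]
  calc ‖Q m (g m 0) - P m 0‖ * ‖wt m 0‖ ≤
        ((K : ℝ) * ‖chart i (Q m (g m 0)) - chart i (P m 0)‖) * ‖wt m 0‖ :=
        mul_le_mul_of_nonneg_right e7 (norm_nonneg _)
    _ = (K : ℝ) * (‖wt m 0‖ * ‖chart i (Q m (g m 0)) - chart i (P m 0)‖) := by ring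

/-- **Contraction.** -/
theorem contr_d' (hR : Rigid T 𝒞) (hd : Dcl T c0 𝒞 𝒟)
    (hi : Inj r c1 𝒞) (hr : 0 < r) (hc1 : 0 < c1)
    (hη : 0 < η) (hsm : 2 * η ≤ c1 * (r / 8)) {η0 : ℝ} (hηη : η < η0)
    (hule : ∀ H1 H2, 𝒞 H1 → 𝒞 H2 →
      ∀ (b v : ℂ) (S : Set ℂ) (g : ℂ → ℂ), IsOpen S → b ∈ closure S → Tendsto g (𝓝[S] b) (𝓝 v) →
      (∀ z ∈ S, H1 z = H2 (g z)) → H1 b = H2 v →
      ∀ z ∈ ball b η0, ∃ w : ℂ, ‖w - v‖ ≤ r / 2 ∧ H1 z = H2 w) :
    ∃ ρ δ θ : ℝ, 0 < ρ ∧ 0 < δ ∧ 0 < θ ∧ θ < 1 ∧ CTd ρ δ θ η r 𝒞 𝒟 := by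
  classical
  have h : Cls T c0 𝒞 := hd.cls
  by_contra hcon
  push Not at hcon
  have hseq : ∀ m : ℕ, ∃ (P Q : ℂ → Mat N) (g : ℂ → ℂ) (a : ℂ), 𝒟 (m + 1 + 1) P ∧ 𝒞 Q ∧
      (∀ z ∈ closedBall (0 : ℂ) (m + 1), ‖P z - Q (g z)‖ ≤ 1 / (m + 1 : ℝ)) ∧
      (∀ z ∈ closedBall (0 : ℂ) (m + 1), ∀ z' ∈ closedBall (0 : ℂ) (m + 1), ‖z - z'‖ ≤ η →
        ‖g z - g z'‖ ≤ r) ∧
      ∀ z ∈ closedBall (0 : ℂ) (m + 1),
        (1 - 1 / (m + 2 : ℝ)) * (EN r P Q z (g z) * ‖Complex.exp (a * z)‖) < EN r P Q 0 (g 0) := by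
    intro m
    have h1 : 1 / (m + 2 : ℝ) < 1 := by
      rw [div_lt_one (by positivity)]
      have : (0 : ℝ) ≤ m := Nat.cast_nonneg m
      linarith
    have h2 := hcon (m + 1) (1 / (m + 1)) (1 - 1 / (m + 2)) (by positivity)
      (by positivity) (by linarith) (by linarith [show (0 : ℝ) < 1 / (m + 2) by positivity])
    unfold CTd at h2
    push Not at h2
    obtain ⟨P, Q, hQ, g, z0, hP, hz1, hz2, a, ha⟩ := h2
    have hmem : ∀ z, z ∈ closedBall (0 : ℂ) (m + 1) → z0 + z ∈ closedBall z0 (m + 1 : ℝ) := by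
      intro z hz
      rw [mem_closedBall_zero_iff] at hz
      rw [mem_closedBall, dist_eq_norm, add_sub_cancel_left]
      exact hz
    refine ⟨fun w => P (z0 + w), Q, fun w => g (z0 + w), a, hP, hQ,
      fun z hz => hz1 _ (hmem z hz), fun z hz z' hz' hzz => hz2 _ (hmem z hz) _ (hmem z' hz') (by
        rwa [add_sub_add_left_eq_sub]), fun z hz => ?_⟩
    have h2 := ha _ (hmem z hz)
    rw [add_sub_cancel_left] at h2
    unfold EN at h2 ⊢
    simp only [add_zero]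
    exact h2
  choose P Q g a hP hQ hsm1 hsm2 hex using hseq
  have hlipP : ∀ m : ℕ, LipB ((m : ℝ) + 1) (P m) := fun m => hd.lipB (hP m) (lt_add_one _)
  set 𝓤 : Ultrafilter ℕ := hyperfilter ℕ with h𝓤
  have hzero : Tendsto (fun m : ℕ => 1 / (m + 1 : ℝ)) 𝓤 (𝓝 0) := hyp_inv
  -- the nearest points
  choose v hv1 hv2 using fun (m : ℕ) (z : ℂ) =>
    EN_spec (P := P m) (Q := Q m) hr.le (h.cont (hQ m)) z (g m z)
  set e : ℕ → ℝ := fun m => EN r (P m) (Q m) 0 (g m 0) with he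
  have hbig : ∀ L : ℝ, ∀ᶠ m : ℕ in (𝓤 : Filter ℕ), ∀ z ∈ closedBall (0 : ℂ) L,
      z ∈ closedBall (0 : ℂ) (m + 1 : ℝ) := by
    intro L
    filter_upwards [hyp_ge L] with m hm z hz
    rw [mem_closedBall_zero_iff] at hz ⊢
    linarith
  have hENle : ∀ m : ℕ, ∀ z ∈ closedBall (0 : ℂ) (m + 1 : ℝ),
      EN r (P m) (Q m) z (g m z) ≤ 1 / (m + 1 : ℝ) := fun m z hz =>
    (EN_le (w := g m z) (by rw [sub_self, norm_zero]; exact hr.le)).trans (hsm1 m z hz)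
  have hvg : ∀ m : ℕ, ∀ z ∈ closedBall (0 : ℂ) (m + 1 : ℝ),
      c1 * ‖v m z - g m z‖ ≤ 2 * (1 / (m + 1 : ℝ)) := by
    intro m z hz
    have h1 := impd0 hi (hQ m) (z := z) (v := v m z) (v' := g m z)
      ((hv2 m z).symm.le.trans (hENle m z hz)) (hsm1 m z hz) ((hv1 m z).trans (by linarith))
    linarith
  have hsmall : ∀ᶠ m : ℕ in (𝓤 : Filter ℕ), 2 * (1 / (m + 1 : ℝ)) < c1 * (r / 2) := by
    have := hzero.const_mul 2
    rw [mul_zero] at this
    exact this.eventually_lt_const (by positivity)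
  have hvg2 : ∀ᶠ m : ℕ in (𝓤 : Filter ℕ), ∀ z ∈ closedBall (0 : ℂ) (m + 1 : ℝ),
      ‖v m z - g m z‖ ≤ r / 2 := by
    filter_upwards [hsmall] with m hm z hz
    have h1 := hvg m z hz
    have h2 : c1 * ‖v m z - g m z‖ ≤ c1 * (r / 2) := by linarith
    exact le_of_mul_le_mul_left h2 hc1
  have hvstep : ∀ L : ℝ, ∀ᶠ m : ℕ in (𝓤 : Filter ℕ), ∀ z ∈ closedBall (0 : ℂ) L,
      ∀ z' ∈ closedBall (0 : ℂ) L, ‖z - z'‖ ≤ η →
      ‖v m z - v m z'‖ ≤ (2 * (1 / (m + 1 : ℝ)) + 2 * ‖z - z'‖) / c1 := by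
    intro L
    filter_upwards [hbig L, hvg2] with m hm1 hm2 z hz z' hz' hzz
    have k1 := hm2 z (hm1 z hz)
    have k2 := hm2 z' (hm1 z' hz')
    have k3 := hsm2 m z (hm1 z hz) z' (hm1 z' hz') hzz
    have k4 : ‖v m z - v m z'‖ ≤ 2 * r := by
      have e1 : v m z - v m z' = (v m z - g m z) + (g m z - g m z') - (v m z' - g m z') := by ring
      rw [e1]
      have j1 := norm_sub_le ((v m z - g m z) + (g m z - g m z')) (v m z' - g m z')
      have j2 := norm_add_le (v m z - g m z) (g m z - g m z')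
      linarith
    have k5 := impd hi (hQ m) (hlipP m z (hm1 z hz) z' (hm1 z' hz'))
      ((hv2 m z).symm.le.trans (hENle m z (hm1 z hz)))
      ((hv2 m z').symm.le.trans (hENle m z' (hm1 z' hz'))) k4
    rw [le_div_iff₀ hc1]
    linarith
  -- the limit of the trackings
  set H : ℕ → ℂ → ℂ := fun m z => v m z - v m 0 with hH
  have hHstep : ∀ L : ℝ, ∀ᶠ m : ℕ in (𝓤 : Filter ℕ), ∀ z ∈ closedBall (0 : ℂ) L,
      ∀ z' ∈ closedBall (0 : ℂ) L, ‖z - z'‖ ≤ η →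
      ‖H m z - H m z'‖ ≤ (2 * (1 / (m + 1 : ℝ)) + 2 * ‖z - z'‖) / c1 := by
    intro L
    filter_upwards [hvstep L] with m hm z hz z' hz' hzz
    have := hm z hz z' hz' hzz
    simp only [hH]
    rwa [sub_sub_sub_cancel_right]
  have hHbd : ∀ z : ℂ, ∃ C : ℝ, ∀ᶠ m in (𝓤 : Filter ℕ), ‖H m z‖ ≤ C := by
    intro z
    refine ⟨(⌈‖z‖ / η⌉₊ + 1 : ℕ) * ((2 + 2 * η) / c1), ?_⟩
    filter_upwards [hHstep ‖z‖] with m hm
    have h1 := chain_gen (g := H m) (R := ‖z‖) (X' := (2 + 2 * η) / c1) (η := η)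
      (fun w hw w' hw' hww => by
        refine (hm w hw w' hw' hww).trans ?_
        apply div_le_div_of_nonneg_right _ hc1.le
        have h2 : 1 / (m + 1 : ℝ) ≤ 1 := by
          rw [div_le_one (by positivity)]
          linarith [show (0 : ℝ) ≤ m from Nat.cast_nonneg m]
        linarith) (z := z) (z' := 0) (mem_closedBall_zero_iff.2 le_rfl)
      (mem_closedBall_self (norm_nonneg _)) (m := ⌈‖z‖ / η⌉₊ + 1) (Nat.succ_pos _) (by
        rw [sub_zero]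
        have h3 := Nat.le_ceil (‖z‖ / η)
        rw [div_le_iff₀ hη] at h3
        push_cast
        nlinarith)
    have e1 : H m 0 = 0 := by simp only [hH, sub_self]
    rwa [e1, sub_zero] at h1
  choose H0 hH0 using fun z => exists_lim (hHbd z).choose_spec
  have hH00 : H0 0 = 0 := by
    refine tendsto_nhds_unique (hH0 0) ?_
    refine tendsto_const_nhds.congr fun m => ?_
    simp only [hH, sub_self]
  have hH0lip : ∀ z z' : ℂ, ‖z - z'‖ ≤ η → ‖H0 z - H0 z'‖ ≤ 2 / c1 * ‖z - z'‖ := by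
    intro z z' hzz
    have h1 : Tendsto (fun m : ℕ => (2 * (1 / (m + 1 : ℝ)) + 2 * ‖z - z'‖) / c1) 𝓤
        (𝓝 ((2 * 0 + 2 * ‖z - z'‖) / c1)) := ((hzero.const_mul 2).add_const _).div_const _
    have h2 : (2 * 0 + 2 * ‖z - z'‖) / c1 = 2 / c1 * ‖z - z'‖ := by ring
    rw [h2] at h1
    refine le_of_tendsto_of_tendsto ((hH0 z).sub (hH0 z')).norm h1 ?_
    filter_upwards [hHstep (max ‖z‖ ‖z'‖)] with m hm
    exact hm z (mem_closedBall_zero_iff.2 (le_max_left _ _)) z'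
      (mem_closedBall_zero_iff.2 (le_max_right _ _)) hzz
  have hHconv : CConv (𝓤 : Filter ℕ) univ H H0 := by
    intro z0 _
    rw [Metric.tendsto_nhds]
    intro ε hε
    have h1 : ∀ᶠ m in (𝓤 : Filter ℕ), ‖H m z0 - H0 z0‖ < ε / 2 := by
      have := ((hH0 z0).sub_const (H0 z0)).norm
      rw [sub_self, norm_zero] at this
      exact this.eventually_lt_const (by positivity)
    have h2 : ∀ᶠ m : ℕ in (𝓤 : Filter ℕ), 2 * (1 / (m + 1 : ℝ)) / c1 < ε / 4 := by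
      have := (hzero.const_mul 2).div_const c1
      rw [mul_zero, zero_div] at this
      exact this.eventually_lt_const (by positivity)
    have h3 : ∀ᶠ w in 𝓝 z0, ‖w - z0‖ ≤ η ∧ ‖w - z0‖ ≤ 1 ∧ 2 * ‖w - z0‖ / c1 < ε / 4 := by
      have k1 : Tendsto (fun w => ‖w - z0‖) (𝓝 z0) (𝓝 0) := by
        have : Continuous fun w : ℂ => ‖w - z0‖ := by fun_prop
        simpa using this.tendsto z0
      have k2 := (k1.const_mul 2).div_const c1
      rw [mul_zero, zero_div] at k2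
      filter_upwards [k1.eventually_lt_const hη, k1.eventually_lt_const one_pos,
        k2.eventually_lt_const (show 0 < ε / 4 by positivity)] with w j1 j2 j3
      exact ⟨j1.le, j2.le, j3⟩
    rw [eventually_prod_iff]
    refine ⟨_, h1.and (h2.and (hHstep (‖z0‖ + 1))), _, h3, ?_⟩
    rintro m ⟨k1, k2, k3⟩ w ⟨j1, j2, j3⟩
    rw [dist_eq_norm]
    have k4 := k3 w (by
      rw [mem_closedBall_zero_iff]
      have := norm_add_le (w - z0) z0
      rw [sub_add_cancel] at this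
      linarith) z0 (by
      rw [mem_closedBall_zero_iff]
      linarith) j1
    rw [add_div] at k4
    have e1 : H m w - H0 z0 = (H m w - H m z0) + (H m z0 - H0 z0) := by ring
    simp only
    rw [e1]
    refine (norm_add_le _ _).trans_lt ?_
    linarith
  -- the limits of the curves
  obtain ⟨χ1, hχ1, hcP⟩ := hd.lim 𝓤 _ P hP (Filter.tendsto_atTop.2 fun b => by
    filter_upwards [hyp_ge b] with m hm
    linarith)
  have hQ' : ∀ m, 𝒞 (fun w => Q m (v m 0 + w)) := fun m => h.shift _ (hQ m) _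
  obtain ⟨χ2, hχ2, hcQ⟩ := h.lim 𝓤 _ hQ'
  have hexact : ∀ z, χ1 z = χ2 (H0 z) := by
    intro z
    have h1 : Tendsto (fun m => ‖P m z - Q m (v m 0 + H m z)‖) 𝓤 (𝓝 ‖χ1 z - χ2 (H0 z)‖) :=
      ((hcP.pointwise (mem_univ z)).sub (CConv.seq hcQ (mem_univ (H0 z)) (hH0 z))).norm
    have h2 : ‖χ1 z - χ2 (H0 z)‖ ≤ 0 := by
      refine le_of_tendsto_of_tendsto h1 hzero ?_
      filter_upwards [hbig ‖z‖] with m hm
      have e1 : v m 0 + H m z = v m z := by simp only [hH]; ring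
      rw [e1, ← hv2]
      exact hENle m z (hm z (mem_closedBall_zero_iff.2 le_rfl))
    exact sub_eq_zero.1 (norm_eq_zero.1 (le_antisymm h2 (norm_nonneg _)))
  have htrs : ∀ L : ℝ, Trs η r 0 L χ1 χ2 H0 := by
    intro L
    refine ⟨fun z _ => by rw [hexact z, sub_self, norm_zero], fun z _ z' _ hzz => ?_⟩
    refine (hH0lip z z' hzz).trans ?_
    rw [div_mul_eq_mul_div, div_le_iff₀ hc1]
    nlinarith
  obtain ⟨α, β, hαβ, hαβ1⟩ := (htrs 1).affine h hi hr hc1 hη hsm hηη hule hχ1 hχ2 one_pos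
  have hβ : β = 0 := by
    have := hαβ1 0 (mem_ball_self one_pos)
    rw [hH00, mul_zero, zero_add] at this
    exact this.symm
  have hHα : ∀ z, H0 z = α * z := by
    intro z
    have hL : 0 < ‖z‖ + 1 := by positivity
    obtain ⟨α', β', -, hαβ2⟩ := (htrs (‖z‖ + 1)).affine h hi hr hc1 hη hsm hηη hule hχ1 hχ2 hL
    have h1 := hαβ2 0 (mem_ball_self hL)
    rw [hH00, mul_zero, zero_add] at h1
    have hhalf : ‖((1 / 2 : ℝ) : ℂ)‖ = 1 / 2 := by
      rw [Complex.norm_real, Real.norm_of_nonneg (by norm_num)]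
    have h2 := hαβ2 ((1 / 2 : ℝ) : ℂ) (by
      rw [mem_ball_zero_iff, hhalf]
      linarith [norm_nonneg z])
    have h3 := hαβ1 ((1 / 2 : ℝ) : ℂ) (by
      rw [mem_ball_zero_iff, hhalf]
      norm_num)
    rw [h2, hβ, ← h1, add_zero, add_zero] at h3
    have h4 : α' = α := by
      have h5 : ((1 / 2 : ℝ) : ℂ) ≠ 0 := by
        rw [← norm_pos_iff, hhalf]
        norm_num
      exact mul_right_cancel₀ h5 h3
    have h5 := hαβ2 z (by
      rw [mem_ball_zero_iff]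
      linarith)
    rw [h5, h4, ← h1, add_zero]
  obtain ⟨hα1, hα2⟩ := h.alpha hχ1 hχ2 hαβ
  have hα0 : α ≠ 0 := by
    intro h0
    rw [h0, norm_zero] at hα1
    have := h.pos
    linarith
  -- the distances
  have hepos : ∀ m, 0 < e m := by
    intro m
    have h1 := hex m 0 (mem_closedBall_self (by positivity))
    rw [mul_zero, Complex.exp_zero, norm_one, mul_one] at h1
    by_contra hcon
    have h2 : EN r (P m) (Q m) 0 (g m 0) = 0 := le_antisymm (not_lt.1 hcon) (EN_nonneg _ _)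
    rw [h2, mul_zero] at h1
    exact lt_irrefl _ h1
  have he0 : Tendsto e 𝓤 (𝓝 0) :=
    squeeze_zero (fun m => (hepos m).le) (fun m => hENle m 0 (mem_closedBall_self (by positivity)))
      hzero
  have hexz : ∀ m : ℕ, ∀ z ∈ closedBall (0 : ℂ) (m + 1 : ℝ),
      EN r (P m) (Q m) z (g m z) * ‖Complex.exp (a m * z)‖ ≤ 2 * e m := by
    intro m z hz
    have h1 := hex m z hz
    have h2 : (1 : ℝ) / 2 ≤ 1 - 1 / (m + 2 : ℝ) := by
      have : 1 / (m + 2 : ℝ) ≤ 1 / 2 := by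
        apply one_div_le_one_div_of_le (by norm_num)
        have : (0 : ℝ) ≤ m := Nat.cast_nonneg m
        linarith
      linarith
    have h3 : 0 ≤ EN r (P m) (Q m) z (g m z) * ‖Complex.exp (a m * z)‖ :=
      mul_nonneg (EN_nonneg _ _) (norm_nonneg _)
    nlinarith
  set κ : ℕ → ℂ := fun m => ((1 / e m : ℝ) : ℂ) with hκ
  have hκn : ∀ m, ‖κ m‖ = 1 / e m := fun m => by
    rw [Complex.norm_real, Real.norm_of_nonneg (one_div_nonneg.2 (hepos m).le)]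
  have hpr : RGd T 𝓤 χ1 P (fun m z => Q m (v m 0 + α * z)) (fun m z => H m z / α - z)
      (fun m z => κ m * Complex.exp (a m * z)) (max 2 (2 * ‖α‖)) 2 := by
    refine ⟨fun L => ?_, fun L => ?_, fun m => ?_,
      fun m z => h.mem _ (hQ m) _, h.hol _ hχ1, h.mem _ hχ1, h.im hχ1,
      fun z => (h.bd _ hχ1 z).trans (le_max_left _ _), fun m z => ?_, hcP, ?_, ?_,
      fun m => by fun_prop, fun L => ?_⟩
    · filter_upwards [hyp_ge L] with m hm
      exact (hd.hol _ _ (hP m)).mono (ball_subset_ball (by linarith))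
    · filter_upwards [hyp_ge L] with m hm z hz
      exact hd.mem _ _ (hP m) z (ball_subset_ball (by linarith) hz)
    · exact holP_comp (h.hol _ (hQ m)) (g := fun z => v m 0 + α * z) (by fun_prop)
        (fun _ _ => mem_univ _)
    · refine le_trans ?_ (le_max_right _ _)
      apply norm_fderiv_le_of_lip' ℝ (by positivity)
      refine Eventually.of_forall fun w => ?_
      refine (h.lip (hQ m) _ _).trans (le_of_eq ?_)
      have e1 : v m 0 + α * w - (v m 0 + α * z) = α * (w - z) := by ring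
      rw [e1, norm_mul]
      ring
    · intro z _
      have h3 : Tendsto (fun p : ℕ × ℂ => (p.1, α * p.2)) ((𝓤 : Filter ℕ) ×ˢ 𝓝 z)
          ((𝓤 : Filter ℕ) ×ˢ 𝓝 (α * z)) :=
        tendsto_fst.prodMk ((tendsto_snd (f := (𝓤 : Filter ℕ)) (g := 𝓝 z)).const_mul α)
      have h4 := (hcQ (α * z) (mem_univ _)).comp h3
      have h5 : χ1 z = χ2 (α * z) := by rw [hexact, hHα]
      rw [h5]
      exact h4
    · intro z _
      have h3 := hHconv z (mem_univ z)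
      have h4 : Tendsto (fun p : ℕ × ℂ => H p.1 p.2 / α - p.2) ((𝓤 : Filter ℕ) ×ˢ 𝓝 z)
          (𝓝 (H0 z / α - z)) := (h3.div_const α).sub tendsto_snd
      rwa [hHα, mul_div_cancel_left₀ _ hα0, sub_self] at h4
    · filter_upwards [hbig L] with m hm z hz
      have h1 := hexz m z (hm z hz)
      have e1 : v m 0 + α * (z + (H m z / α - z)) = v m z := by
        simp only [hH]
        field_simp
        ring
      rw [e1, norm_sub_rev, ← hv2, norm_mul, hκn, ← mul_assoc,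
        mul_comm (EN r (P m) (Q m) z (g m z)) (1 / e m), mul_assoc, one_div_mul_eq_div,
        div_le_iff₀ (hepos m)]
      exact h1
  have hwt0 : ∀ m, ‖κ m * Complex.exp (a m * 0)‖ = 1 / e m := fun m => by
    rw [mul_zero, Complex.exp_zero, mul_one, hκn]
  obtain ⟨t, ht, htend⟩ := final' h.sub hpr (hR _ _ _ _ _ _ _ _ hpr hχ1)
  have h1 : Tendsto (fun _ : ℕ => (1 : ℝ)) 𝓤 (𝓝 0) := by
    refine squeeze_zero' (Eventually.of_forall fun _ => zero_le_one) ?_ htend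
    have h2 : ∀ᶠ m in (𝓤 : Filter ℕ), ‖α * t m‖ < r / 2 := by
      have := (ht.const_mul α).norm
      rw [mul_zero, norm_zero] at this
      exact this.eventually_lt_const (by positivity)
    filter_upwards [hvg2, h2] with m k1 k2
    have k3 := k1 0 (mem_closedBall_self (by positivity))
    have k4 : EN r (P m) (Q m) 0 (g m 0) ≤ ‖P m 0 - Q m (v m 0 + α * t m)‖ := by
      apply EN_le
      have e1 : v m 0 + α * t m - g m 0 = (v m 0 - g m 0) + α * t m := by ring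
      rw [e1]
      refine (norm_add_le _ _).trans ?_
      linarith
    rw [hwt0, norm_sub_rev, mul_one_div, le_div_iff₀ (hepos m), one_mul]
    exact k4
  exact one_ne_zero (tendsto_nhds_unique h1 tendsto_const_nhds).symm


/-- **Contraction.** -/
theorem contr_w' (hR : Rigid T 𝒞) (h : Cls T c0 𝒞) (hi : Inj r c1 𝒞) (hr : 0 < r) (hc1 : 0 < c1)
    (hη : 0 < η) (hsm : 2 * η ≤ c1 * (r / 8)) {η0 : ℝ} (hηη : η < η0)
    (hule : ∀ H1 H2, 𝒞 H1 → 𝒞 H2 →
      ∀ (b v : ℂ) (S : Set ℂ) (g : ℂ → ℂ), IsOpen S → b ∈ closure S → Tendsto g (𝓝[S] b) (𝓝 v) →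
      (∀ z ∈ S, H1 z = H2 (g z)) → H1 b = H2 v →
      ∀ z ∈ ball b η0, ∃ w : ℂ, ‖w - v‖ ≤ r / 2 ∧ H1 z = H2 w) :
    ∃ ρ δ θ : ℝ, 0 < ρ ∧ 0 < δ ∧ 0 < θ ∧ θ < 1 ∧ CTw ρ δ θ η r 𝒞 := by
  have hd : Dcl T c0 𝒞 (fun _ φ => 𝒞 φ) :=
    { cls := h
      hol := fun R φ hφ => (h.hol φ hφ).mono (subset_univ _)
      mem := fun R φ hφ z _ => h.mem φ hφ z
      bd := fun R φ hφ z _ => h.bd φ hφ z
      shift := fun R φ hφ t R' _ => h.shift φ hφ t
      lim := fun 𝓤 R P hP _ => h.lim 𝓤 P hP }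
  obtain ⟨ρ, δ, θ, h1, h2, h3, h4, h5⟩ := contr_d' hR hd hi hr hc1 hη hsm hηη hule
  exact ⟨ρ, δ, θ, h1, h2, h3, h4, fun P Q hP hQ g z0 => h5 P Q hQ g z0 (h.shift _ hP z0)⟩

/-- **Separation** of the curves in the class, with all the constants chosen. -/
theorem sep_class' (hR : Rigid T 𝒞)
    (h : Cls T c0 𝒞) : ∃ r c1 : ℝ, 0 < r ∧ r ≤ c0 / 4 ∧ 0 < c1 ∧
    Inj r c1 𝒞 ∧ ∀ P Q : ℕ → ℂ → Mat N, (∀ m, 𝒞 (P m)) → (∀ m, 𝒞 (Q m)) → ∀ H : ℂ → Mat N,
      CConv (hyperfilter ℕ : Filter ℕ) univ P H → CConv (hyperfilter ℕ : Filter ℕ) univ Q H →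
      ∀ᶠ m in (hyperfilter ℕ : Filter ℕ), ∃ α β : ℂ, ‖β‖ ≤ r / 8 ∧
        ∀ z, P m z = Q m (α * z + β) := by
  have hc0 := h.pos
  obtain ⟨r0, c1, hr0, hc1, hinj0⟩ := h.inj
  set r : ℝ := min r0 (c0 / 4) with hrdef
  have hr : 0 < r := by positivity
  have hi : Inj r c1 𝒞 := by
    intro φ hφ z t ht
    exact hinj0 φ hφ z t (ht.trans (by linarith [min_le_left r0 (c0 / 4)]))
  obtain ⟨η0, hη0, hule⟩ := h.ule hr
  set η : ℝ := min (min (η0 / 2) 1) (min (r / 8) (min (c0 * (r / 16)) (c1 * (r / 32)))) with hηdef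
  have hη : 0 < η := by positivity
  have e1 : η ≤ η0 / 2 := (min_le_left _ _).trans (min_le_left _ _)
  have e2 : η ≤ 1 := (min_le_left _ _).trans (min_le_right _ _)
  have e3 : η ≤ r / 8 := (min_le_right _ _).trans (min_le_left _ _)
  have e4 : η ≤ c0 * (r / 16) := (min_le_right _ _).trans ((min_le_right _ _).trans
    (min_le_left _ _))
  have e5 : η ≤ c1 * (r / 32) := (min_le_right _ _).trans ((min_le_right _ _).trans
    (min_le_right _ _))
  have hηc : 2 / c0 * η ≤ r / 8 := by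
    rw [div_mul_eq_mul_div, div_le_iff₀ hc0]
    linarith
  have hηη : η < η0 := by linarith
  obtain ⟨ρ, δ, θ, hρ, hδ, hθ0, hθ, hCT⟩ := contr_w' hR h hi hr hc1 hη (by linarith) hηη hule
  refine ⟨r, c1, hr, min_le_right _ _, hc1, hi, fun P Q hP hQ H h1 h2 => ?_⟩
  exact sep_aff h hi hr hc1 hη e2 e3 hηc (by linarith) hηη hule hCT hP hQ hρ hδ hθ0 hθ h1 h2

/-- **Periods.** -/
theorem period_aff' (hR : Rigid T 𝒞)
    (h : Cls T c0 𝒞) {f : ℂ → Mat N} (hf : 𝒞 f) (ζ : ℂ) :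
    ∃ (p : ℂ) (k : ℝ), 1 ≤ k ∧ ‖p - k * ζ‖ ≤ 1 / 4 ∧ ∀ z, f (z + p) = f z := by
  have hc0 := h.pos
  obtain ⟨r, c1, hr, hrc, hc1, hi, hsp⟩ := sep_class' hR h
  have hψ : ∀ m : ℕ, 𝒞 (fun w => f (m * ζ + w)) := fun m => h.shift f hf _
  obtain ⟨χ, hχ, hlim⟩ := h.lim (hyperfilter ℕ) _ hψ
  have hQlim : CConv (hyperfilter ℕ : Filter ℕ) univ (fun _ => χ) χ := by
    intro z _
    have h1 : ContinuousAt χ z := (h.hol χ hχ).continuousAt (mem_univ z)
    exact h1.tendsto.comp tendsto_snd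
  have hsep := hsp _ _ hψ (fun _ => hχ) _ hlim hQlim
  obtain ⟨m, α, β, hβ, hm⟩ := hsep.exists
  obtain ⟨m', ⟨α', β', hβ', hm'⟩, hmm⟩ := (hsep.and (hyp_ge ((m : ℝ) + 1))).exists
  obtain ⟨hα1, -⟩ := h.alpha (hψ m) hχ hm
  have hα : α ≠ 0 := by
    intro h0
    rw [h0, norm_zero] at hα1
    linarith
  -- the symmetry
  have hsym : ∀ w, f w = f (α' / α * w + (m * ζ - α' / α * (m' * ζ) + (β' - β) / α)) := by
    intro w
    have h1 := hm' (w - m' * ζ)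
    have h2 := hm (α' / α * (w - m' * ζ) + (β' - β) / α)
    have k1 : (m' : ℂ) * ζ + (w - m' * ζ) = w := by ring
    have k2 : α * (α' / α * (w - m' * ζ) + (β' - β) / α) + β = α' * (w - m' * ζ) + β' := by
      field_simp
      ring
    have k3 : (m : ℂ) * ζ + (α' / α * (w - m' * ζ) + (β' - β) / α) =
        α' / α * w + (m * ζ - α' / α * (m' * ζ) + (β' - β) / α) := by ring
    simp only [k1] at h1
    simp only [k2, k3] at h2
    rw [h1, h2]
  have hone := affsym hi hr hc1 hf hsym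
  have hsym' : ∀ w, f w = f (w + (m * ζ - m' * ζ + (β' - β) / α)) := by
    intro w
    have h1 := hsym w
    rwa [hone, one_mul, one_mul] at h1
  refine ⟨m' * ζ - m * ζ - (β' - β) / α, (m' : ℝ) - m, by linarith, ?_, fun z => ?_⟩
  · have h1 : m' * ζ - m * ζ - (β' - β) / α - ((m' : ℝ) - m : ℝ) * ζ = -((β' - β) / α) := by
      push_cast
      ring
    rw [h1, norm_neg, norm_div, div_le_iff₀ (norm_pos_iff.2 hα)]
    have h2 := norm_sub_le β' β
    linarith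
  · rw [hsym' (z + (m' * ζ - m * ζ - (β' - β) / α))]
    congr 1
    ring

/-- **Double periodicity.** -/
theorem two_periods' (hR : Rigid T 𝒞)
    (h : Cls T c0 𝒞) {f : ℂ → Mat N} (hf : 𝒞 f) :
    ∃ p q : ℂ, LinearIndependent ℝ ![p, q] ∧ (∀ z, f (z + p) = f z) ∧ ∀ z, f (z + q) = f z := by
  obtain ⟨p, k, hk, hpk, hp⟩ := period_aff' hR h hf 1
  obtain ⟨q, l, hl, hql, hq⟩ := period_aff' hR h hf Complex.I
  exact ⟨p, q, indep_of_close hk hl hpk hql, hp, hq⟩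

/-- **Finiteness.** -/
theorem finite_class' (hR : Rigid T 𝒞)
    (h : Cls T c0 𝒞) : ∃ S : Finset (ℂ → Mat N), (∀ g ∈ S, 𝒞 g) ∧
    ∀ f, 𝒞 f → ∃ g ∈ S, ∃ α β : ℂ, ∀ z, f z = g (α * z + β) := by
  classical
  obtain ⟨r, c1, hr, hrc, hc1, hi, hsp⟩ := sep_class' hR h
  by_contra hcon
  push Not at hcon
  obtain ⟨P, hP, hPP⟩ := exists_seq_of_forall_finset_exists (P := 𝒞)
    (r := fun g f => ∀ α β : ℂ, ∃ z, f z ≠ g (α * z + β)) fun S hS => by
      obtain ⟨f, hf, hf2⟩ := hcon S hS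
      exact ⟨f, hf, hf2⟩
  obtain ⟨χ, hχ, hlim⟩ := h.lim (hyperfilter ℕ) P hP
  have hQlim : CConv (hyperfilter ℕ : Filter ℕ) univ (fun _ => χ) χ := by
    intro z _
    have h1 : ContinuousAt χ z := (h.hol χ hχ).continuousAt (mem_univ z)
    exact h1.tendsto.comp tendsto_snd
  have hsep := hsp _ _ hP (fun _ => hχ) _ hlim hQlim
  obtain ⟨m, α, β, hβ, hm⟩ := hsep.exists
  obtain ⟨m', ⟨α', β', hβ', hm'⟩, hmm⟩ := (hsep.and (hyp_ge ((m : ℝ) + 1))).exists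
  have hlt : m < m' := by
    have : (m : ℝ) < m' := by linarith
    exact_mod_cast this
  obtain ⟨hα1, -⟩ := h.alpha (hP m) hχ hm
  have hα : α ≠ 0 := by
    intro h0
    rw [h0, norm_zero] at hα1
    linarith [h.pos]
  obtain ⟨z, hz⟩ := hPP m m' hlt (α' / α) ((β' - β) / α)
  apply hz
  rw [hm' z, hm]
  congr 1
  field_simp
  ring

/-- **Curves on discs are close to entire curves.** -/
theorem disc_close' (hR : Rigid T 𝒞) (hd : Dcl T c0 𝒞 𝒟) :
    ∃ R0 κ : ℝ, 0 < R0 ∧ 0 < κ ∧ ∀ (ρ0 : ℝ) (P : ℂ → Mat N), R0 ≤ ρ0 → 𝒟 ρ0 P →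
      ∃ Q : ℂ → Mat N, 𝒞 Q ∧ ∀ z : ℂ, ‖z‖ ≤ ρ0 - R0 → ∃ w : ℂ,
        ‖P z - Q w‖ ≤ Real.exp (-κ * (ρ0 ^ 2 - ‖z‖ ^ 2)) := by
  have h : Cls T c0 𝒞 := hd.cls
  have hc0 := h.pos
  obtain ⟨r0, c1, hr0, hc1, hinj0⟩ := h.inj
  set r : ℝ := min r0 (c0 / 4) with hrdef
  have hr : 0 < r := by positivity
  have hi : Inj r c1 𝒞 := by
    intro φ hφ z t ht
    exact hinj0 φ hφ z t (ht.trans (by linarith [min_le_left r0 (c0 / 4)]))
  obtain ⟨η0, hη0, hule⟩ := h.ule hr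
  set η : ℝ := min (min (η0 / 2) 1) (min (r / 8) (min (c0 * (r / 16)) (c1 * (r / 32)))) with hηdef
  have hη : 0 < η := by positivity
  have e1 : η ≤ η0 / 2 := (min_le_left _ _).trans (min_le_left _ _)
  have e2 : η ≤ 1 := (min_le_left _ _).trans (min_le_right _ _)
  have e3 : η ≤ r / 8 := (min_le_right _ _).trans (min_le_left _ _)
  have e4 : η ≤ c0 * (r / 16) := (min_le_right _ _).trans ((min_le_right _ _).trans
    (min_le_left _ _))
  have e5 : η ≤ c1 * (r / 32) := (min_le_right _ _).trans ((min_le_right _ _).trans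
    (min_le_right _ _))
  have hηc : 2 / c0 * η ≤ r / 8 := by
    rw [div_mul_eq_mul_div, div_le_iff₀ hc0]
    linarith
  have hηη : η < η0 := by linarith
  obtain ⟨ρ, δ, θ, hρ, hδ, hθ0, hθ, hCT⟩ := contr_d' hR hd hi hr hc1 hη (by linarith) hηη hule
  obtain ⟨κ, hκ, hκθ⟩ := exists_kappa hρ hθ0 hθ
  set δ' : ℝ := min (min δ 1) (c1 * (r / 32)) with hδ'
  have hδ'0 : 0 < δ' := by positivity
  have hδ'1 : δ' ≤ δ := (min_le_left _ _).trans (min_le_left _ _)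
  have hδ'3 : δ' ≤ 1 := (min_le_left _ _).trans (min_le_right _ _)
  have hδ'2 : δ' ≤ c1 * (r / 32) := min_le_right _ _
  have hsm' : 2 * δ' + 2 * η ≤ c1 * (r / 8) := by linarith
  obtain ⟨R1, hR1, htr⟩ := exists_track hd hi hr hc1 hη e2 e3 hηc hsm' hηη hule hCT hρ hδ'0 hδ'1
    hκ hκθ hθ0.le
  refine ⟨4 * (R1 + ρ), κ / 2, by positivity, by positivity, fun ρ0 P hρ0 hP => ?_⟩
  obtain ⟨Q, g, hQ, ht⟩ := htr ρ0 P (by linarith) hP
  refine ⟨Q, hQ, fun z hz => ?_⟩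
  have hz' : z ∈ closedBall (0 : ℂ) (ρ0 - R1) := by
    rw [mem_closedBall_zero_iff]
    linarith
  obtain ⟨w, -, hw2⟩ := EN_spec (P := P) hr.le (h.cont hQ) z (g z)
  refine ⟨w, ?_⟩
  rw [← hw2]
  refine (barrierd hd hi hr hc1 hη hsm' hCT hP hQ hρ hδ'0.le hδ'1 hκ.le hκθ hθ0.le
    (by linarith) (by linarith) ht z hz').trans ?_
  refine (mul_le_of_le_one_left (Real.exp_pos _).le hδ'3).trans ?_
  apply Real.exp_le_exp.2
  have h0 := norm_nonneg z
  have h1 : ‖z‖ ^ 2 ≤ (ρ0 - 4 * (R1 + ρ)) ^ 2 := pow_le_pow_left₀ h0 hz 2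
  have h2 : 2 * (‖z‖ ^ 2 - (ρ0 - R1 - ρ) ^ 2) ≤ -(ρ0 ^ 2 - ‖z‖ ^ 2) := by
    have h3 : 0 ≤ (R1 + ρ) * (ρ0 - 4 * (R1 + ρ)) := mul_nonneg (by linarith) (by linarith)
    have h4 : 0 < (R1 + ρ) ^ 2 := by positivity
    nlinarith
  nlinarith


end Pool.Agent.Helper65.HD
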