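import Pool.Agent.Helper65.HD.Ra
import Pool.Agent.Helper65.HD.Rg

/-!
The coefficients of a deformation in the frame of the columns.
-/

set_option autoImplicit false

open Filter Topology Metric MvPolynomial Set

namespace Pool.Agent.Helper65.HD

open Pool.Agent.W602.GT Pool.Agent.N155.BB Pool.Agent.Y190.OP Pool.Agent.N155
  Pool.Agent.N155.GD Pool.Agent.Helper65.BF Pool.Agent.Helper65.GG

/-- bounds for the jets -/
theorem jets_bd {n : ℕ} {T : Set (Mat (n + 1))} {M0 : Mat (n + 1)} {i : Fin (n + 1)}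
    (hi : M0 i i ≠ 0) (r : ℕ) : ∃ O : Set (Mat (n + 1)), IsOpen O ∧ M0 ∈ O ∧
      (∀ M ∈ O, M i i ≠ 0) ∧ ∃ K : ℝ, 0 ≤ K ∧ ∀ φ, BD T φ → ∀ z, φ z ∈ O →
        ∀ j : Fin (r + 1), ‖iteratedDeriv j (cu φ i) z‖ ≤ K := by
  set x0 : Fin (n + 1) → ℂ := chart i M0 with hx0
  set B : ℝ := ‖x0‖ + 1 with hB
  have hB0 : 0 < B := by positivity
  have hev : ∀ᶠ M in 𝓝 M0, ‖chart i M‖ < B :=
    (continuousAt_chart hi).norm.eventually_lt_const (lt_add_one _)
  have hev2 : ∀ᶠ M : Mat (n + 1) in 𝓝 M0, M i i ≠ 0 :=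
    (continuous_apply_apply i i).continuousAt.eventually_ne hi
  obtain ⟨ρ, hρ, hsub⟩ := Metric.mem_nhds_iff.1 (hev.and hev2)
  have hsub' : ∀ M ∈ ball M0 ρ, ‖chart i M‖ < B ∧ M i i ≠ 0 := fun M hM => hsub hM
  set ρ' : ℝ := ρ / 4 with hρ'
  have hρ'0 : 0 < ρ' := by positivity
  set K : ℝ := ∑ j : Fin (r + 1), ((j : ℕ).factorial : ℝ) * B / (ρ' / 2) ^ (j : ℕ) with hK
  have hK0 : 0 ≤ K := Finset.sum_nonneg fun j _ => by positivity
  refine ⟨ball M0 (ρ / 2), isOpen_ball, mem_ball_self (by positivity), fun M hM =>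
    (hsub' M (ball_subset_ball (by linarith) hM)).2, K, hK0, fun φ hφ z hz j => ?_⟩
  have hnear : ∀ w ∈ ball z ρ', φ w ∈ ball M0 ρ := by
    intro w hw
    have hlip : ‖φ w - φ z‖ ≤ 2 * ‖w - z‖ :=
      (convex_univ).norm_image_sub_le_of_norm_fderiv_le
        (fun x hx => hφ.hol.differentiableAt hx) (fun x _ => hφ.bd x) (mem_univ z) (mem_univ w)
    rw [mem_ball, dist_eq_norm] at hw hz ⊢
    have e1 : φ w - M0 = (φ w - φ z) + (φ z - M0) := by abel
    rw [e1]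
    have e2 := norm_add_le (φ w - φ z) (φ z - M0)
    linarith
  have h4 := Complex.norm_iteratedDeriv_le_of_forall_mem_sphere_norm_le (f := cu φ i) (c := z)
    (R := ρ' / 2) (C := B) (j : ℕ) (by positivity) (by
      apply DifferentiableOn.diffContOnCl
      intro w hw
      have h5 := mem_closedBall.1 (closure_ball_subset_closedBall hw)
      have h6 : w ∈ ball z ρ' := by
        rw [mem_ball]
        linarith
      exact (hφ.hol.diff_chart (mem_univ w) (hsub' _ (hnear w h6)).2).differentiableWithinAt)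
    (fun w hw => by
      rw [mem_sphere] at hw
      have h6 : w ∈ ball z ρ' := by
        rw [mem_ball, hw]
        linarith
      exact (hsub' _ (hnear w h6)).1.le)
  refine h4.trans ?_
  exact Finset.single_le_sum (f := fun j : Fin (r + 1) =>
    ((j : ℕ).factorial : ℝ) * B / (ρ' / 2) ^ (j : ℕ)) (fun j _ => by positivity)
    (Finset.mem_univ j)

variable {n N m e : ℕ} {ℓ : Fin (n + 1) → Fin (N + 1) → ℂ} {T : Set (Mat (n + 1))}
  {𝓤 : Ultrafilter ℕ} {χ : ℂ → Mat (n + 1)} {P Q : ℕ → ℂ → Mat (n + 1)} {s wt : ℕ → ℂ → ℂ}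
  {B C0 : ℝ}

/-- **The limit vectors are tangent.** -/
theorem V_tan (hg : GeneralPosition ℓ) (hr : N + 1 ≤ n + 1) (hN : 0 < N)
    (hT : T ⊆ TF (fermatForms ℓ (e + N)))
    (h : RGd T 𝓤 χ P Q s wt B C0) {i : Fin (n + 1)} {z : ℂ} (hi : χ z i i ≠ 0) :
    Tg ℓ (e + (N - 1)) (cu χ i z) (Vv 𝓤 P Q s wt i z) := by
  refine exists_u (y := fun l => cu χ i z l ^ (e + (N - 1)) * Vv 𝓤 P Q s wt i z l)
    (hg.mt (Fin.castLE_injective hr)) fun c hc => ?_
  have hx : cu χ i z = chart i (χ z) := rfl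
  set x : Fin (n + 1) → ℂ := chart i (χ z) with hxdef
  set F : (Fin (n + 1) → ℂ) → ℂ := fun y => ∑ l, c l * y l ^ (e + N) with hF
  have hd : HasStrictFDerivAt F (∑ l, c l • (((e + N : ℕ) : ℂ) * x l ^ (e + N - 1)) •
      (ContinuousLinearMap.proj (R := ℂ) (φ := fun _ : Fin (n + 1) => ℂ) l)) x := by
    rw [hF]
    refine HasStrictFDerivAt.fun_sum fun l _ => ?_
    refine HasStrictFDerivAt.const_mul ?_ (c l)
    have h1 : HasStrictFDerivAt (fun y : Fin (n + 1) → ℂ => y l)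
      (ContinuousLinearMap.proj (R := ℂ) (φ := fun _ : Fin (n + 1) => ℂ) l) x :=
      (ContinuousLinearMap.proj (R := ℂ) (φ := fun _ : Fin (n + 1) => ℂ) l).hasStrictFDerivAt
    have h2 := (hasStrictDerivAt_pow (e + N) (x l)).comp_hasStrictFDerivAt x h1
    exact h2
  have hp : Tendsto (fun m => chart i (P m z)) 𝓤 (𝓝 x) :=
    (continuousAt_chart hi).tendsto.comp (h.tP z)
  have hq : Tendsto (fun m => chart i (Q m (z + s m z))) 𝓤 (𝓝 x) :=
    (continuousAt_chart hi).tendsto.comp (h.tQ z)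
  have h1 := strict_lim hd hp hq (h.Vten i hi)
  have h2 : Tendsto (fun m => wt m z • (F (chart i (Q m (z + s m z))) - F (chart i (P m z))))
      𝓤 (𝓝 0) := by
    refine tendsto_const_nhds.congr' ?_
    filter_upwards [(h.ev_diag i hi).1, h.mPt z] with m hm hmP
    have e1 := (mem_cone.1 (chart_cone form_fermat (hT hmP) hm.1)).2 c hc
    have e2 := (mem_cone.1 (chart_cone form_fermat (hT (h.mQ m _)) hm.2)).2 c hc
    have e1' : F (chart i (P m z)) = 0 := e1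
    have e2' : F (chart i (Q m (z + s m z))) = 0 := e2
    rw [e1', e2', sub_zero, smul_zero]
  have h3 := tendsto_nhds_unique h1 h2
  simp only [_root_.sum_apply, _root_.smul_apply, ContinuousLinearMap.proj_apply,
    smul_eq_mul] at h3
  have h4 : ((e + N : ℕ) : ℂ) * ∑ l, c l * (cu χ i z l ^ (e + (N - 1)) *
      Vv 𝓤 P Q s wt i z l) = 0 := by
    rw [← h3, Finset.mul_sum]
    refine Finset.sum_congr rfl fun l _ => ?_
    rw [hx]
    have e1 : e + N - 1 = e + (N - 1) := by omega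
    rw [e1]
    ring
  refine (mul_eq_zero.1 h4).resolve_left ?_
  exact_mod_cast (by omega : e + N ≠ 0)

/-- the limit vectors in another chart -/
theorem V_change (hTP : T ⊆ PM) (h : RGd T 𝓤 χ P Q s wt B C0) {i i' : Fin (n + 1)} {z : ℂ}
    (hi : χ z i i ≠ 0) (hi' : χ z i' i' ≠ 0) : ∃ μ : ℂ, Vv 𝓤 P Q s wt i' z =
      (cu χ i z i')⁻¹ • Vv 𝓤 P Q s wt i z + μ • cu χ i z := by
  have hx := chart_i'_ne (hTP (h.mχ z)) hi hi'
  obtain ⟨f', hf', hfv⟩ := tr_strict hx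
  obtain ⟨e1, -⟩ := h.change hTP hi hi' hf'
  rw [hfv, smul_add, smul_smul] at e1
  exact ⟨_, e1⟩

/-- the column of the deformation -/
noncomputable def vd (N e : ℕ) (𝓤 : Ultrafilter ℕ) (χ : ℂ → Mat (n + 1))
    (P Q : ℕ → ℂ → Mat (n + 1)) (s wt : ℕ → ℂ → ℂ) (i : Fin (n + 1)) (z : ℂ) : Fin (n + 1) → ℂ :=
  vc N e (cu χ i z) (Vv 𝓤 P Q s wt i z)

/-- the coefficients of the deformation in the frame of the columns -/
def IsRep (N e : ℕ) (𝓤 : Ultrafilter ℕ) (χ : ℂ → Mat (n + 1))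
    (P Q : ℕ → ℂ → Mat (n + 1)) (s wt : ℕ → ℂ → ℂ) (i : Fin (n + 1)) (z : ℂ)
    (ζ : Fin (N + 1) → ℂ) : Prop :=
  ∀ l, vd N e 𝓤 χ P Q s wt i z l = ∑ k, ζ k * cc N e (cu χ i) z k l

/-- the determinants of the columns are nonzero -/
def NZ (N e : ℕ) (χ : ℂ → Mat (n + 1)) : Prop :=
  ∀ z i (t : Fin (N + 1) → Fin (n + 1)), χ z i i ≠ 0 → Adm (Zs (cu χ i z)) t →
    St (cc N e (cu χ i) z) t ≠ 0

theorem cc_tg (hg : GeneralPosition ℓ) (hr : N + 1 ≤ n + 1) (hχ : HolP univ χ)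
    (hm : ∀ z, χ z ∈ TF (fermatForms ℓ (e + N))) {i : Fin (n + 1)} {z : ℂ} (hi : χ z i i ≠ 0)
    (k : Fin (N + 1)) : Tg ℓ e (cu χ i z) (cc N e (cu χ i) z k) :=
  cc_rel hg hr (cu_an hχ i hi) (ev_cone form_fermat hχ hm hi) k

theorem ex_adm (hg : GeneralPosition ℓ) (hr : N + 1 ≤ n + 1) (he : 0 < e)
    (hm : ∀ z, χ z ∈ TF (fermatForms ℓ (e + N))) {i : Fin (n + 1)} {z : ℂ} (hi : χ z i i ≠ 0) :
    ∃ t : Fin (N + 1) → Fin (n + 1), Adm (Zs (cu χ i z)) t :=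
  exists_Adm hg (by omega) hr (chart_cone form_fermat (hm z) hi)

theorem isRep_ex (hg : GeneralPosition ℓ) (hr : N + 1 ≤ n + 1) (hN : 0 < N) (he : 0 < e)
    (hT : T ⊆ TF (fermatForms ℓ (e + N))) (h : RGd T 𝓤 χ P Q s wt B C0) (hnz : NZ N e χ)
    {i : Fin (n + 1)} {z : ℂ} (hi : χ z i i ≠ 0) : ∃ ζ, IsRep N e 𝓤 χ P Q s wt i z ζ := by
  obtain ⟨t, ht⟩ := ex_adm hg hr he (fun z => hT (h.mχ z)) hi
  exact rep_ex hg (cc_tg hg hr h.hχ (fun z => hT (h.mχ z)) hi)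
    (vc_tg (V_tan hg hr hN hT h hi)) ht (hnz z i t hi ht)

/-- the top coefficient does not depend on the chart -/
theorem isRep_top (hg : GeneralPosition ℓ) (hr : N + 1 ≤ n + 1) (hN : 0 < N) (he : 0 < e)
    (hT : T ⊆ TF (fermatForms ℓ (e + N))) (h : RGd T 𝓤 χ P Q s wt B C0) (hnz : NZ N e χ)
    {i i' : Fin (n + 1)} {z : ℂ} (hi : χ z i i ≠ 0) (hi' : χ z i' i' ≠ 0)
    {ζ ζ' : Fin (N + 1) → ℂ} (hζ : IsRep N e 𝓤 χ P Q s wt i z ζ)
    (hζ' : IsRep N e 𝓤 χ P Q s wt i' z ζ') {k : Fin (N + 1)} (hk : k ≠ 0)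
    (h0 : ∀ j, k < j → ζ' j = 0) : ζ' k = ζ k := by
  have hTP : T ⊆ PM := hT.trans TF_PM
  have hPM : ∀ w, χ w ∈ PM := fun w => hTP (h.mχ w)
  obtain ⟨t, ht⟩ := ex_adm hg hr he (fun z => hT (h.mχ z)) hi
  have hx : cu χ i z i' ≠ 0 := chart_i'_ne (hPM z) hi hi'
  have han := cu_an h.hχ i hi
  have hani : AnalyticAt ℂ (fun w => cu χ i w i') z := (analyticAt_pi_iff.1 han) i'
  have hh : AnalyticAt ℂ (fun w => (cu χ i w i')⁻¹) z := hani.inv hx
  have hh0 : (cu χ i z i')⁻¹ ≠ 0 := inv_ne_zero hx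
  have h1 : cu χ i' =ᶠ[𝓝 z] fun w => (cu χ i w i')⁻¹ • cu χ i w := by
    filter_upwards [BF.ev_diag h.hχ hi, BF.ev_diag h.hχ hi'] with w hw hw'
    exact chart_tr (hPM w) hw hw'
  have h2 : cc N e (cu χ i') z = cc N e (fun w => (cu χ i w i')⁻¹ • cu χ i w) z := by
    funext k l
    unfold cc
    congr 1
    funext j
    unfold jt
    have h3 : (fun w => cu χ i' w l) =ᶠ[𝓝 z] fun w => ((cu χ i w i')⁻¹ • cu χ i w) l := by
      filter_upwards [h1] with w hw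
      rw [hw]
    exact h3.iteratedDeriv_eq j
  obtain ⟨μ, hμ⟩ := V_change hTP h hi hi'
  refine rep_top (s := cc N e (cu χ i) z) (s' := cc N e (cu χ i') z)
    (L := Lh N e (fun w => (cu χ i w i')⁻¹) z) (c := (cu χ i z i')⁻¹ ^ N)
    (μ := ((e + N : ℕ) : ℂ) * (cu χ i z i')⁻¹ ^ (N - 1) * μ)
    (pow_ne_zero _ hh0) Lh_lower Lh_diag ?_ ?_ hζ hζ' (hnz z i t hi ht) hk h0
  · intro k l
    rw [h2]
    exact cc_mul han hh hh0 k l
  · intro l
    unfold vd
    rw [h1.self_of_nhds, hμ, vc_change hN, cc_zero]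

/-- the coefficients are given by Cramer's rule -/
theorem isRep_cramer (hnz : NZ N e χ) {i : Fin (n + 1)} {z : ℂ} (hi : χ z i i ≠ 0)
    {ζ : Fin (N + 1) → ℂ} (hζ : IsRep N e 𝓤 χ P Q s wt i z ζ)
    {t : Fin (N + 1) → Fin (n + 1)} (ht : Adm (Zs (cu χ i z)) t) (k : Fin (N + 1)) :
    ζ k = St (Function.update (cc N e (cu χ i) z) k (vd N e 𝓤 χ P Q s wt i z)) t /
      St (cc N e (cu χ i) z) t :=
  cramer_eq (hnz z i t hi ht) (fun a => hζ (t a)) k

/-- **Local analytic representatives.** -/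
theorem loc_an (hg : GeneralPosition ℓ) (hr : N + 1 ≤ n + 1) (hN : 0 < N) (he : 0 < e)
    (hT : T ⊆ TF (fermatForms ℓ (e + N))) (h : RGd T 𝓤 χ P Q s wt B C0) (hnz : NZ N e χ)
    {i : Fin (n + 1)} {z0 : ℂ} (hi : χ z0 i i ≠ 0) :
    ∃ (ξ : ℂ → Fin (N + 1) → ℂ) (Nn : ℂ → Fin (n + 1) → ℂ) (β : ℂ → ℂ),
      (∀ k, AnalyticAt ℂ (fun z => ξ z k) z0) ∧ (∀ l, AnalyticAt ℂ (fun z => Nn z l) z0) ∧
      ∀ᶠ z in 𝓝 z0, χ z i i ≠ 0 ∧
        (∀ l, vc N e (cu χ i z) (Nn z) l = ∑ k, ξ z k * cc N e (cu χ i) z k l) ∧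
        IsRep N e 𝓤 χ P Q s wt i z (Function.update (ξ z) ⟨1, by omega⟩
          (ξ z ⟨1, by omega⟩ + β z)) := by
  obtain ⟨V, a, g, Nn, β, hV, h0V, hrep⟩ := h.rep hi
  obtain ⟨t, ht⟩ := ex_adm hg hr he (fun z => hT (h.mχ z)) hi
  have han := cu_an h.hχ i hi
  have hxl : ∀ l, AnalyticAt ℂ (fun z => cu χ i z l) z0 := fun l => (analyticAt_pi_iff.1 han) l
  have hNl : ∀ l, AnalyticAt ℂ (fun z => Nn z l) z0 := fun l =>
    (analyticAt_pi_iff.1 (hrep z0 h0V).2.1) l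
  set ξ : ℂ → Fin (N + 1) → ℂ := fun z k =>
    St (Function.update (cc N e (cu χ i) z) k (vc N e (cu χ i z) (Nn z))) t /
      St (cc N e (cu χ i) z) t with hξ
  refine ⟨ξ, Nn, β, fun k => ?_, hNl, ?_⟩
  · refine (St_an (fun k' l => ?_) t).div (St_an (fun k' l => cc_an han k' l) t)
      (hnz z0 i t hi ht)
    by_cases hk : k' = k
    · rw [hk]
      simp only [Function.update_self]
      exact vc_an hxl hNl l
    · simp only [Function.update_of_ne hk]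
      exact cc_an han k' l
  · have e1 : ∀ᶠ z in 𝓝 z0, Adm (Zs (cu χ i z)) t := han.continuousAt.eventually (op_adm ht)
    filter_upwards [e1, hV.mem_nhds h0V] with z hz hzV
    obtain ⟨hiz, -, -, -, -, -, hVv⟩ := hrep z hzV
    have hanz := cu_an h.hχ i hiz
    have hVv' : Vv 𝓤 P Q s wt i z = Nn z + β z • deriv (cu χ i) z := hVv
    have hsp : ∀ l, vd N e 𝓤 χ P Q s wt i z l = vc N e (cu χ i z) (Nn z) l +
        β z * cc N e (cu χ i) z ⟨1, by omega⟩ l := by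
      intro l
      unfold vd
      rw [hVv', vc_add, cc_one hN hanz]
    obtain ⟨ζ, hζ⟩ := isRep_ex hg hr hN he hT h hnz hiz
    -- the coefficients of the representative
    have hζN : ∀ l, vc N e (cu χ i z) (Nn z) l = ∑ k,
        (Function.update ζ ⟨1, by omega⟩ (ζ ⟨1, by omega⟩ - β z)) k *
          cc N e (cu χ i) z k l := by
      intro l
      have h1 := hζ l
      rw [hsp] at h1
      rw [← Finset.add_sum_erase _ _ (Finset.mem_univ (⟨1, by omega⟩ : Fin (N + 1)))] at h1 ⊢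
      rw [Function.update_self]
      have h2 : ∑ k ∈ Finset.univ.erase (⟨1, by omega⟩ : Fin (N + 1)),
          Function.update ζ ⟨1, by omega⟩ (ζ ⟨1, by omega⟩ - β z) k * cc N e (cu χ i) z k l =
          ∑ k ∈ Finset.univ.erase (⟨1, by omega⟩ : Fin (N + 1)),
            ζ k * cc N e (cu χ i) z k l := Finset.sum_congr rfl fun k hk => by
        rw [Function.update_of_ne (Finset.ne_of_mem_erase hk)]
      rw [h2]
      linear_combination h1
    have hξz : ξ z = Function.update ζ ⟨1, by omega⟩ (ζ ⟨1, by omega⟩ - β z) := by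
      funext k
      exact (cramer_eq (hnz z i t hiz hz) (fun a => hζN (t a)) k).symm
    refine ⟨hiz, fun l => ?_, ?_⟩
    · rw [hξz]
      exact hζN l
    · have h3 : Function.update (ξ z) ⟨1, by omega⟩ (ξ z ⟨1, by omega⟩ + β z) = ζ := by
        rw [hξz, Function.update_idem, Function.update_self, sub_add_cancel,
          Function.update_eq_self]
      rw [h3]
      exact hζ

end Pool.Agent.Helper65.HD
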