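import Pool.Agent.Helper65.HD.Da
import Pool.Agent.Helper65.HD.Rb

/-!
Curves over linear subspaces of projective space: the auxiliary functions are bounded.
-/

set_option autoImplicit false

open Filter Topology Metric MvPolynomial Set

namespace Pool.Agent.Helper65.HD

open Pool.Agent.W602.GT Pool.Agent.N155.BB Pool.Agent.Y190.OP Pool.Agent.N155
  Pool.Agent.N155.GD Pool.Agent.Helper65.BF Pool.Agent.Helper65.GG

variable {n k e' f M δ : ℕ} {κ : Fin (n + 1) → Fin (k + 1) → ℂ}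
  {t0 : Fin (k + 1) → Fin (n + 1)} {φ : ℂ → Mat (n + 1)} {p : Fin (n + 1) → ℕ}

/-- the auxiliary functions -/
noncomputable def Ha (k e' M δ : ℕ) (p : Fin (n + 1) → ℕ) (φ : ℂ → Mat (n + 1))
    (t0 : Fin (k + 1) → Fin (n + 1)) (a i : Fin (n + 1)) (z : ℂ) : ℂ :=
  cu φ i z a ^ δ * Dk k e' φ t0 i z ^ M / ∏ l, cu φ i z l ^ (e' * p l)

theorem Ha_chart (hφ : HolP univ φ) (hδ : δ + M * ((k + 1) * (e' + k)) = e' * ∑ l, p l)
    (a : Fin (n + 1)) {i i' : Fin (n + 1)} {z : ℂ} (hi : φ z i i ≠ 0) (hi' : φ z i' i' ≠ 0) :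
    Ha k e' M δ p φ t0 a i' z = Ha k e' M δ p φ t0 a i z := by
  have hPM : ∀ w, φ w ∈ PM := fun w => hφ.mem_PM (mem_univ w)
  have hx : cu φ i z i' ≠ 0 := chart_i'_ne (hPM z) hi hi'
  have hh0 : (cu φ i z i')⁻¹ ≠ 0 := inv_ne_zero hx
  have h1 : cu φ i' z = (cu φ i z i')⁻¹ • cu φ i z := chart_tr (hPM z) hi hi'
  unfold Ha
  rw [Dk_chart hφ t0 hi hi', h1]
  set c : ℂ := (cu φ i z i')⁻¹ with hc
  simp only [Pi.smul_apply, smul_eq_mul, mul_pow]
  rw [Finset.prod_mul_distrib, Finset.prod_pow_eq_pow_sum, ← Finset.mul_sum, ← hδ, pow_add,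
    ← pow_mul, mul_comm ((k + 1) * (e' + k)) M]
  have h2 : c ^ δ * c ^ (M * ((k + 1) * (e' + k))) ≠ 0 :=
    mul_ne_zero (pow_ne_zero _ hh0) (pow_ne_zero _ hh0)
  rw [show c ^ δ * cu φ i z a ^ δ * (c ^ (M * ((k + 1) * (e' + k))) * Dk k e' φ t0 i z ^ M) =
    (c ^ δ * c ^ (M * ((k + 1) * (e' + k)))) * (cu φ i z a ^ δ * Dk k e' φ t0 i z ^ M) by ring,
    mul_div_mul_left _ _ h2]

/-- there are at most `k + f` zeros -/
theorem zeros_card (hS : Sep (k + f) κ) {d : ℕ} (hd : 0 < d) (h0 : Mt κ t0 ≠ 0)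
    {x : Fin (n + 1) → ℂ} (hx : x ∈ Cone (fermatForms κ d)) {Z : Finset (Fin (n + 1))}
    (hZ : ∀ l ∈ Z, x l = 0) : Z.card ≤ k + f := by
  by_contra hcon
  push Not at hcon
  obtain ⟨Z', hZ', hcard⟩ := Finset.exists_subset_card_eq (show k + f + 1 ≤ Z.card from hcon)
  obtain ⟨u, hu⟩ := exists_u h0 (mem_cone.1 hx).2
  have h1 := hS (Z'.orderEmbOfFin hcard) (Z'.orderEmbOfFin hcard).injective u (fun i => by
    rw [← hu, hZ _ (hZ' (Z'.orderEmbOfFin_mem hcard i)), zero_pow hd.ne'])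
  apply hx.1
  funext l
  have h2 := hu l
  rw [h1] at h2
  simp only [Pi.zero_apply, mul_zero, Finset.sum_const_zero] at h2
  exact (pow_eq_zero_iff hd.ne').1 h2

theorem full_univ (hS : Sep (k + f) κ) (hn : k + f ≤ n) : rkv κ Finset.univ = k + 1 :=
  rkv_full hS (by rw [Finset.card_univ, Fintype.card_fin]; omega)

theorem prod_emb {T : Finset (Fin (n + 1))} (hc : T.card = k + 1) (F : Fin (n + 1) → ℝ) :
    ∏ j, F (T.orderEmbOfFin hc j) = ∏ l ∈ T, F l := by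
  classical
  rw [← Finset.prod_image (s := Finset.univ) (f := F) (g := T.orderEmbOfFin hc)
    fun a _ b _ hab => (T.orderEmbOfFin hc).injective hab]
  congr 1
  ext l
  simp only [Finset.mem_image, Finset.mem_univ, true_and]
  constructor
  · rintro ⟨j, rfl⟩
    exact T.orderEmbOfFin_mem hc j
  · intro hl
    have h1 : l ∈ Set.range (T.orderEmbOfFin hc) := by
      rw [Finset.range_orderEmbOfFin]
      exact_mod_cast hl
    exact h1

/-- **The local bound.** -/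
theorem bd_loc (hS : Sep (k + f) κ) (hn : k + f ≤ n) (he : 0 < e')
    (hφ : BD (TF (fermatForms κ (e' + k))) φ) (h0 : Mt κ t0 ≠ 0)
    (hp : ∀ S : Finset (Fin (n + 1)), S.card ≤ k + f + 1 → ∑ l ∈ S, p l ≤ M * rkv κ S)
    (a : Fin (n + 1)) {M0 : Mat (n + 1)} (hM0 : M0 ∈ TF (fermatForms κ (e' + k))) :
    ∃ (O : Set (Mat (n + 1))) (i : Fin (n + 1)) (C : ℝ), IsOpen O ∧ M0 ∈ O ∧
      ∀ z, φ z ∈ O → (∀ l, p l ≠ 0 → φ z l l ≠ 0) → φ z i i ≠ 0 ∧
        ‖Ha k e' M δ p φ t0 a i z‖ ≤ C := by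
  classical
  obtain ⟨i, hi⟩ := PM.exists_diag (TF_PM hM0)
  have hx0 := chart_cone form_fermat hM0 hi
  set x0 : Fin (n + 1) → ℂ := chart i M0 with hx0d
  obtain ⟨O1, hO1, hMO1, hO1i, K2, hK2, hjet⟩ :=
    jets_bd (T := TF (fermatForms κ (e' + k))) hi k
  -- bounds for the determinants
  have hCt : ∀ t : Fin (k + 1) → Fin (n + 1), ∃ C : ℝ, 0 ≤ C ∧
      ∀ b : Fin (k + 1) → Fin (n + 1) → ℂ, ‖b‖ ≤ K2 → ‖St (cj e' b) t‖ ≤ C := by
    intro t
    have hc : Continuous fun b : Fin (k + 1) → Fin (n + 1) → ℂ => St (cj e' b) t := by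
      refine St_cont (fun k' l => ?_) t
      unfold cj
      refine (Ev_cont k (e' + k) k').comp (continuous_pi fun j => ?_)
      by_cases hj : j < k + 1
      · simp only [dif_pos hj]
        exact continuous_apply_apply _ l
      · simp only [dif_neg hj]
        exact continuous_const
    obtain ⟨C, hC⟩ := (isCompact_closedBall (0 : Fin (k + 1) → Fin (n + 1) → ℂ)
      K2).exists_bound_of_continuousOn hc.continuousOn
    exact ⟨max C 0, le_max_right _ _, fun b hb =>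
      (hC b (mem_closedBall_zero_iff.2 hb)).trans (le_max_left _ _)⟩
  choose Ct hCt0 hCt using hCt
  set C1 : ℝ := ∑ t, Ct t * (‖Mt κ t0‖ / ‖Mt κ t‖) with hC1
  have hC1t : ∀ t, Ct t * (‖Mt κ t0‖ / ‖Mt κ t‖) ≤ C1 := fun t =>
    Finset.single_le_sum (f := fun t => Ct t * (‖Mt κ t0‖ / ‖Mt κ t‖))
      (fun t _ => mul_nonneg (hCt0 t) (by positivity)) (Finset.mem_univ t)
  have hC10 : 0 ≤ C1 := Finset.sum_nonneg fun t _ => mul_nonneg (hCt0 t) (by positivity)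
  set K : ℝ := ‖x0‖ + 1 with hK
  have hK1 : 1 ≤ K := by
    have := norm_nonneg x0
    linarith
  have hKpos : 0 < K := by linarith
  set Z0 : Finset (Fin (n + 1)) := Finset.univ.filter fun l => x0 l = 0 with hZ0
  have hZ0c : Z0.card ≤ k + f := zeros_card hS (by omega) h0 hx0 (Z := Z0)
    fun l hl => (Finset.mem_filter.1 hl).2
  set S : Finset (Fin (n + 1)) := Z0.filter fun l => p l ≠ 0 with hSd
  -- the lower bound
  set η0 : ℝ := ∏ l ∈ Z0ᶜ, ‖x0 l‖ ^ (e' * p l) with hη0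
  have hη0p : 0 < η0 := Finset.prod_pos fun l hl => by
    rw [Finset.mem_compl, hZ0, Finset.mem_filter] at hl
    have : x0 l ≠ 0 := fun h => hl ⟨Finset.mem_univ l, h⟩
    have := norm_pos_iff.2 this
    positivity
  have hcη : Continuous fun y : Fin (n + 1) → ℂ => ∏ l ∈ Z0ᶜ, ‖y l‖ ^ (e' * p l) := by
    fun_prop
  have hev1 : ∀ᶠ y : Fin (n + 1) → ℂ in 𝓝 x0, η0 / 2 < ∏ l ∈ Z0ᶜ, ‖y l‖ ^ (e' * p l) :=
    hcη.continuousAt.eventually_const_lt (half_lt_self hη0p)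
  have hev2 : ∀ᶠ y : Fin (n + 1) → ℂ in 𝓝 x0, ‖y‖ < K :=
    continuous_norm.continuousAt.eventually_lt_const (lt_add_one _)
  have hch := continuousAt_chart hi
  obtain ⟨O3, hO3s, hO3, hMO3⟩ := _root_.mem_nhds_iff.1
    ((hch.eventually hev1).and (hch.eventually hev2))
  refine ⟨O1 ∩ O3, i, K ^ δ * (C1 * K ^ (e' * (k + 1))) ^ M / (η0 / 2), hO1.inter hO3,
    ⟨hMO1, hMO3⟩, fun z hz hzA => ?_⟩
  have hiz := hO1i _ hz.1
  refine ⟨hiz, ?_⟩
  obtain ⟨hlow, hup⟩ := hO3s hz.2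
  have hPM : φ z ∈ PM := TF_PM (hφ.mem z)
  have han := cu_an hφ.hol i hiz
  set γ : Fin (n + 1) → ℂ := cu φ i z with hγ
  have hγK : ∀ l, ‖γ l‖ ≤ K := fun l => (norm_le_pi_norm γ l).trans hup.le
  have hγne : ∀ l, p l ≠ 0 → γ l ≠ 0 := fun l hl => chart_diag_ne hPM hiz (hzA l hl)
  set b : Fin (n + 1) → ℝ := fun l => ‖γ l‖ / K with hb
  have hb0 : ∀ l, 0 ≤ b l := fun l => by positivity
  have hb1 : ∀ l, b l ≤ 1 := fun l => (div_le_one hKpos).2 (hγK l)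
  obtain ⟨T, hTS, hTi, hTc, hTp⟩ := prod_ineq (rk := rkv κ) (M := M) (p := p)
    (Ind := fun T => LinearIndepOn ℂ κ (T : Set (Fin (n + 1)))) (by simp) rk_step rkv_empty S
    (fun S' hS' => hp S' (by
      have h1 := Finset.card_le_card hS'
      have h2 : S.card ≤ Z0.card := Finset.card_le_card (Finset.filter_subset _ _)
      omega)) b (fun l hl => ⟨div_pos (norm_pos_iff.2 (hγne l (Finset.mem_filter.1 hl).2)) hKpos,
        hb1 l⟩)
  obtain ⟨T', hTT', -, hT'i, hT'c⟩ := exists_basis_ext (κ := κ) (Finset.subset_univ T) hTi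
  rw [full_univ hS hn] at hT'c
  set t : Fin (k + 1) → Fin (n + 1) := fun j => T'.orderEmbOfFin hT'c j with ht
  have hMt : Mt κ t ≠ 0 := basis_fun hT'i hT'c
  -- the Wronskian
  have hDt : ‖Dk k e' φ t i z‖ ≤ (∏ l ∈ T', ‖γ l‖ ^ e') * Ct t := by
    unfold Dk
    rw [norm_mul]
    have h1 : ‖∏ j, cu φ i z (t j) ^ e'‖ = ∏ l ∈ T', ‖γ l‖ ^ e' := by
      rw [norm_prod, ← prod_emb hT'c fun l => ‖γ l‖ ^ e']
      exact Finset.prod_congr rfl fun j _ => by rw [norm_pow]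
    rw [h1]
    refine mul_le_mul_of_nonneg_left ?_ (Finset.prod_nonneg fun l _ => by positivity)
    rw [← cj_jet han]
    refine hCt t _ ?_
    rw [pi_norm_le_iff_of_nonneg hK2]
    intro j
    exact hjet φ hφ z hz.1 j
  have hT'prod : ∏ l ∈ T', ‖γ l‖ ^ e' ≤ K ^ (e' * (k + 1)) * ∏ l ∈ T, b l ^ e' := by
    have h1 : ∏ l ∈ T', ‖γ l‖ ^ e' = K ^ (e' * (k + 1)) * ∏ l ∈ T', b l ^ e' := by
      have h2 : ∀ l ∈ T', ‖γ l‖ ^ e' = K ^ e' * b l ^ e' := fun l _ => by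
        rw [← mul_pow, hb]
        simp only
        rw [mul_div_cancel₀ _ hKpos.ne']
      rw [Finset.prod_congr rfl h2, Finset.prod_mul_distrib, Finset.prod_const, hT'c, ← pow_mul]
    rw [h1]
    refine mul_le_mul_of_nonneg_left ?_ (by positivity)
    rw [← Finset.prod_sdiff hTT']
    have h3 : ∏ l ∈ T' \ T, b l ^ e' ≤ 1 :=
      Finset.prod_le_one (fun l _ => pow_nonneg (hb0 l) _) fun l _ => pow_le_one₀ (hb0 l) (hb1 l)
    exact mul_le_of_le_one_left (Finset.prod_nonneg fun l _ => pow_nonneg (hb0 l) _) h3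
  have hD : ‖Dk k e' φ t0 i z‖ ≤ (C1 * K ^ (e' * (k + 1))) * ∏ l ∈ T, b l ^ e' := by
    have h1 := congrArg norm (Dk_rows hφ h0 t hiz)
    rw [norm_mul, norm_mul] at h1
    have hM1 := norm_pos_iff.2 hMt
    have h2 : ‖Dk k e' φ t0 i z‖ = ‖Dk k e' φ t i z‖ * (‖Mt κ t0‖ / ‖Mt κ t‖) := by
      field_simp
      linarith
    rw [h2]
    have h3 : ‖Dk k e' φ t i z‖ ≤ (K ^ (e' * (k + 1)) * ∏ l ∈ T, b l ^ e') * Ct t :=
      hDt.trans (mul_le_mul_of_nonneg_right hT'prod (hCt0 t))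
    have h4 : 0 ≤ ∏ l ∈ T, b l ^ e' := Finset.prod_nonneg fun l _ => pow_nonneg (hb0 l) _
    calc ‖Dk k e' φ t i z‖ * (‖Mt κ t0‖ / ‖Mt κ t‖) ≤
          ((K ^ (e' * (k + 1)) * ∏ l ∈ T, b l ^ e') * Ct t) * (‖Mt κ t0‖ / ‖Mt κ t‖) :=
          mul_le_mul_of_nonneg_right h3 (by positivity)
      _ = (K ^ (e' * (k + 1)) * ∏ l ∈ T, b l ^ e') * (Ct t * (‖Mt κ t0‖ / ‖Mt κ t‖)) := by ring
      _ ≤ (K ^ (e' * (k + 1)) * ∏ l ∈ T, b l ^ e') * C1 :=
          mul_le_mul_of_nonneg_left (hC1t t) (by positivity)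
      _ = _ := by ring
  set P1 : ℝ := ∏ l ∈ S, ‖γ l‖ ^ (e' * p l) with hP1
  have hP1pos : 0 < P1 := Finset.prod_pos fun l hl => by
    have := norm_pos_iff.2 (hγne l (Finset.mem_filter.1 hl).2)
    positivity
  have hDM : ‖Dk k e' φ t0 i z‖ ^ M ≤ (C1 * K ^ (e' * (k + 1))) ^ M * P1 := by
    have h1 := pow_le_pow_left₀ (norm_nonneg _) hD M
    refine h1.trans ?_
    rw [mul_pow]
    refine mul_le_mul_of_nonneg_left ?_ (by positivity)
    have h2 : (∏ l ∈ T, b l ^ e') ^ M = (∏ l ∈ T, b l ^ M) ^ e' := by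
      rw [← Finset.prod_pow, ← Finset.prod_pow]
      exact Finset.prod_congr rfl fun l _ => by rw [← pow_mul, ← pow_mul, mul_comm]
    rw [h2]
    have h3 : ∏ l ∈ S, b l ^ p l ≤ ∏ l ∈ S, ‖γ l‖ ^ p l := by
      refine Finset.prod_le_prod (fun l _ => pow_nonneg (hb0 l) _) fun l _ => ?_
      refine pow_le_pow_left₀ (hb0 l) ?_ _
      exact div_le_self (norm_nonneg _) hK1
    have h4 : P1 = (∏ l ∈ S, ‖γ l‖ ^ p l) ^ e' := by
      rw [hP1, ← Finset.prod_pow]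
      exact Finset.prod_congr rfl fun l _ => by rw [← pow_mul, mul_comm]
    rw [h4]
    exact pow_le_pow_left₀ (Finset.prod_nonneg fun l _ => pow_nonneg (hb0 l) _)
      (hTp.trans h3) _
  -- the denominator
  have hden : ‖∏ l, γ l ^ (e' * p l)‖ = P1 * ∏ l ∈ Z0ᶜ, ‖γ l‖ ^ (e' * p l) := by
    rw [norm_prod]
    simp only [norm_pow]
    have h2 : P1 = ∏ l ∈ Z0, ‖γ l‖ ^ (e' * p l) := by
      rw [hP1, hSd, Finset.prod_filter]
      refine Finset.prod_congr rfl fun l _ => ?_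
      by_cases h1 : p l = 0
      · rw [if_neg (not_not.2 h1), h1, mul_zero, pow_zero]
      · rw [if_pos h1]
    rw [h2]
    exact (Finset.prod_mul_prod_compl Z0 fun l => ‖γ l‖ ^ (e' * p l)).symm
  have hlow' : η0 / 2 < ∏ l ∈ Z0ᶜ, ‖γ l‖ ^ (e' * p l) := hlow
  unfold Ha
  rw [norm_div, hden, norm_mul, norm_pow, norm_pow]
  rw [div_le_div_iff₀ (mul_pos hP1pos (by linarith [half_pos hη0p])) (half_pos hη0p)]
  have h1 : ‖cu φ i z a‖ ^ δ ≤ K ^ δ := pow_le_pow_left₀ (norm_nonneg _) (hγK a) _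
  have h2 : ‖cu φ i z a‖ ^ δ * ‖Dk k e' φ t0 i z‖ ^ M ≤
      K ^ δ * ((C1 * K ^ (e' * (k + 1))) ^ M * P1) :=
    mul_le_mul h1 hDM (by positivity) (by positivity)
  calc ‖cu φ i z a‖ ^ δ * ‖Dk k e' φ t0 i z‖ ^ M * (η0 / 2) ≤
        K ^ δ * ((C1 * K ^ (e' * (k + 1))) ^ M * P1) * (∏ l ∈ Z0ᶜ, ‖γ l‖ ^ (e' * p l)) :=
        mul_le_mul h2 hlow'.le (by positivity) (by positivity)
    _ = _ := by ring

/-- the coordinates have isolated zeros -/
theorem coord_ne (hS : Sep (k + f) κ) (hn : k + f ≤ n) (he : 0 < e')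
    (hφ : BD (TF (fermatForms κ (e' + k))) φ) (h0 : Mt κ t0 ≠ 0)
    (hD : ∀ z i, φ z i i ≠ 0 → ¬ ∀ᶠ w in 𝓝 z, Dk k e' φ t0 i w = 0) {l : Fin (n + 1)}
    (hl : κ l ≠ 0) (z : ℂ) : ∀ᶠ w in 𝓝[≠] z, φ w l l ≠ 0 := by
  classical
  obtain ⟨i, hi⟩ := PM.exists_diag (TF_PM (hφ.mem z))
  have han := cu_an hφ.hol i hi
  have hla : AnalyticAt ℂ (fun w => cu φ i w l) z := (analyticAt_pi_iff.1 han) l
  rcases hla.eventually_eq_zero_or_eventually_ne_zero with h1 | h1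
  · exfalso
    apply hD z i hi
    have hi1 : LinearIndepOn ℂ κ (({l} : Finset (Fin (n + 1))) : Set (Fin (n + 1))) := by
      rw [Finset.coe_singleton]
      exact (linearIndepOn_singleton_iff ℂ).2 hl
    obtain ⟨T, hlT, -, hTi, hTc⟩ := exists_basis_ext (κ := κ) (Finset.subset_univ {l}) hi1
    rw [full_univ hS hn] at hTc
    set t : Fin (k + 1) → Fin (n + 1) := fun j => T.orderEmbOfFin hTc j with ht
    have hMt : Mt κ t ≠ 0 := basis_fun hTi hTc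
    have hmem : l ∈ T := hlT (Finset.mem_singleton_self l)
    obtain ⟨j, hj⟩ : l ∈ Set.range (T.orderEmbOfFin hTc) := by
      rw [Finset.range_orderEmbOfFin]
      exact_mod_cast hmem
    filter_upwards [h1, BF.ev_diag hφ.hol hi] with w hw hwi
    have h2 := Dk_rows hφ h0 t hwi
    have h3 : Dk k e' φ t i w = 0 := by
      unfold Dk
      have h4 : ∏ j, cu φ i w (t j) ^ e' = 0 := by
        refine Finset.prod_eq_zero (Finset.mem_univ j) ?_
        have h5 : t j = l := hj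
        rw [h5, hw, zero_pow he.ne']
      rw [h4, zero_mul]
    rw [h3, zero_mul] at h2
    exact (mul_eq_zero.1 h2.symm).resolve_right hMt
  · filter_upwards [h1, (BF.ev_diag hφ.hol hi).filter_mono nhdsWithin_le_nhds] with w hw hwi
    exact chart_ne_diag (TF_PM (hφ.mem w)) hwi hw

end Pool.Agent.Helper65.HD
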