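import Pool.Agent.Helper65.HD.Db
import Pool.Agent.Helper65.HD.Rd

/-!
Degenerate curves of bounded derivative are constant if the degree is at most `2 N`.
-/

set_option autoImplicit false

open Filter Topology Metric MvPolynomial Set

namespace Pool.Agent.Helper65.HD

open Pool.Agent.W602.GT Pool.Agent.N155.BB Pool.Agent.Y190.OP Pool.Agent.N155
  Pool.Agent.N155.GD Pool.Agent.Helper65.BF Pool.Agent.Helper65.GG

variable {n k e' f M δ : ℕ} {κ : Fin (n + 1) → Fin (k + 1) → ℂ}
  {t0 : Fin (k + 1) → Fin (n + 1)} {φ : ℂ → Mat (n + 1)} {p : Fin (n + 1) → ℕ}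

/-- curves with constant ratios of the coordinates are constant -/
theorem const_of_ratio (hφ : HolP univ φ) {z1 : ℂ} {i : Fin (n + 1)} (hi : φ z1 i i ≠ 0)
    (h : ∀ a, ∀ᶠ w in 𝓝 z1, deriv (fun w => cu φ i w a) w = 0) (z : ℂ) :
    fderiv ℝ φ z = 0 := by
  have hPM : ∀ w, φ w ∈ PM := fun w => hφ.mem_PM (mem_univ w)
  have hconst : ∀ a, ∀ᶠ w in 𝓝 z1, cu φ i w a = cu φ i z1 a := by
    intro a
    have hda : ∀ᶠ w in 𝓝 z1, DifferentiableAt ℂ (fun w => cu φ i w a) w := by
      filter_upwards [BF.ev_diag hφ hi] with w hw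
      exact ((analyticAt_pi_iff.1 (cu_an hφ i hw)) a).differentiableAt
    obtain ⟨ρ, hρ, hsub⟩ := Metric.mem_nhds_iff.1 ((h a).and hda)
    filter_upwards [ball_mem_nhds z1 hρ] with w hw
    refine (convex_ball z1 ρ).is_const_of_fderivWithin_eq_zero (𝕜 := ℂ)
      (f := fun w => cu φ i w a) ?_ ?_ hw (mem_ball_self hρ)
    · intro v hv
      exact (hsub hv).2.differentiableWithinAt
    · intro v hv
      rw [fderivWithin_of_isOpen isOpen_ball hv]
      have h2 := (hsub hv).2.hasDerivAt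
      have h2' : deriv (fun w => cu φ i w a) v = 0 := (hsub hv).1
      rw [h2'] at h2
      rw [h2.hasFDerivAt.fderiv]
      ext
      simp
  have hglob : ∀ a w j, φ w j j ≠ 0 → cu φ j w a = cu φ i z1 a * cu φ j w i := by
    intro a w j hj
    set G : MvPolynomial (Fin (n + 1)) ℂ := X a - C (cu φ i z1 a) * X i with hG
    have hGh : G.IsHomogeneous 1 := by
      have h1 := (isHomogeneous_C (Fin (n + 1)) (cu φ i z1 a)).mul (isHomogeneous_X ℂ i)
      rw [zero_add] at h1
      exact (isHomogeneous_X ℂ a).sub h1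
    have hGe : ∀ x, eval x G = x a - cu φ i z1 a * x i := by
      intro x
      rw [hG]
      simp
    have h2 := form_zero hφ hGh hi (by
      filter_upwards [hconst a, BF.ev_diag hφ hi] with v hv hvi
      have h3 : cu φ i v i = 1 := PM.chart_self hvi
      rw [hGe, h3, hv, mul_one, sub_self]) hj
    rw [hGe] at h2
    linear_combination h2
  obtain ⟨j, hj⟩ := PM.exists_diag (hPM z)
  refine fderiv_zero_of_chart hφ hj ?_
  have hcj : cu φ i z1 j ≠ 0 := by
    intro h0
    have h1 := hglob j z j hj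
    have h2 : cu φ j z j = 1 := PM.chart_self hj
    rw [h2, h0, zero_mul] at h1
    exact one_ne_zero h1
  have h1 : cu φ j =ᶠ[𝓝 z] fun _ => (cu φ i z1 j)⁻¹ • cu φ i z1 := by
    filter_upwards [BF.ev_diag hφ hj] with w hw
    have h2 : cu φ j w j = 1 := PM.chart_self hw
    have h3 := hglob j w j hw
    rw [h2] at h3
    funext a
    rw [hglob a w j hw, Pi.smul_apply, smul_eq_mul]
    have h4 : cu φ j w i = (cu φ i z1 j)⁻¹ := by
      rw [eq_comm, inv_eq_of_mul_eq_one_right h3.symm]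
    rw [h4, mul_comm]
  rw [h1.deriv_eq, deriv_const]

/-- **Curves with nonzero Wronskian are constant.** -/
theorem nondeg_const (hS : Sep (k + f) κ) (hn : k + f ≤ n) (he : 0 < e')
    (hφ : BD (TF (fermatForms κ (e' + k))) φ) (h0 : Mt κ t0 ≠ 0)
    (hp : ∀ S : Finset (Fin (n + 1)), S.card ≤ k + f + 1 → ∑ l ∈ S, p l ≤ M * rkv κ S)
    (hδ : δ + M * ((k + 1) * (e' + k)) = e' * ∑ l, p l) (hδ0 : 0 < δ)
    (hD : ∀ z i, φ z i i ≠ 0 → ¬ ∀ᶠ w in 𝓝 z, Dk k e' φ t0 i w = 0) (z : ℂ) :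
    fderiv ℝ φ z = 0 := by
  classical
  have hPM : ∀ w, φ w ∈ PM := fun w => hφ.hol.mem_PM (mem_univ w)
  have hcont : Continuous φ := continuous_iff_continuousAt.2 fun w =>
    hφ.hol.continuousAt (mem_univ w)
  set A : Set ℂ := {z | ∀ l, p l ≠ 0 → φ z l l ≠ 0} with hA
  have hAo : IsOpen A := by
    have h1 : A = ⋂ l, {z | p l ≠ 0 → φ z l l ≠ 0} := by
      ext z
      simp [hA]
    rw [h1]
    refine isOpen_iInter_of_finite fun l => ?_
    by_cases hl : p l = 0
    · have h2 : {z | p l ≠ 0 → φ z l l ≠ 0} = univ := by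
        ext z
        simp [hl]
      rw [h2]
      exact isOpen_univ
    · have h2 : {z | p l ≠ 0 → φ z l l ≠ 0} = {z | φ z l l ≠ 0} := by
        ext z
        simp [hl]
      rw [h2]
      exact isOpen_ne_fun ((continuous_apply_apply l l).comp hcont) continuous_const
  have hpκ : ∀ l, p l ≠ 0 → κ l ≠ 0 := by
    intro l hl hκ
    apply hl
    have h1 := hp {l} (by simp)
    have h2 : rkv κ {l} = 0 := by
      unfold rkv
      rw [Finset.coe_singleton, Set.image_singleton, hκ]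
      simp
    rw [h2, mul_zero, Finset.sum_singleton] at h1
    omega
  have hAd : ∀ z, ∀ᶠ w in 𝓝[≠] z, w ∈ A := by
    intro z
    have h1 : ∀ᶠ w in 𝓝[≠] z, ∀ l, p l ≠ 0 → φ w l l ≠ 0 := by
      rw [eventually_all]
      intro l
      by_cases hl : p l = 0
      · exact Eventually.of_forall fun w h => absurd hl h
      · exact (coord_ne hS hn he hφ h0 hD (hpκ l hl) z).mono fun w hw _ => hw
    exact h1
  choose idx hidx using fun z => PM.exists_diag (hPM z)
  set h : Fin (n + 1) → ℂ → ℂ := fun a z => Ha k e' M δ p φ t0 a (idx z) z with hh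
  have hhi : ∀ a z i, φ z i i ≠ 0 → h a z = Ha k e' M δ p φ t0 a i z := fun a z i hi =>
    Ha_chart hφ.hol hδ a hi (hidx z)
  have hden : ∀ z ∈ A, ∀ i, φ z i i ≠ 0 → ∏ l, cu φ i z l ^ (e' * p l) ≠ 0 := by
    intro z hz i hi
    refine Finset.prod_ne_zero_iff.2 fun l _ => ?_
    by_cases hl : p l = 0
    · rw [hl, mul_zero, pow_zero]
      exact one_ne_zero
    · exact pow_ne_zero _ (chart_diag_ne (hPM z) hi (hz l hl))
  have hdiff : ∀ a, DifferentiableOn ℂ (h a) A := by
    intro a z hz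
    apply DifferentiableAt.differentiableWithinAt
    have han := cu_an hφ.hol (idx z) (hidx z)
    have hl : ∀ l, AnalyticAt ℂ (fun w => cu φ (idx z) w l) z := fun l =>
      (analyticAt_pi_iff.1 han) l
    have h1 : AnalyticAt ℂ (Ha k e' M δ p φ t0 a (idx z)) z := by
      unfold Ha
      refine AnalyticAt.fun_div (((hl a).fun_pow δ).fun_mul
        ((Dk_an hφ.hol t0 (hidx z)).fun_pow M)) ?_ (hden z hz _ (hidx z))
      exact Finset.analyticAt_fun_prod _ fun l _ => (hl l).fun_pow _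
    refine (h1.congr ?_).differentiableAt
    filter_upwards [BF.ev_diag hφ.hol (hidx z)] with w hw
    exact (hhi a w _ hw).symm
  have hbdd : ∀ a, ∃ C : ℝ, ∀ z ∈ A, ‖h a z‖ ≤ C := by
    intro a
    have h1 : ∃ C : ℝ, ∀ z, φ z ∈ TF (fermatForms κ (e' + k)) → z ∈ A → ‖h a z‖ ≤ C := by
      refine (isCompact_TF form_fermat).induction_on
        (p := fun s => ∃ C : ℝ, ∀ z, φ z ∈ s → z ∈ A → ‖h a z‖ ≤ C) ?_ ?_ ?_ ?_
      · exact ⟨0, fun z hz => absurd hz (notMem_empty _)⟩
      · rintro s s' hss ⟨C, hC⟩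
        exact ⟨C, fun z hz => hC z (hss hz)⟩
      · rintro s s' ⟨C, hC⟩ ⟨C', hC'⟩
        refine ⟨max C C', fun z hz hzA => ?_⟩
        rcases hz with hz | hz
        · exact (hC z hz hzA).trans (le_max_left _ _)
        · exact (hC' z hz hzA).trans (le_max_right _ _)
      · intro M1 hM1
        obtain ⟨O, i, C, hO, hMO, h1⟩ := bd_loc (δ := δ) hS hn he hφ h0 hp a hM1
        refine ⟨O, mem_nhdsWithin_of_mem_nhds (hO.mem_nhds hMO), C, fun z hz hzA => ?_⟩
        obtain ⟨h2, h3⟩ := h1 z hz hzA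
        rw [hhi a z i h2]
        exact h3
    obtain ⟨C, hC⟩ := h1
    exact ⟨C, fun z hz => hC z (hφ.mem z) hz⟩
  have hconst : ∀ a, ∀ z ∈ A, ∀ w ∈ A, h a z = h a w := fun a => by
    obtain ⟨C, hC⟩ := hbdd a
    exact const_of_bdd hAo hAd (hdiff a) hC
  -- a general point
  set i := idx 0 with hi
  have hi0 : φ 0 i i ≠ 0 := hidx 0
  have hDne : ∀ᶠ w in 𝓝[≠] (0 : ℂ), Dk k e' φ t0 i w ≠ 0 :=
    ((Dk_an hφ.hol t0 hi0).eventually_eq_zero_or_eventually_ne_zero).resolve_left (hD 0 i hi0)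
  obtain ⟨z1, ⟨hz1D, hz1A⟩, hz1i⟩ := ((hDne.and (hAd 0)).and
    ((BF.ev_diag hφ.hol hi0).filter_mono nhdsWithin_le_nhds)).exists
  obtain ⟨q, hq⟩ : ∃ q, δ = q + 1 := ⟨δ - 1, by omega⟩
  refine const_of_ratio hφ.hol hz1i (fun a => ?_) z
  have hpow : ∀ᶠ w in 𝓝 z1, cu φ i w a ^ δ = h a z1 / h i z1 := by
    filter_upwards [hAo.mem_nhds hz1A, BF.ev_diag hφ.hol hz1i,
      (Dk_an hφ.hol t0 hz1i).continuousAt.eventually_ne hz1D] with w hwA hwi hwD
    rw [hconst a z1 hz1A w hwA, hconst i z1 hz1A w hwA, hhi a w i hwi, hhi i w i hwi]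
    unfold Ha
    have h1 : cu φ i w i = 1 := PM.chart_self hwi
    have h2 := hden w hwA i hwi
    have h3 := pow_ne_zero M hwD
    rw [h1, one_pow, one_mul]
    field_simp
  filter_upwards [hpow.eventually_nhds.eventually_nhds, BF.ev_diag hφ.hol hz1i] with w hw hwi
  refine root_flat (q := q) ((analyticAt_pi_iff.1 (cu_an hφ.hol i hwi)) a) ?_
  filter_upwards [hw] with v hv
  rw [← hq]
  have hv' : (fun w => cu φ i w a ^ δ) =ᶠ[𝓝 v] fun _ => h a z1 / h i z1 := hv
  exact (hasDerivAt_const v (h a z1 / h i z1)).congr_of_eventuallyEq hv'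

theorem numer {k f e q M sp : ℕ} (he : 0 < e) (heN : e ≤ k + f) (hf : 0 < f) (hM : 0 < M)
    (hq : q * e = (k + f + 1) * (e + f + k))
    (h : (k + 1) * q * M ≤ (k + 2 * f + 1) * sp) :
    M * ((k + 1) * (e + f + k)) < (e + f) * sp := by
  have hB : 0 < (k + 2 * f + 1) * e := by positivity
  apply lt_of_mul_lt_mul_left _ (Nat.zero_le ((k + 2 * f + 1) * e))
  have h1 : (k + 1) * ((k + f + 1) * (e + f + k)) * M * (e + f) ≤
      (k + 2 * f + 1) * e * ((e + f) * sp) := by
    rw [← hq]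
    calc (k + 1) * (q * e) * M * (e + f) = ((k + 1) * q * M) * (e * (e + f)) := by ring
      _ ≤ ((k + 2 * f + 1) * sp) * (e * (e + f)) := Nat.mul_le_mul_right _ h
      _ = _ := by ring
  refine lt_of_lt_of_le ?_ h1
  have h2 : (k + 2 * f + 1) * e < (k + f + 1) * (e + f) := by
    have h3 : e * f < (k + f + 1) * f := Nat.mul_lt_mul_of_pos_right (by omega) hf
    nlinarith
  have h4 : 0 < M * ((k + 1) * (e + f + k)) := by positivity
  calc (k + 2 * f + 1) * e * (M * ((k + 1) * (e + f + k))) <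
        (k + f + 1) * (e + f) * (M * ((k + 1) * (e + f + k))) :=
        Nat.mul_lt_mul_of_pos_right h2 h4
    _ = _ := by ring

/-- **Degenerate curves are constant.** -/
theorem deg_const {N e : ℕ} (he : 0 < e) (heN : e ≤ N)
    (hne : (n + 1) * e = (N + 1) * (e + N)) :
    ∀ k, k < N → ∀ κ : Fin (n + 1) → Fin (k + 1) → ℂ, Sep N κ →
      BD (TF (fermatForms κ (e + N))) φ → ∀ z, fderiv ℝ φ z = 0 := by
  classical
  have hn2 : 2 * (N + 1) ≤ n + 1 := by
    by_contra hcon
    push Not at hcon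
    have h1 : (n + 1) * e < 2 * (N + 1) * e := Nat.mul_lt_mul_of_pos_right hcon he
    rw [hne] at h1
    have h2 : (N + 1) * (e + e) ≤ (N + 1) * (e + N) := Nat.mul_le_mul_left _ (by omega)
    nlinarith
  intro k
  induction k with
  | zero =>
    intro hk κ hS hφ
    obtain ⟨f, hf⟩ : ∃ f, N = 0 + f := ⟨N, by omega⟩
    subst hf
    have hd : e + (0 + f) = e + f + 0 := by omega
    rw [hd] at hφ
    obtain ⟨T, -, -, hTi, hTc⟩ := exists_basis_ext (κ := κ) (Finset.empty_subset Finset.univ)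
      (by simp)
    rw [full_univ hS (by omega)] at hTc
    set t0 : Fin (0 + 1) → Fin (n + 1) := fun j => T.orderEmbOfFin hTc j with ht
    have h0 : Mt κ t0 ≠ 0 := basis_fun hTi hTc
    by_cases hD : ∀ z i, φ z i i ≠ 0 → ¬ ∀ᶠ w in 𝓝 z, Dk 0 (e + f) φ t0 i w = 0
    · obtain ⟨M, p, hM, hp, hq⟩ := exists_weights (sep_rk hS (by omega)) (by omega) (by
        rw [Fintype.card_fin]
        omega)
      rw [Fintype.card_fin] at hq
      have hlt := numer he (by omega) (by omega) hM (by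
        rw [hne]
        ring) hq
      exact nondeg_const hS (by omega) (by omega) hφ h0 hp
        (δ := (e + f) * ∑ l, p l - M * ((0 + 1) * (e + f + 0))) (by omega) (by omega) hD
    · exfalso
      push Not at hD
      obtain ⟨z, i, hi, hev⟩ := hD
      obtain ⟨b, hb, hb0⟩ := Dk_dep hφ h0 hi hev
      have h1 := hb0 z i hi
      rw [Fin.sum_univ_one] at h1
      have hb1 : b 0 ≠ 0 := fun h => hb (by
        funext j
        have hj0 : j = 0 := Fin.ext (by
          have := j.2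
          simp only [Fin.val_zero]
          omega)
        rw [hj0, h]
        rfl)
      have h2 := (mul_eq_zero.1 h1).resolve_left hb1
      have hx := chart_cone form_fermat (hφ.mem z) hi
      apply hx.1
      funext l
      have h3 := gg_rel h0 hx l
      rw [Fin.sum_univ_one] at h3
      have h4 : gg κ t0 (e + f + 0) 0 (chart i (φ z)) = 0 := h2
      rw [h4, mul_zero] at h3
      exact (pow_eq_zero_iff (by omega)).1 h3
  | succ k ih =>
    intro hk κ hS hφ
    obtain ⟨f, hf⟩ : ∃ f, N = (k + 1) + f := ⟨N - (k + 1), by omega⟩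
    subst hf
    have hd : e + (k + 1 + f) = e + f + (k + 1) := by omega
    have hφ' := hφ
    rw [hd] at hφ'
    obtain ⟨T, -, -, hTi, hTc⟩ := exists_basis_ext (κ := κ) (Finset.empty_subset Finset.univ)
      (by simp)
    rw [full_univ hS (by omega)] at hTc
    set t0 : Fin (k + 1 + 1) → Fin (n + 1) := fun j => T.orderEmbOfFin hTc j with ht
    have h0 : Mt κ t0 ≠ 0 := basis_fun hTi hTc
    by_cases hD : ∀ z i, φ z i i ≠ 0 → ¬ ∀ᶠ w in 𝓝 z, Dk (k + 1) (e + f) φ t0 i w = 0
    · obtain ⟨M, p, hM, hp, hq⟩ := exists_weights (sep_rk hS (by omega)) (by omega) (by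
        rw [Fintype.card_fin]
        omega)
      rw [Fintype.card_fin] at hq
      have hlt := numer he (by omega) (by omega) hM (by
        rw [hne]
        ring) hq
      exact nondeg_const hS (by omega) (by omega) hφ' h0 hp
        (δ := (e + f) * ∑ l, p l - M * ((k + 1 + 1) * (e + f + (k + 1)))) (by omega) (by omega) hD
    · push Not at hD
      obtain ⟨z, i, hi, hev⟩ := hD
      obtain ⟨b, hb, hb0⟩ := Dk_dep hφ' h0 hi hev
      obtain ⟨κ', hS', hφ''⟩ := restrict hS h0 hφ' hb hb0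
      rw [← hd] at hφ''
      exact ih (by omega) κ' hS' hφ''

end Pool.Agent.Helper65.HD
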