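import Pool.Agent.Helper65.HD.Rkv

/-!
Representatives of the parallel classes.
-/

set_option autoImplicit false

open Finset

namespace Pool.Agent.Helper65.HD

open Pool.Agent.Helper65.BF

variable {n k : ℕ} {κ : Fin (n + 1) → Fin (k + 1) → ℂ}

/-- a subset with at least the average sum -/
theorem exists_avg {L : Type*} [DecidableEq L] (c : L → ℕ) (k : ℕ) (R : Finset L)
    (hk : k ≤ R.card) : ∃ A ⊆ R, A.card = k ∧ k * ∑ r ∈ R, c r ≤ R.card * ∑ r ∈ A, c r := by
  induction' hs : R.card - k with s ih generalizing R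
  · exact ⟨R, le_rfl, by omega, by
      have : R.card = k := by omega
      rw [this]⟩
  · have hne : R.Nonempty := Finset.card_pos.1 (by omega)
    obtain ⟨r0, hr0, hmin⟩ := Finset.exists_min_image R c hne
    have hcard : (R.erase r0).card = R.card - 1 := Finset.card_erase_of_mem hr0
    obtain ⟨A, hA, hAk, hAs⟩ := ih (R.erase r0) (by omega) (by omega)
    refine ⟨A, hA.trans (Finset.erase_subset _ _), hAk, ?_⟩
    have h1 : ∑ r ∈ R, c r = c r0 + ∑ r ∈ R.erase r0, c r := (Finset.add_sum_erase R c hr0).symm
    have h2 : R.card * c r0 ≤ ∑ r ∈ R, c r := by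
      have := Finset.card_nsmul_le_sum R c (c r0) hmin
      simpa using this
    obtain ⟨m, hm⟩ : ∃ m, R.card = m + 1 := ⟨R.card - 1, by omega⟩
    rw [hcard, hm, Nat.add_sub_cancel] at hAs
    rw [hm] at h2
    rw [hm]
    set S := ∑ r ∈ R.erase r0, c r with hS
    set B := ∑ r ∈ A, c r with hB
    rw [h1] at h2 ⊢
    -- m * c r0 ≤ S
    have h3 : m * c r0 ≤ S := by
      have : (m + 1) * c r0 = m * c r0 + c r0 := by ring
      omega
    rcases Nat.eq_zero_or_pos m with hm0 | hm0
    · have hk0 : k = 0 := by omega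
      rw [hk0, zero_mul]
      exact Nat.zero_le _
    · apply Nat.le_of_mul_le_mul_left _ hm0
      calc m * (k * (c r0 + S)) = k * (m * c r0) + k * (m * S) := by ring
        _ ≤ k * S + k * (m * S) := Nat.add_le_add_right (Nat.mul_le_mul_left _ h3) _
        _ = (m + 1) * (k * S) := by ring
        _ ≤ (m + 1) * (m * B) := Nat.mul_le_mul_left _ hAs
        _ = m * ((m + 1) * B) := by ring

theorem rkv_pair {r r' : Fin (n + 1)} (h0 : κ r ≠ 0) (h : κ r' ∉ Submodule.span ℂ {κ r}) :
    rkv κ {r, r'} = 2 := by
  classical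
  have hne : r' ≠ r := by
    rintro rfl
    exact h (Submodule.mem_span_singleton_self _)
  have h1 : LinearIndepOn ℂ κ ((({r', r} : Finset (Fin (n + 1)))) : Set (Fin (n + 1))) := by
    rw [Finset.coe_insert, Finset.coe_singleton]
    refine ((linearIndepOn_singleton_iff ℂ).2 h0).insert ?_
    rw [Set.image_singleton]
    exact h
  rw [Finset.pair_comm, rkv_indep h1, Finset.card_pair hne]

theorem rkv_single {r : Fin (n + 1)} (h0 : κ r ≠ 0) : rkv κ {r} = 1 := by
  have h1 : LinearIndepOn ℂ κ ((({r} : Finset (Fin (n + 1)))) : Set (Fin (n + 1))) := by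
    rw [Finset.coe_singleton]
    exact (linearIndepOn_singleton_iff ℂ).2 h0
  rw [rkv_indep h1, Finset.card_singleton]

/-- **Representatives of the parallel classes.** -/
theorem exists_reps {N : ℕ} (hS : Sep N κ) (hn : n = 2 * N) :
    ∃ R : Finset (Fin (n + 1)), (∀ r ∈ R, κ r ≠ 0) ∧
      (∀ S : Finset (Fin (n + 1)), rkv κ S ≤ 1 → (R ∩ S).card ≤ rkv κ S) ∧
      k * (2 * N + 1) ≤ R.card * N := by
  classical
  set Pr : Finset (Fin (n + 1)) → Prop := fun R => (∀ r ∈ R, κ r ≠ 0) ∧
    ∀ r ∈ R, ∀ r' ∈ R, r ≠ r' → κ r' ∉ Submodule.span ℂ {κ r} with hPr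
  obtain ⟨R, hR, hmax⟩ := Finset.exists_max_image
    (Finset.univ.filter fun R : Finset (Fin (n + 1)) => Pr R) (fun R => R.card)
    ⟨∅, by simp [hPr]⟩
  rw [Finset.mem_filter] at hR
  obtain ⟨-, hR0, hRp⟩ := hR
  refine ⟨R, hR0, fun S hS1 => ?_, ?_⟩
  · rcases Finset.eq_empty_or_nonempty (R ∩ S) with h1 | ⟨r, hr⟩
    · rw [h1, Finset.card_empty]
      exact Nat.zero_le _
    · have hrR := (Finset.mem_inter.1 hr).1
      have hrS := (Finset.mem_inter.1 hr).2
      have h1 : (R ∩ S).card ≤ 1 := by
        rw [Finset.card_le_one]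
        intro a ha b hb
        by_contra hab
        have h2 := rkv_pair (hR0 a (Finset.mem_inter.1 ha).1)
          (hRp a (Finset.mem_inter.1 ha).1 b (Finset.mem_inter.1 hb).1 hab)
        have h3 : rkv κ {a, b} ≤ rkv κ S := rkv_mono (by
          intro x hx
          rw [Finset.mem_insert, Finset.mem_singleton] at hx
          rcases hx with rfl | rfl
          · exact (Finset.mem_inter.1 ha).2
          · exact (Finset.mem_inter.1 hb).2)
        omega
      have h2 : rkv κ {r} ≤ rkv κ S := rkv_mono (Finset.singleton_subset_iff.2 hrS)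
      rw [rkv_single (hR0 r hrR)] at h2
      omega
  · -- all vectors are multiples of representatives
    have hrep : ∀ l, κ l ≠ 0 → ∃ r ∈ R, κ l ∈ Submodule.span ℂ {κ r} := by
      intro l hl
      by_contra hcon
      push Not at hcon
      have hlR : l ∉ R := fun h => hcon l h (Submodule.mem_span_singleton_self _)
      have h1 : Pr (insert l R) := by
        refine ⟨fun r hr => ?_, fun r hr r' hr' hne => ?_⟩
        · rcases Finset.mem_insert.1 hr with h3 | h3
          · rw [h3]
            exact hl
          · exact hR0 r h3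
        · rcases Finset.mem_insert.1 hr with h3 | h3
          · rcases Finset.mem_insert.1 hr' with h4 | h4
            · exact absurd (h3.trans h4.symm) hne
            · intro h2
              obtain ⟨a, ha⟩ := Submodule.mem_span_singleton.1 h2
              have ha0 : a ≠ 0 := by
                rintro rfl
                rw [zero_smul] at ha
                exact hR0 r' h4 ha.symm
              apply hcon r' h4
              rw [Submodule.mem_span_singleton]
              exact ⟨a⁻¹, by rw [← ha, smul_smul, inv_mul_cancel₀ ha0, one_smul, h3]⟩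
          · rcases Finset.mem_insert.1 hr' with h4 | h4
            · rw [h4]
              exact hcon r h3
            · exact hRp r h3 r' h4 hne
      have h2 := hmax (insert l R) (Finset.mem_filter.2 ⟨Finset.mem_univ _, h1⟩)
      rw [Finset.card_insert_of_notMem hlR] at h2
      omega
    choose! ρ hρR hρ using hrep
    set Z : Finset (Fin (n + 1)) := Finset.univ.filter fun l => κ l = 0 with hZ
    set Z' : Finset (Fin (n + 1)) := Finset.univ.filter fun l => ¬ κ l = 0 with hZ'
    have hZZ : Z.card + Z'.card = 2 * N + 1 := by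
      have := Finset.card_filter_add_card_filter_not (s := (Finset.univ : Finset (Fin (n + 1))))
        (fun l => κ l = 0)
      rw [Finset.card_univ, Fintype.card_fin] at this
      rw [hZ, hZ']
      omega
    set c : Fin (n + 1) → ℕ := fun r => (Z'.filter fun l => ρ l = r).card with hc
    have hcs : ∀ A ⊆ R, ∑ r ∈ A, c r = (Z'.filter fun l => ρ l ∈ A).card := by
      intro A _
      rw [hc, Finset.card_eq_sum_card_fiberwise (f := ρ) (t := A)
        (s := Z'.filter fun l => ρ l ∈ A) (fun l hl => (Finset.mem_filter.1 hl).2)]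
      refine Finset.sum_congr rfl fun r hr => congrArg Finset.card (Finset.ext fun l => ?_)
      simp only [Finset.mem_filter]
      constructor
      · rintro ⟨h1, h2⟩
        exact ⟨⟨h1, by rw [h2]; exact hr⟩, h2⟩
      · rintro ⟨⟨h1, -⟩, h2⟩
        exact ⟨h1, h2⟩
    have hcR : ∑ r ∈ R, c r = Z'.card := by
      rw [hcs R le_rfl]
      congr 1
      rw [Finset.filter_true_of_mem]
      intro l hl
      exact hρR l (Finset.mem_filter.1 hl).2
    have hsmall : ∀ A ⊆ R, A.card ≤ k → Z.card + ∑ r ∈ A, c r ≤ N := by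
      intro A hA hAk
      set W := Submodule.span ℂ (κ '' (A : Set (Fin (n + 1)))) with hW
      set cl : Finset (Fin (n + 1)) := Finset.univ.filter fun l => κ l ∈ W with hcl
      have h1 : cl.card ≤ N := by
        by_contra hcon
        have h2 := rkv_full hS (S := cl) (by omega)
        have h3 : rkv κ cl ≤ rkv κ A := by
          unfold rkv
          apply Submodule.finrank_mono
          rw [Submodule.span_le]
          rintro _ ⟨l, hl, rfl⟩
          exact (Finset.mem_filter.1 (by exact_mod_cast hl : l ∈ cl)).2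
        have h4 := rkv_card (κ := κ) A
        omega
      refine le_trans ?_ h1
      rw [hcs A hA, ← Finset.card_union_of_disjoint]
      · apply Finset.card_le_card
        intro l hl
        rw [Finset.mem_union] at hl
        rw [hcl, Finset.mem_filter]
        refine ⟨Finset.mem_univ _, ?_⟩
        rcases hl with hl | hl
        · rw [(Finset.mem_filter.1 hl).2]
          exact zero_mem _
        · obtain ⟨h2, h3⟩ := Finset.mem_filter.1 hl
          have h4 := hρ l (Finset.mem_filter.1 h2).2
          refine (Submodule.span_mono ?_) h4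
          rw [Set.singleton_subset_iff]
          exact ⟨ρ l, by exact_mod_cast h3, rfl⟩
      · rw [Finset.disjoint_left]
        intro l hl hl'
        exact (Finset.mem_filter.1 (Finset.mem_filter.1 hl').1).2 (Finset.mem_filter.1 hl).2
    have hkR : k ≤ R.card := by
      by_contra hcon
      have h1 := hsmall R le_rfl (by omega)
      rw [hcR] at h1
      omega
    obtain ⟨A, hAR, hAk, hAs⟩ := exists_avg c k R hkR
    have h1 := hsmall A hAR hAk.le
    rw [hcR] at hAs
    -- k (2N+1) = k |Z'| + k |Z| ≤ |R| (N - |Z|) + |R| |Z|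
    calc k * (2 * N + 1) = k * Z.card + k * Z'.card := by rw [← mul_add, hZZ]
      _ ≤ R.card * Z.card + R.card * ∑ r ∈ A, c r :=
          Nat.add_le_add (Nat.mul_le_mul_right _ hkR) hAs
      _ = R.card * (Z.card + ∑ r ∈ A, c r) := by ring
      _ ≤ R.card * N := Nat.mul_le_mul_left _ h1

theorem numer_two {N s : ℕ} (hN : 2 ≤ N) (hk : 1 ≤ k) (hkN : k < N)
    (hs : k * (2 * N + 1) ≤ s * N) : (k + 1) * (2 * N + 1) < (2 * N + 1 - k) * s := by
  obtain ⟨f, hf⟩ : ∃ f, N = k + 1 + f := ⟨N - (k + 1), by omega⟩
  have h0 : 2 * N + 1 - k = k + 3 + 2 * f := by omega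
  rw [h0]
  rcases Nat.eq_or_lt_of_le hk with h1 | h1
  · have hs3 : 3 ≤ s := by
      by_contra hcon
      have h2 : s * N ≤ 2 * N := Nat.mul_le_mul_right _ (by omega)
      rw [← h1] at hs
      omega
    rw [← h1]
    calc (1 + 1) * (2 * N + 1) < (1 + 3 + 2 * f) * 3 := by omega
      _ ≤ (1 + 3 + 2 * f) * s := Nat.mul_le_mul_left _ hs3
  · apply lt_of_mul_lt_mul_right _ (Nat.zero_le N)
    calc (k + 1) * (2 * N + 1) * N < (k + 3 + 2 * f) * (k * (2 * N + 1)) := by
          have h2 : (k + 1) * N < (k + 3 + 2 * f) * k := by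
            rw [hf]
            nlinarith [Nat.zero_le (f * k), Nat.zero_le f]
          calc (k + 1) * (2 * N + 1) * N = ((k + 1) * N) * (2 * N + 1) := by ring
            _ < ((k + 3 + 2 * f) * k) * (2 * N + 1) := Nat.mul_lt_mul_of_pos_right h2 (by omega)
            _ = _ := by ring
      _ ≤ (k + 3 + 2 * f) * (s * N) := Nat.mul_le_mul_left _ hs
      _ = _ := by ring

end Pool.Agent.Helper65.HD
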