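import Pool.Agent.Helper65.HD.Dc
import Pool.Agent.Helper65.HD.Df

/-!
Curves over linear subspaces: the extremal case.
-/

set_option autoImplicit false

open Filter Topology Metric MvPolynomial Set

namespace Pool.Agent.Helper65.HD

open Pool.Agent.W602.GT Pool.Agent.N155.BB Pool.Agent.Y190.OP Pool.Agent.N155
  Pool.Agent.N155.GD Pool.Agent.Helper65.BF Pool.Agent.Helper65.GG

variable {n k e' f M δ : ℕ} {κ : Fin (n + 1) → Fin (k + 1) → ℂ}
  {t0 : Fin (k + 1) → Fin (n + 1)} {φ : ℂ → Mat (n + 1)} {p : Fin (n + 1) → ℕ}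

/-- the coordinates which vanish at a point -/
noncomputable def Zf (M0 : Mat (n + 1)) : Finset (Fin (n + 1)) := by
  classical exact Finset.univ.filter fun l => M0 l l = 0

theorem mem_Zf {M0 : Mat (n + 1)} {l : Fin (n + 1)} : l ∈ Zf M0 ↔ M0 l l = 0 := by
  classical
  unfold Zf
  rw [Finset.mem_filter]
  exact ⟨fun h => h.2, fun h => ⟨Finset.mem_univ _, h⟩⟩

/-- two columns of the Wronskian at a common zero -/
theorem st_two {b : Fin (k + 1) → Fin (n + 1) → ℂ} {t : Fin (k + 1) → Fin (n + 1)}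
    {j1 j2 : Fin (k + 1)} (hj : j1 ≠ j2) (h1 : b 0 (t j1) = 0) (h2 : b 0 (t j2) = 0) :
    St (cj e' b) t = 0 := by
  set A : Matrix (Fin (k + 1)) (Fin (k + 1)) ℂ := Matrix.of fun i j => cj e' b j (t i) with hA
  have hz : ∀ j, b 0 (t j) = 0 → ∀ c : Fin (k + 1), c ≠ Fin.last k → A j c = 0 := by
    intro j hj c hc
    rw [hA, Matrix.of_apply]
    unfold cj
    apply Ev_at_zero
    · have := c.2
      have h3 : (c : ℕ) ≠ k := fun h => hc (Fin.ext h)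
      omega
    · rw [dif_pos (Nat.succ_pos k)]
      exact hj
  change A.det = 0
  by_cases h0 : A j1 (Fin.last k) = 0
  · apply Matrix.det_eq_zero_of_row_eq_zero j1
    intro c
    by_cases hc : c = Fin.last k
    · rw [hc, h0]
    · exact hz j1 h1 c hc
  · rw [← Matrix.exists_vecMul_eq_zero_iff]
    refine ⟨fun i => if i = j1 then A j2 (Fin.last k) else
      if i = j2 then -A j1 (Fin.last k) else 0, fun h => ?_, ?_⟩
    · have h3 := congrFun h j2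
      simp only [if_neg hj.symm, if_true, Pi.zero_apply, neg_eq_zero] at h3
      exact h0 h3
    · funext c
      simp only [Matrix.vecMul, dotProduct, Pi.zero_apply]
      rw [← Finset.add_sum_erase _ _ (Finset.mem_univ j1),
        ← Finset.add_sum_erase _ _ (Finset.mem_erase.2 ⟨hj.symm, Finset.mem_univ j2⟩)]
      rw [Finset.sum_eq_zero]
      · simp only [if_true, if_neg hj.symm, add_zero]
        by_cases hc : c = Fin.last k
        · rw [hc]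
          ring
        · rw [hz j1 h1 c hc, hz j2 h2 c hc]
          ring
      · intro i hi
        rw [Finset.mem_erase, Finset.mem_erase] at hi
        rw [if_neg hi.2.1, if_neg hi.1, zero_mul]

theorem cj_cont (t : Fin (k + 1) → Fin (n + 1)) :
    Continuous fun b : Fin (k + 1) → Fin (n + 1) → ℂ => St (cj e' b) t := by
  refine St_cont (fun k' l => ?_) t
  unfold cj
  refine (Ev_cont k (e' + k) k').comp (continuous_pi fun j => ?_)
  by_cases hj : j < k + 1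
  · simp only [dif_pos hj]
    exact continuous_apply_apply _ l
  · simp only [dif_neg hj]
    exact continuous_const

theorem st_small (x0 : Fin (n + 1) → ℂ) (e' k : ℕ) (K : ℝ) {ε : ℝ} (hε : 0 < ε) :
    ∃ δ : ℝ, 0 < δ ∧ ∀ t : Fin (k + 1) → Fin (n + 1), ∀ j1 j2 : Fin (k + 1), j1 ≠ j2 →
      x0 (t j1) = 0 → x0 (t j2) = 0 → ∀ b : Fin (k + 1) → Fin (n + 1) → ℂ, ‖b‖ ≤ K →
        ‖b 0 - x0‖ < δ → ‖St (cj e' b) t‖ < ε := by
  classical
  have h1 : ∀ t : Fin (k + 1) → Fin (n + 1), ∀ᶠ δ in 𝓝[>] (0 : ℝ), ∀ j1 j2 : Fin (k + 1),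
      j1 ≠ j2 → x0 (t j1) = 0 → x0 (t j2) = 0 → ∀ b : Fin (k + 1) → Fin (n + 1) → ℂ, ‖b‖ ≤ K →
        ‖b 0 - x0‖ < δ → ‖St (cj e' b) t‖ < ε := by
    intro t
    have hc : ContinuousOn (fun b : Fin (k + 1) → Fin (n + 1) → ℂ => St (cj e' b) t)
      (closedBall 0 (max K ‖x0‖)) := (cj_cont t).continuousOn
    have hu := (isCompact_closedBall (0 : Fin (k + 1) → Fin (n + 1) → ℂ)
      (max K ‖x0‖)).uniformContinuousOn_of_continuous hc
    rw [Metric.uniformContinuousOn_iff] at hu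
    obtain ⟨δ, hδ, hu⟩ := hu ε hε
    filter_upwards [Ioo_mem_nhdsGT hδ] with δ' hδ' j1 j2 hj h1 h2 b hb hb0
    set b' : Fin (k + 1) → Fin (n + 1) → ℂ := Function.update b 0 x0 with hb'
    have h3 : St (cj e' b') t = 0 := st_two hj (by rw [hb', Function.update_self]; exact h1)
      (by rw [hb', Function.update_self]; exact h2)
    have h4 := hu b (by
      rw [mem_closedBall_zero_iff]
      exact hb.trans (le_max_left _ _)) b' (by
      rw [mem_closedBall_zero_iff, pi_norm_le_iff_of_nonneg (le_max_of_le_right (norm_nonneg _))]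
      intro i
      by_cases hi : i = 0
      · rw [hi, hb', Function.update_self]
        exact le_max_right _ _
      · rw [hb', Function.update_of_ne hi]
        exact (norm_le_pi_norm b i).trans (hb.trans (le_max_left _ _))) (by
      rw [dist_eq_norm]
      refine lt_of_le_of_lt ?_ hδ'.2
      rw [pi_norm_le_iff_of_nonneg hδ'.1.le]
      intro i
      by_cases hi : i = 0
      · rw [hi, Pi.sub_apply, hb', Function.update_self]
        exact hb0.le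
      · rw [Pi.sub_apply, hb', Function.update_of_ne hi, sub_self, norm_zero]
        exact hδ'.1.le)
    rw [h3, dist_zero_right] at h4
    exact h4
  obtain ⟨δ, h2, h3⟩ := ((eventually_all.2 h1).and self_mem_nhdsWithin).exists
  exact ⟨δ, h3, h2⟩

/-- **The local bound, with the Wronskian.** -/
theorem bd_loc2 (hS : Sep (k + f) κ) (hn : k + f ≤ n)
    (hφ : BD (TF (fermatForms κ (e' + k))) φ) (h0 : Mt κ t0 ≠ 0)
    (a : Fin (n + 1)) {M0 : Mat (n + 1)} (hM0 : M0 ∈ TF (fermatForms κ (e' + k)))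
    (hp : ∀ S : Finset (Fin (n + 1)), (∀ l ∈ S, M0 l l = 0) → ∑ l ∈ S, p l ≤ M * rkv κ S)
    {i : Fin (n + 1)} (hi : M0 i i ≠ 0) :
    ∃ (O : Set (Mat (n + 1))) (C : ℝ), IsOpen O ∧ M0 ∈ O ∧ 0 ≤ C ∧
      ∀ z, φ z ∈ O → (∀ l, p l ≠ 0 → φ z l l ≠ 0) → φ z i i ≠ 0 ∧
        ∃ t : Fin (k + 1) → Fin (n + 1), (∃ T1 : Finset (Fin (n + 1)), T1 ⊆ Zf M0 ∧
          T1.card = rkv κ (Zf M0) ∧ ∀ l ∈ T1, ∃ j, t j = l) ∧
          ‖Ha k e' M δ p φ t0 a i z‖ ≤ C * ‖St (cc k e' (cu φ i) z) t‖ ^ M := by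
  classical
  have hx0 := chart_cone form_fermat hM0 hi
  set x0 : Fin (n + 1) → ℂ := chart i M0 with hx0d
  have hx0z : ∀ l, x0 l = 0 ↔ M0 l l = 0 := fun l => chart_zero (TF_PM hM0) hi
  set C1 : ℝ := ∑ t : Fin (k + 1) → Fin (n + 1), ‖Mt κ t0‖ / ‖Mt κ t‖ with hC1
  have hC1t : ∀ t : Fin (k + 1) → Fin (n + 1), ‖Mt κ t0‖ / ‖Mt κ t‖ ≤ C1 := fun t =>
    Finset.single_le_sum (f := fun t : Fin (k + 1) → Fin (n + 1) => ‖Mt κ t0‖ / ‖Mt κ t‖)
      (fun t _ => by positivity) (Finset.mem_univ t)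
  have hC10 : 0 ≤ C1 := Finset.sum_nonneg fun t _ => by positivity
  set K : ℝ := ‖x0‖ + 1 with hK
  have hK1 : 1 ≤ K := by
    have := norm_nonneg x0
    linarith
  have hKpos : 0 < K := by linarith
  set Z0 : Finset (Fin (n + 1)) := Zf M0 with hZ0
  have hZ0m : ∀ l, l ∈ Z0 ↔ x0 l = 0 := fun l => by rw [hZ0, mem_Zf, hx0z]
  set S : Finset (Fin (n + 1)) := Z0.filter fun l => p l ≠ 0 with hSd
  -- the lower bound
  set η0 : ℝ := ∏ l ∈ Z0ᶜ, ‖x0 l‖ ^ (e' * p l) with hη0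
  have hη0p : 0 < η0 := Finset.prod_pos fun l hl => by
    rw [Finset.mem_compl, hZ0m] at hl
    have := norm_pos_iff.2 hl
    positivity
  have hcη : Continuous fun y : Fin (n + 1) → ℂ => ∏ l ∈ Z0ᶜ, ‖y l‖ ^ (e' * p l) := by
    fun_prop
  have hev1 : ∀ᶠ y : Fin (n + 1) → ℂ in 𝓝 x0, η0 / 2 < ∏ l ∈ Z0ᶜ, ‖y l‖ ^ (e' * p l) :=
    hcη.continuousAt.eventually_const_lt (half_lt_self hη0p)
  have hev2 : ∀ᶠ y : Fin (n + 1) → ℂ in 𝓝 x0, ‖y‖ < K :=
    continuous_norm.continuousAt.eventually_lt_const (lt_add_one _)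
  have hch := continuousAt_chart hi
  have hevi : ∀ᶠ M1 : Mat (n + 1) in 𝓝 M0, M1 i i ≠ 0 :=
    (continuous_apply_apply i i).continuousAt.eventually_ne hi
  obtain ⟨O3, hO3s, hO3, hMO3⟩ := _root_.mem_nhds_iff.1
    (((hch.eventually hev1).and (hch.eventually hev2)).and hevi)
  refine ⟨O3, K ^ δ * (C1 * K ^ (e' * (k + 1))) ^ M / (η0 / 2), hO3, hMO3, by positivity,
    fun z hz hzA => ?_⟩
  obtain ⟨⟨hlow, hup⟩, hiz⟩ := hO3s hz
  refine ⟨hiz, ?_⟩
  have hPM : φ z ∈ PM := TF_PM (hφ.mem z)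
  set γ : Fin (n + 1) → ℂ := cu φ i z with hγ
  have hγK : ∀ l, ‖γ l‖ ≤ K := fun l => (norm_le_pi_norm γ l).trans hup.le
  have hγne : ∀ l, p l ≠ 0 → γ l ≠ 0 := fun l hl => chart_diag_ne hPM hiz (hzA l hl)
  set b : Fin (n + 1) → ℝ := fun l => ‖γ l‖ / K with hb
  have hb0 : ∀ l, 0 ≤ b l := fun l => by positivity
  have hb1 : ∀ l, b l ≤ 1 := fun l => (div_le_one hKpos).2 (hγK l)
  obtain ⟨T, hTS, hTi, hTc, hTp⟩ := prod_ineq (rk := rkv κ) (M := M) (p := p)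
    (Ind := fun T => LinearIndepOn ℂ κ (T : Set (Fin (n + 1)))) (by simp) rk_step rkv_empty S
    (fun S' hS' => hp S' fun l hl => by
      have h1 := hS' hl
      rw [hSd, Finset.mem_filter, hZ0, mem_Zf] at h1
      exact h1.1) b (fun l hl => ⟨div_pos (norm_pos_iff.2 (hγne l (Finset.mem_filter.1 hl).2)) hKpos,
        hb1 l⟩)
  obtain ⟨T1, hTT1, hT1Z, hT1i, hT1c⟩ := exists_basis_ext (κ := κ)
    (hTS.trans (Finset.filter_subset _ _) : T ⊆ Z0) hTi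
  obtain ⟨T', hT1T', -, hT'i, hT'c⟩ := exists_basis_ext (κ := κ) (Finset.subset_univ T1) hT1i
  have hTT' : T ⊆ T' := hTT1.trans hT1T'
  rw [full_univ hS hn] at hT'c
  set t : Fin (k + 1) → Fin (n + 1) := fun j => T'.orderEmbOfFin hT'c j with ht
  have hMt : Mt κ t ≠ 0 := basis_fun hT'i hT'c
  refine ⟨t, ⟨T1, hT1Z, hT1c, fun l hl => ?_⟩, ?_⟩
  · have h1 : l ∈ Set.range (T'.orderEmbOfFin hT'c) := by
      rw [Finset.range_orderEmbOfFin]
      exact_mod_cast hT1T' hl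
    exact h1
  set Q : ℝ := ‖St (cc k e' (cu φ i) z) t‖ with hQ
  have hQ0 : 0 ≤ Q := norm_nonneg _
  -- the Wronskian
  have hDt : ‖Dk k e' φ t i z‖ = (∏ l ∈ T', ‖γ l‖ ^ e') * Q := by
    unfold Dk
    rw [norm_mul]
    have h1 : ‖∏ j, cu φ i z (t j) ^ e'‖ = ∏ l ∈ T', ‖γ l‖ ^ e' := by
      rw [norm_prod, ← prod_emb hT'c fun l => ‖γ l‖ ^ e']
      exact Finset.prod_congr rfl fun j _ => by rw [norm_pow]
    rw [h1]
  have hT'prod : ∏ l ∈ T', ‖γ l‖ ^ e' ≤ K ^ (e' * (k + 1)) * ∏ l ∈ T, b l ^ e' := by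
    have h1 : ∏ l ∈ T', ‖γ l‖ ^ e' = K ^ (e' * (k + 1)) * ∏ l ∈ T', b l ^ e' := by
      have h2 : ∀ l ∈ T', ‖γ l‖ ^ e' = K ^ e' * b l ^ e' := fun l _ => by
        rw [← mul_pow, hb]
        simp only
        rw [mul_div_cancel₀ _ hKpos.ne']
      rw [Finset.prod_congr rfl h2, Finset.prod_mul_distrib, Finset.prod_const, hT'c, ← pow_mul]
    rw [h1]
    refine mul_le_mul_of_nonneg_left ?_ (by positivity)
    rw [← Finset.prod_sdiff hTT']
    have h3 : ∏ l ∈ T' \ T, b l ^ e' ≤ 1 :=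
      Finset.prod_le_one (fun l _ => pow_nonneg (hb0 l) _) fun l _ => pow_le_one₀ (hb0 l) (hb1 l)
    exact mul_le_of_le_one_left (Finset.prod_nonneg fun l _ => pow_nonneg (hb0 l) _) h3
  have hD : ‖Dk k e' φ t0 i z‖ ≤ (C1 * K ^ (e' * (k + 1))) * (∏ l ∈ T, b l ^ e') * Q := by
    have h1 := congrArg norm (Dk_rows hφ h0 t hiz)
    rw [norm_mul, norm_mul] at h1
    have hM1 := norm_pos_iff.2 hMt
    have h2 : ‖Dk k e' φ t0 i z‖ = ‖Dk k e' φ t i z‖ * (‖Mt κ t0‖ / ‖Mt κ t‖) := by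
      field_simp
      linarith
    rw [h2, hDt]
    have h4 : 0 ≤ ∏ l ∈ T, b l ^ e' := Finset.prod_nonneg fun l _ => pow_nonneg (hb0 l) _
    calc (∏ l ∈ T', ‖γ l‖ ^ e') * Q * (‖Mt κ t0‖ / ‖Mt κ t‖) ≤
          (K ^ (e' * (k + 1)) * ∏ l ∈ T, b l ^ e') * Q * (‖Mt κ t0‖ / ‖Mt κ t‖) :=
          mul_le_mul_of_nonneg_right (mul_le_mul_of_nonneg_right hT'prod hQ0) (by positivity)
      _ ≤ (K ^ (e' * (k + 1)) * ∏ l ∈ T, b l ^ e') * Q * C1 :=
          mul_le_mul_of_nonneg_left (hC1t t) (by positivity)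
      _ = _ := by ring
  set P1 : ℝ := ∏ l ∈ S, ‖γ l‖ ^ (e' * p l) with hP1
  have hP1pos : 0 < P1 := Finset.prod_pos fun l hl => by
    have := norm_pos_iff.2 (hγne l (Finset.mem_filter.1 hl).2)
    positivity
  have hDM : ‖Dk k e' φ t0 i z‖ ^ M ≤ (C1 * K ^ (e' * (k + 1))) ^ M * P1 * Q ^ M := by
    have h1 := pow_le_pow_left₀ (norm_nonneg _) hD M
    refine h1.trans ?_
    rw [mul_pow, mul_pow]
    refine mul_le_mul_of_nonneg_right (mul_le_mul_of_nonneg_left ?_ (by positivity))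
      (by positivity)
    have h2 : (∏ l ∈ T, b l ^ e') ^ M = (∏ l ∈ T, b l ^ M) ^ e' := by
      rw [← Finset.prod_pow, ← Finset.prod_pow]
      exact Finset.prod_congr rfl fun l _ => by rw [← pow_mul, ← pow_mul, mul_comm]
    rw [h2]
    have h3 : ∏ l ∈ S, b l ^ p l ≤ ∏ l ∈ S, ‖γ l‖ ^ p l := by
      refine Finset.prod_le_prod (fun l _ => pow_nonneg (hb0 l) _) fun l _ => ?_
      refine pow_le_pow_left₀ (hb0 l) ?_ _
      exact div_le_self (norm_nonneg _) hK1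
    have h4 : P1 = (∏ l ∈ S, ‖γ l‖ ^ p l) ^ e' := by
      rw [hP1, ← Finset.prod_pow]
      exact Finset.prod_congr rfl fun l _ => by rw [← pow_mul, mul_comm]
    rw [h4]
    exact pow_le_pow_left₀ (Finset.prod_nonneg fun l _ => pow_nonneg (hb0 l) _)
      (hTp.trans h3) _
  -- the denominator
  have hden : ‖∏ l, γ l ^ (e' * p l)‖ = P1 * ∏ l ∈ Z0ᶜ, ‖γ l‖ ^ (e' * p l) := by
    rw [norm_prod]
    simp only [norm_pow]
    have h2 : P1 = ∏ l ∈ Z0, ‖γ l‖ ^ (e' * p l) := by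
      rw [hP1, hSd, Finset.prod_filter]
      refine Finset.prod_congr rfl fun l _ => ?_
      by_cases h1 : p l = 0
      · rw [if_neg (not_not.2 h1), h1, mul_zero, pow_zero]
      · rw [if_pos h1]
    rw [h2]
    exact (Finset.prod_mul_prod_compl Z0 fun l => ‖γ l‖ ^ (e' * p l)).symm
  have hlow' : η0 / 2 < ∏ l ∈ Z0ᶜ, ‖γ l‖ ^ (e' * p l) := hlow
  unfold Ha
  rw [norm_div, hden, norm_mul, norm_pow, norm_pow, div_mul_eq_mul_div]
  rw [div_le_div_iff₀ (mul_pos hP1pos (by linarith [half_pos hη0p])) (half_pos hη0p)]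
  have h1 : ‖cu φ i z a‖ ^ δ ≤ K ^ δ := pow_le_pow_left₀ (norm_nonneg _) (hγK a) _
  have h2 : ‖cu φ i z a‖ ^ δ * ‖Dk k e' φ t0 i z‖ ^ M ≤
      K ^ δ * ((C1 * K ^ (e' * (k + 1))) ^ M * P1 * Q ^ M) :=
    mul_le_mul h1 hDM (by positivity) (by positivity)
  calc ‖cu φ i z a‖ ^ δ * ‖Dk k e' φ t0 i z‖ ^ M * (η0 / 2) ≤
        K ^ δ * ((C1 * K ^ (e' * (k + 1))) ^ M * P1 * Q ^ M) *
          (∏ l ∈ Z0ᶜ, ‖γ l‖ ^ (e' * p l)) :=
        mul_le_mul h2 hlow'.le (by positivity) (by positivity)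
    _ = _ := by ring

/-- the Wronskian is bounded, and small near a multiple zero -/
theorem st_bd (hφ : BD (TF (fermatForms κ (e' + k))) φ) {M0 : Mat (n + 1)}
    (hM0 : M0 ∈ TF (fermatForms κ (e' + k))) {i : Fin (n + 1)} (hi : M0 i i ≠ 0) :
    ∃ (O : Set (Mat (n + 1))) (C : ℝ), IsOpen O ∧ M0 ∈ O ∧ 0 ≤ C ∧
      ∀ z, φ z ∈ O → ∀ t, ‖St (cc k e' (cu φ i) z) t‖ ≤ C := by
  classical
  obtain ⟨O1, hO1, hMO1, hO1i, K2, hK2, hjet⟩ :=
    jets_bd (T := TF (fermatForms κ (e' + k))) hi k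
  have _ := hM0
  have hCt : ∀ t : Fin (k + 1) → Fin (n + 1), ∃ C : ℝ, 0 ≤ C ∧
      ∀ b : Fin (k + 1) → Fin (n + 1) → ℂ, ‖b‖ ≤ K2 → ‖St (cj e' b) t‖ ≤ C := by
    intro t
    obtain ⟨C, hC⟩ := (isCompact_closedBall (0 : Fin (k + 1) → Fin (n + 1) → ℂ)
      K2).exists_bound_of_continuousOn (cj_cont (e' := e') t).continuousOn
    exact ⟨max C 0, le_max_right _ _, fun b hb =>
      (hC b (mem_closedBall_zero_iff.2 hb)).trans (le_max_left _ _)⟩
  choose Ct hCt0 hCt using hCt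
  refine ⟨O1, ∑ t, Ct t, hO1, hMO1, Finset.sum_nonneg fun t _ => hCt0 t, fun z hz t => ?_⟩
  have h1 : Ct t ≤ ∑ t, Ct t := Finset.single_le_sum (f := Ct) (fun t _ => hCt0 t)
    (Finset.mem_univ t)
  refine le_trans ?_ h1
  rw [← cj_jet (cu_an hφ.hol i (hO1i _ hz))]
  refine hCt t _ ?_
  rw [pi_norm_le_iff_of_nonneg hK2]
  intro j
  exact hjet φ hφ z hz j

theorem st_near (hφ : BD (TF (fermatForms κ (e' + k))) φ) {M0 : Mat (n + 1)}
    {i : Fin (n + 1)} (hi : M0 i i ≠ 0) (hM0 : M0 ∈ TF (fermatForms κ (e' + k))) {ε : ℝ}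
    (hε : 0 < ε) :
    ∃ O : Set (Mat (n + 1)), IsOpen O ∧ M0 ∈ O ∧
      ∀ z, φ z ∈ O → ∀ (t : Fin (k + 1) → Fin (n + 1)) (j1 j2 : Fin (k + 1)), j1 ≠ j2 →
        M0 (t j1) (t j1) = 0 → M0 (t j2) (t j2) = 0 → ‖St (cc k e' (cu φ i) z) t‖ < ε := by
  classical
  obtain ⟨O1, hO1, hMO1, hO1i, K2, hK2, hjet⟩ :=
    jets_bd (T := TF (fermatForms κ (e' + k))) hi k
  obtain ⟨δ, hδ, hst⟩ := st_small (chart i M0) e' k K2 hε
  have hch := continuousAt_chart hi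
  have hev : ∀ᶠ M1 : Mat (n + 1) in 𝓝 M0, ‖chart i M1 - chart i M0‖ < δ := by
    have h1 : Tendsto (fun M1 : Mat (n + 1) => ‖chart i M1 - chart i M0‖) (𝓝 M0) (𝓝 0) := by
      have h2 := (hch.tendsto.sub_const (chart i M0)).norm
      rwa [sub_self, norm_zero] at h2
    exact h1.eventually_lt_const hδ
  obtain ⟨O3, hO3s, hO3, hMO3⟩ := _root_.mem_nhds_iff.1 hev
  refine ⟨O1 ∩ O3, hO1.inter hO3, ⟨hMO1, hMO3⟩, fun z hz t j1 j2 hj h1 h2 => ?_⟩
  have han := cu_an hφ.hol i (hO1i _ hz.1)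
  rw [← cj_jet han]
  refine hst t j1 j2 hj ((chart_zero (TF_PM hM0) hi).2 h1) ((chart_zero (TF_PM hM0) hi).2 h2) _
    ?_ ?_
  · rw [pi_norm_le_iff_of_nonneg hK2]
    intro j
    exact hjet φ hφ z hz.1 j
  · rw [jet_zero]
    exact hO3s hz.2

end Pool.Agent.Helper65.HD
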