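import Pool.Agent.Helper65.HD.Rg
import Pool.Agent.Helper65.GG.Multi

/-!
The factorization of entire curves for classes with the rigidity property.
-/

set_option autoImplicit false

open Filter Topology Metric MvPolynomial Set

namespace Pool.Agent.Helper65.HD

open Pool.Agent.W602.GT Pool.Agent.N155.BB Pool.Agent.Y190.OP Pool.Agent.N155
  Pool.Agent.N155.GD Pool.Agent.Helper65.BF Pool.Agent.Helper65.GG

section

variable {n k : ℕ} {G : (ℂ → Mat (n + 1)) → ℂ → ℂ}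

/-- **Rigidity.** -/
theorem disc_engine' {T : Set (Mat (n + 1))} (hT : IsCompact T) (hTP : T ⊆ PM)
    (hR : ∀ c : ℝ, 0 < c → Rigid T (BCw T c)) (hJ : JI T k G)
    (hk : 0 < k) (hnd : ND T G) :
    ∃ (S : Finset (ℂ → Mat (n + 1))) (R κ c0 : ℝ), 0 < R ∧ 0 < κ ∧ 0 < c0 ∧
      (∀ g ∈ S, BCw T c0 g ∧ ∃ p q : ℂ, LinearIndependent ℝ ![p, q] ∧
        (∀ z, g (z + p) = g z) ∧ ∀ z, g (z + q) = g z) ∧
      (∀ (a : ℂ) (r : ℝ) (φ : ℂ → Mat (n + 1)), CvOn T (ball a r) φ →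
        (∀ w ∈ ball a r, 1 / 2 ≤ ‖G φ w‖ ∧ ‖G φ w‖ ≤ 2) → ∀ z : ℂ, ‖z - a‖ ≤ r - R →
        ∃ g ∈ S, ∃ w : ℂ, ‖φ z - g w‖ ≤ Real.exp (-κ * ((r - 2) ^ 2 - ‖z - a‖ ^ 2))) ∧
      ∀ φ : ℂ → Mat (n + 1), CvOn T univ φ → (∀ w, 1 / 2 ≤ ‖G φ w‖ ∧ ‖G φ w‖ ≤ 2) →
        ∃ g ∈ S, ∃ α β : ℂ, α ≠ 0 ∧ ∀ z, φ z = g (α * z + β) := by
  classical
  obtain ⟨c1, C1, hc1, hC1, htwo⟩ := two_sided hJ hk hT hTP hnd
  set ρ : ℝ := 2 / C1 with hρ
  have hρ0 : 0 < ρ := by positivity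
  have hρc : (ρ : ℂ) ≠ 0 := by exact_mod_cast hρ0.ne'
  set c0 : ℝ := ρ * c1 with hc0
  have hc0p : 0 < c0 := by positivity
  have hcls := BCw.cls hT hTP hc0p
  have hdcl := dcl_of hT hTP hc0p
  have hR' := hR c0 hc0p
  obtain ⟨S, hS1, hS2⟩ := finite_class' hR' hcls
  obtain ⟨R0, κ0, hR0, hκ0, hdisc⟩ := disc_close' hR' hdcl
  -- the rescaled curves
  have hresc : ∀ (a : ℂ) (U : Set ℂ) (φ : ℂ → Mat (n + 1)),
      CvOn T U φ → (∀ w ∈ U, 1 / 2 ≤ ‖G φ w‖ ∧ ‖G φ w‖ ≤ 2) →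
      ∀ z : ℂ, ball (aff a ρ z) 2 ⊆ U →
      φ (aff a ρ z) ∈ T ∧ ‖fderiv ℝ (fun z => φ (aff a ρ z)) z‖ ≤ 2 ∧
        c0 ≤ ‖fderiv ℝ (fun z => φ (aff a ρ z)) z‖ := by
    intro a U φ hφ hG z hz
    have hzU : aff a ρ z ∈ U := hz (mem_ball_self two_pos)
    have hnorm : ‖fderiv ℝ (fun z => φ (aff a ρ z)) z‖ = ρ * ‖fderiv ℝ φ (aff a ρ z)‖ :=
      norm_fderiv_aff (Ψ := φ) hρ0.le (hφ.1.differentiableAt hzU)
    obtain ⟨h1, h2⟩ := htwo φ (aff a ρ z) (hφ.mono hz) (fun w hw => hG w (hz hw))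
    refine ⟨hφ.2 _ hzU, ?_, ?_⟩
    · rw [hnorm, hρ, div_mul_eq_mul_div, div_le_iff₀ hC1]
      linarith
    · rw [hnorm]
      exact mul_le_mul_of_nonneg_left h1 hρ0.le
  refine ⟨S, ρ * R0 + 2, κ0 / ρ ^ 2, c0, by positivity, by positivity, hc0p,
    fun g hg => ⟨hS1 g hg, two_periods' hR' hcls (hS1 g hg)⟩, ?_, ?_⟩
  · intro a r φ hφ hG z hz
    have hr : ρ * R0 ≤ r - 2 := by
      have := norm_nonneg (z - a)
      linarith
    have hmaps : ∀ z ∈ ball (0 : ℂ) ((r - 2) / ρ), ball (aff a ρ z) 2 ⊆ ball a r := by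
      intro z hz w hw
      rw [mem_ball_zero_iff, lt_div_iff₀ hρ0] at hz
      rw [mem_ball] at hw ⊢
      have h1 : dist (aff a ρ z) a = ρ * ‖z‖ := by
        unfold aff
        rw [dist_eq_norm, add_sub_cancel_left, norm_mul, Complex.norm_real,
          Real.norm_of_nonneg hρ0.le]
      have h2 := dist_triangle w (aff a ρ z) a
      rw [h1] at h2
      nlinarith
    have hmem : ∀ z ∈ ball (0 : ℂ) ((r - 2) / ρ), aff a ρ z ∈ ball a r := fun z hz =>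
      hmaps z hz (mem_ball_self two_pos)
    have hD : Dw T c0 ((r - 2) / ρ) (fun z => φ (aff a ρ z)) :=
      ⟨(hφ.1.aff a ρ).mono hmem, fun z hz => (hresc a _ φ hφ hG z (hmaps z hz)).1,
        fun z hz => (hresc a _ φ hφ hG z (hmaps z hz)).2.1,
        fun z hz => (hresc a _ φ hφ hG z (hmaps z hz)).2.2⟩
    obtain ⟨Q, hQ, hQ2⟩ := hdisc ((r - 2) / ρ) _ (by
      rw [le_div_iff₀ hρ0]
      linarith) hD
    obtain ⟨g, hg, α, β, hαβ⟩ := hS2 Q hQ
    have hzz : aff a ρ ((z - a) / ρ) = z := by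
      unfold aff
      field_simp
      ring
    have hnz : ‖(z - a) / (ρ : ℂ)‖ = ‖z - a‖ / ρ := by
      rw [norm_div, Complex.norm_real, Real.norm_of_nonneg hρ0.le]
    obtain ⟨w, hw2⟩ := hQ2 ((z - a) / ρ) (by
      rw [hnz, div_le_iff₀ hρ0, sub_mul, div_mul_cancel₀ _ hρ0.ne']
      linarith)
    refine ⟨g, hg, α * w + β, ?_⟩
    rw [hzz, hαβ] at hw2
    refine hw2.trans (le_of_eq ?_)
    rw [hnz]
    congr 1
    field_simp
  · intro φ hφ hG
    have hmem : BCw T c0 (fun z => φ (aff 0 ρ z)) :=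
      ⟨(hφ.1.aff 0 ρ).mono fun z _ => mem_univ _,
        fun z => (hresc 0 _ φ hφ (fun w _ => hG w) z (subset_univ _)).1,
        fun z => (hresc 0 _ φ hφ (fun w _ => hG w) z (subset_univ _)).2.1,
        fun z => (hresc 0 _ φ hφ (fun w _ => hG w) z (subset_univ _)).2.2⟩
    obtain ⟨g, hg, α, β, hαβ⟩ := hS2 _ hmem
    obtain ⟨hα, -⟩ := hcls.alpha hmem (hS1 g hg) hαβ
    have hα0 : α ≠ 0 := by
      intro h0
      rw [h0, norm_zero] at hα
      linarith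
    refine ⟨g, hg, α / ρ, β, div_ne_zero hα0 hρc, fun z => ?_⟩
    have h1 := hαβ (z / ρ)
    have h3 : aff 0 ρ (z / ρ) = z := by
      unfold aff
      rw [zero_add, mul_div_cancel₀ _ hρc]
    rw [h3] at h1
    have h2 : α / ρ * z + β = α * (z / ρ) + β := by ring
    rw [h2, ← h1]

end

variable {n k : ℕ} {T : Set (Mat (n + 1))}

/-- a linear combination without degenerate curves -/
theorem exists_comb' {N : ℕ} {G : Fin N → (ℂ → Mat (n + 1)) → ℂ → ℂ}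
    (hJ : ∀ i, JI T k (G i)) (hT : IsCompact T) (hTP : T ⊆ PM) (hnd : NDf T G)
    (hR : ∀ c : ℝ, 0 < c → Rigid T (BCw T c)) :
    ∃ c : Fin N → ℂ, ND T (fun φ z => ∑ i, c i * G i φ z) := by
  classical
  obtain ⟨c0, hc0, hlow⟩ := low_fam hJ hT hTP hnd
  have hcls := BCw.cls hT hTP hc0
  obtain ⟨S, hS1, hS2⟩ := finite_class' (hR c0 hc0) hcls
  have hSbd : ∀ g ∈ S, BD T g := fun g hg => ⟨(hS1 g hg).hol, (hS1 g hg).mem, (hS1 g hg).bd⟩
  -- the vectors of the values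
  set ev : S → Module.Dual ℂ (Fin N → ℂ) := fun g =>
    { toFun := fun c => ∑ i, c i * G i g.1 0
      map_add' := fun c c' => by
        simp only [Pi.add_apply, add_mul, Finset.sum_add_distrib]
      map_smul' := fun a c => by
        simp only [Pi.smul_apply, smul_eq_mul, RingHom.id_apply, Finset.mul_sum]
        exact Finset.sum_congr rfl fun i _ => by ring } with hev
  obtain ⟨c, hc⟩ := Module.Dual.exists_forall_ne_zero_of_forall_exists ev fun g => by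
    by_contra hcon
    push Not at hcon
    have h1 : ∀ i, G i g.1 0 = 0 := by
      intro i
      have h2 : ∑ j, (Pi.single i 1 : Fin N → ℂ) j * G j g.1 0 = 0 := hcon (Pi.single i 1)
      simpa [Pi.single_apply] using h2
    have h2 := hnd g.1 (hSbd g.1 g.2) (fun i z => by
      rw [(hJ i).const_bd (hSbd g.1 g.2) z 0, h1]) 0
    have h3 := (hS1 g.1 g.2).low 0
    rw [h2, norm_zero] at h3
    linarith
  refine ⟨c, fun φ hφ h0 z => ?_⟩
  by_contra hz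
  obtain ⟨a, ρ, hρ, hbd, h1⟩ := rescale_bd hφ hz
  obtain ⟨g, hg, α, β, hαβ⟩ := hS2 _ ⟨hbd.hol, hbd.mem, hbd.bd, hlow _ hbd h1⟩
  have hJc := JI.sum hJ c
  -- the value along the rescaled curve
  have h2 : ∑ i, c i * G i (fun z => φ (aff a ρ z)) 0 = 0 := by
    have h3 := hJc.comp φ univ isOpen_univ (hφ.cv _) univ (aff a ρ) isOpen_univ
      (aff_diff _ _).differentiableOn (fun _ _ => mem_univ _) 0 (mem_univ _)
    have h3' : ∑ i, c i * G i φ (aff a ρ 0) = 0 := h0 _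
    exact h3.trans (by rw [h3', mul_zero])
  have h4 : (fun z => φ (aff a ρ z)) = fun z => g (α * z + β) := funext hαβ
  have hd : DifferentiableOn ℂ (fun z : ℂ => α * z + β) univ :=
    ((differentiable_id.const_mul α).add_const β).differentiableOn
  have h5 := hJc.comp g univ isOpen_univ ((hSbd g hg).cv _) univ (fun z => α * z + β) isOpen_univ
    hd (fun _ _ => mem_univ _) 0 (mem_univ _)
  have hder : deriv (fun z : ℂ => α * z + β) 0 = α := by
    have h6 : HasDerivAt (fun z : ℂ => α * z + β) (α * 1) 0 :=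
      ((hasDerivAt_id (0 : ℂ)).const_mul α).add_const β
    rw [h6.deriv, mul_one]
  rw [hder] at h5
  rw [h4] at h2
  have h6 : α ^ k * ∑ i, c i * G i g (α * 0 + β) = 0 := h5.symm.trans h2
  have hα : α ≠ 0 := by
    intro hα0
    have h7 : (fun z => φ (aff a ρ z)) = fun _ => g β := by
      rw [h4]
      funext z
      rw [hα0, zero_mul, zero_add]
    rw [h7] at h1
    simp at h1
    linarith
  have h7 : ∑ i, c i * G i g (α * 0 + β) = ∑ i, c i * G i g 0 :=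
    Finset.sum_congr rfl fun i _ => by rw [(hJ i).const_bd (hSbd g hg) _ 0]
  rw [h7] at h6
  exact hc ⟨g, hg⟩ ((mul_eq_zero.1 h6).resolve_left (pow_ne_zero _ hα))

/-- **All entire curves factor through finitely many doubly periodic curves.** -/
theorem core_all' {N : ℕ} {k : Fin N → ℕ} {G : Fin N → (ℂ → Mat (n + 1)) → ℂ → ℂ}
    (hT : IsCompact T) (hTP : T ⊆ PM) (hJ : ∀ i, JI T (k i) (G i))
    (hk : ∀ i, 0 < k i) (hnd : NDf T G)
    (hR : ∀ c : ℝ, 0 < c → Rigid T (BCw T c)) :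
    ∃ (S : Finset (ℂ → Mat (n + 1))) (c0 : ℝ), 0 < c0 ∧
      (∀ g ∈ S, BCw T c0 g ∧ ∃ p q : ℂ, LinearIndependent ℝ ![p, q] ∧
        (∀ z, g (z + p) = g z) ∧ ∀ z, g (z + q) = g z) ∧
      ∀ φ : ℂ → Mat (n + 1), CvOn T univ φ → (∃ z, fderiv ℝ φ z ≠ 0) →
        ∃ g ∈ S, ∃ h : ℂ → ℂ, Differentiable ℂ h ∧ ∀ z, φ z = g (h z) := by
  classical
  set K : ℕ := ∏ i, k i with hK
  have hKp : 0 < K := Finset.prod_pos fun i _ => hk i
  have hdvd : ∀ i, k i ∣ K := fun i => Finset.dvd_prod_of_mem k (Finset.mem_univ i)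
  have hpos : ∀ i, 0 < K / k i := fun i => Nat.div_pos (Nat.le_of_dvd hKp (hdvd i)) (hk i)
  set G' : Fin N → (ℂ → Mat (n + 1)) → ℂ → ℂ := fun i φ z => G i φ z ^ (K / k i) with hG'
  have hJ' : ∀ i, JI T K (G' i) := by
    intro i
    have h1 := (hJ i).pow (hpos i)
    rwa [Nat.mul_div_cancel' (hdvd i)] at h1
  have hnd' : NDf T G' := fun φ hφ h0 => hnd φ hφ fun i z =>
    (pow_eq_zero_iff (hpos i).ne').1 (h0 i z)
  obtain ⟨c, hc⟩ := exists_comb' hJ' hT hTP hnd' hR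
  have hJc := JI.sum hJ' c
  obtain ⟨S, R, κ, c0, -, hκ, hc0, hS, hdisc, -⟩ := disc_engine' hT hTP hR hJc hKp hc
  refine ⟨S, c0, hc0, hS, fun φ hφ hne => ?_⟩
  have hhol : ∀ g ∈ S, HolP univ g := fun g hg => (hS g hg).1.hol
  refine factor (fun g hg => ⟨(hS g hg).1.hol, fun w h0 => ?_, (hS g hg).2⟩) hφ.1 fun z => ?_
  · have h1 := (hS g hg).1.low w
    rw [h0, norm_zero] at h1
    linarith
  · by_contra hcon
    push Not at hcon
    obtain ⟨F, -, hF⟩ := exists_local hφ.1 z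
    have hy := hF.self_of_nhds.1
    have hchow : ∀ g ∈ S, ∃ (D : ℕ) (P : MvPolynomial (Fin (n + 1)) ℂ), P.IsHomogeneous D ∧
        (∀ z x, OnL (g z) x → eval x P = 0) ∧ eval (F z) P ≠ 0 := by
      intro g hg
      obtain ⟨p, q, hind, hp, hq⟩ := (hS g hg).2
      refine chow (hhol g hg) (hS g hg).1.bd hind hp hq hy.1 fun w hw => ?_
      exact hcon g hg w (by rw [hw]; exact hy.2)
    choose! D P hPh hPg hPy using hchow
    have hPS : (∏ g ∈ S, P g).IsHomogeneous (∑ g ∈ S, D g) := IsHomogeneous.prod _ _ _ hPh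
    have h1 := main_zero hT hTP hJc hKp hc hκ hdisc hφ hne hPS (fun g hg w => by
      refine ⟨(hhol g hg).mem_PM (mem_univ w), ?_⟩
      obtain ⟨F', -, hF'⟩ := exists_local (hhol g hg) w
      have hx := hF'.self_of_nhds.1
      rw [hx.2, np_Phi hPS hx.1]
      unfold nq
      rw [map_prod, Finset.prod_eq_zero hg (hPg g hg w _ hx), norm_zero,
        zero_pow two_ne_zero, zero_div]) z
    rw [hy.2, np_Phi hPS hy.1] at h1
    unfold nq at h1
    rw [div_eq_zero_iff] at h1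
    rcases h1 with h1 | h1
    · rw [pow_eq_zero_iff two_ne_zero, norm_eq_zero, map_prod, Finset.prod_eq_zero_iff] at h1
      obtain ⟨g, hg, h2⟩ := h1
      exact hPy g hg h2
    · exact (pow_ne_zero _ (BB.sum_pos hy.1).ne') h1

end Pool.Agent.Helper65.HD
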