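import Pool.Agent.Helper65.HD.Jp
import Pool.Agent.Helper65.GG.Fer

/-!
The Wronskian as an invariant jet differential on the Fermat covers of projective spaces.
-/

set_option autoImplicit false

open Filter Topology Metric MvPolynomial Set LinearAlgebra.Projectivization

namespace Pool.Agent.Helper65.HD

open Pool.Agent.W602.GT Pool.Agent.N155.BB Pool.Agent.Y190.OP Pool.Agent.N155
  Pool.Agent.N155.GD Pool.Agent.Helper65.BF Pool.Agent.Helper65.GG

/-! ### triangular transformations -/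

theorem st_tri {ι : Type} {r : ℕ} {s s' : Fin r → ι → ℂ} {L : Fin r → Fin r → ℂ}
    (hL : ∀ k j, k < j → L k j = 0) (hs : ∀ k l, s' k l = ∑ j, L k j * s j l) (t : Fin r → ι) :
    St s' t = (∏ k, L k k) * St s t := by
  unfold St
  have h1 : (Matrix.of fun i k => s' k (t i) : Matrix (Fin r) (Fin r) ℂ) =
      (Matrix.of fun i k => s k (t i) : Matrix (Fin r) (Fin r) ℂ) *
        (Matrix.of L : Matrix (Fin r) (Fin r) ℂ).transpose := by
    ext i k
    rw [Matrix.mul_apply]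
    simp only [Matrix.of_apply, Matrix.transpose_apply]
    rw [hs]
    exact Finset.sum_congr rfl fun j _ => mul_comm _ _
  rw [h1, Matrix.det_mul, Matrix.det_transpose, mul_comm]
  congr 1
  have h2 : (Matrix.of L : Matrix (Fin r) (Fin r) ℂ).IsLowerTriangular := fun i j hij => hL i j hij
  rw [Matrix.det_of_isLowerTriangular _ h2]
  rfl

theorem range_fin {N k : ℕ} (hk : k ≤ N) (f : ℕ → ℂ) :
    ∑ j ∈ Finset.range (k + 1), f j =
      ∑ j : Fin (N + 1), if (j : ℕ) ≤ k then f j else 0 := by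
  rw [Fin.sum_univ_eq_sum_range (fun j => if j ≤ k then f j else 0) (N + 1), ← Finset.sum_filter]
  refine Finset.sum_congr ?_ fun _ _ => rfl
  ext j
  simp only [Finset.mem_range, Finset.mem_filter]
  omega

variable {n N m e : ℕ} {ℓ : Fin (n + 1) → Fin (N + 1) → ℂ}

/-- the columns -/
noncomputable def cc (N e : ℕ) (γ : ℂ → Fin (n + 1) → ℂ) (z : ℂ) :
    Fin (N + 1) → Fin (n + 1) → ℂ :=
  fun k l => Ev N (e + N) k (jt (fun w => γ w l) z)

/-- the columns as functions of the jet -/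
noncomputable def cj (e : ℕ) (a : Fin (N + 1) → Fin (n + 1) → ℂ) :
    Fin (N + 1) → Fin (n + 1) → ℂ :=
  fun k l => Ev N (e + N) k fun i => if h : i < N + 1 then a ⟨i, h⟩ l else 0

theorem iter_pi {γ : ℂ → Fin (n + 1) → ℂ} {z : ℂ} (hγ : AnalyticAt ℂ γ z) (i : ℕ)
    (l : Fin (n + 1)) : iteratedDeriv i γ z l = iteratedDeriv i (fun w => γ w l) z := by
  induction i generalizing z with
  | zero => rw [iteratedDeriv_zero, iteratedDeriv_zero]
  | succ i ih =>
    have h1 : (fun w => iteratedDeriv i γ w l) =ᶠ[𝓝 z] iteratedDeriv i (fun w => γ w l) := by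
      filter_upwards [hγ.eventually_analyticAt] with w hw
      exact ih hw
    rw [iteratedDeriv_succ, iteratedDeriv_succ, ← h1.deriv_eq]
    have h2 := (iter_analytic hγ i).differentiableAt.hasDerivAt
    exact ((hasDerivAt_pi.1 h2) l).deriv.symm

theorem cj_jet {γ : ℂ → Fin (n + 1) → ℂ} {z : ℂ} (hγ : AnalyticAt ℂ γ z) :
    cj e (jet N γ z) = cc N e γ z := by
  funext k l
  unfold cj cc
  apply Ev_congr
  intro i hi
  have h1 : i < N + 1 := by omega
  rw [dif_pos h1]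
  exact iter_pi hγ i l

theorem cc_zero {γ : ℂ → Fin (n + 1) → ℂ} {z : ℂ} (l : Fin (n + 1)) :
    cc N e γ z 0 l = γ z l ^ N := by
  unfold cc
  have h : (((0 : Fin (N + 1)) : ℕ)) = 0 := rfl
  rw [h, Ev_zero, jt_zero]

/-- **The columns are tangent.** -/
theorem cc_rel (hg : GeneralPosition ℓ) (hr : N + 1 ≤ n + 1) {γ : ℂ → Fin (n + 1) → ℂ} {z : ℂ}
    (hγ : AnalyticAt ℂ γ z) (hX : ∀ᶠ s in 𝓝 z, γ s ∈ Cone (fermatForms ℓ (e + N)))
    (k : Fin (N + 1)) :
    ∃ u : Fin (N + 1) → ℂ, ∀ l, γ z l ^ e * cc N e γ z k l = ∑ j, ℓ l j * u j := by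
  have hγl : ∀ l, AnalyticAt ℂ (fun w => γ w l) z := fun l => (analyticAt_pi_iff.1 hγ) l
  refine exists_u (y := fun l => γ z l ^ e * cc N e γ z k l)
    (hg.mt (Fin.castLE_injective hr)) fun c hc => ?_
  have h1 : ∀ l, iteratedDeriv k (fun w => c l * γ w l ^ (e + N)) z =
      c l * (γ z l ^ e * cc N e γ z k l) := by
    intro l
    rw [iteratedDeriv_const_mul_field, Ev_pow (hγl l) (by omega)]
    rfl
  have h2 := iteratedDeriv_fun_sum (𝕜 := ℂ) (n := k) (x := z) (I := Finset.univ)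
    (f := fun (l : Fin (n + 1)) w => c l * γ w l ^ (e + N))
    fun l _ => (analyticAt_const.mul ((hγl l).pow _)).contDiffAt
  have h3 : (fun w => ∑ l, c l * γ w l ^ (e + N)) =ᶠ[𝓝 z] fun _ => 0 := by
    filter_upwards [hX] with s hs
    exact (mem_cone.1 hs).2 c hc
  rw [h3.iteratedDeriv_eq, iteratedDeriv_const] at h2
  have h4 : (if (k : ℕ) = 0 then (0 : ℂ) else 0) = 0 := by simp
  rw [h4] at h2
  rw [h2]
  exact Finset.sum_congr rfl fun l _ => (h1 l).symm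

/-- the coefficients for products -/
noncomputable def Lh (N e : ℕ) (h : ℂ → ℂ) (z : ℂ) (k j : Fin (N + 1)) : ℂ :=
  if (j : ℕ) ≤ k then ((k : ℕ).choose j : ℂ) * Ev N (e + N) (k - j) (jt h z) else 0

theorem Lh_lower {h : ℂ → ℂ} {z : ℂ} (k j : Fin (N + 1)) (hkj : k < j) : Lh N e h z k j = 0 := by
  unfold Lh
  rw [if_neg]
  rw [not_le]
  exact hkj

theorem Lh_diag {h : ℂ → ℂ} {z : ℂ} (k : Fin (N + 1)) : Lh N e h z k k = h z ^ N := by
  unfold Lh
  rw [if_pos le_rfl, Nat.choose_self, Nat.sub_self, Ev_zero, jt_zero]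
  simp

theorem cc_mul {γ : ℂ → Fin (n + 1) → ℂ} {h : ℂ → ℂ} {z : ℂ} (hγ : AnalyticAt ℂ γ z)
    (hh : AnalyticAt ℂ h z) (hh0 : h z ≠ 0) (k : Fin (N + 1)) (l : Fin (n + 1)) :
    cc N e (fun w => h w • γ w) z k l = ∑ j, Lh N e h z k j * cc N e γ z j l := by
  have hγl : AnalyticAt ℂ (fun w => γ w l) z := (analyticAt_pi_iff.1 hγ) l
  unfold cc
  have h1 := Ev_mul hh hh0 hγl (N := N) (e := e) (k := k) (by omega)
  simp only [Pi.smul_apply, smul_eq_mul]
  rw [h1, range_fin (by omega : (k : ℕ) ≤ N)]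
  refine Finset.sum_congr rfl fun j _ => ?_
  unfold Lh
  split_ifs with h2
  · rfl
  · rw [zero_mul]

/-- the coefficients for compositions -/
noncomputable def Lb (N : ℕ) (ψ : ℂ → ℂ) (z : ℂ) (k j : Fin (N + 1)) : ℂ :=
  if (j : ℕ) ≤ k then Bf ψ k j z else 0

theorem Lb_lower {ψ : ℂ → ℂ} {z : ℂ} (k j : Fin (N + 1)) (hkj : k < j) : Lb N ψ z k j = 0 := by
  unfold Lb
  rw [if_neg]
  rw [not_le]
  exact hkj

theorem Lb_diag {ψ : ℂ → ℂ} {z : ℂ} (k : Fin (N + 1)) :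
    Lb N ψ z k k = deriv ψ z ^ (k : ℕ) := by
  unfold Lb
  rw [if_pos le_rfl, Bf_diag]

theorem cc_comp {γ : ℂ → Fin (n + 1) → ℂ} {ψ : ℂ → ℂ} {z : ℂ} (hψ : AnalyticAt ℂ ψ z)
    (hγ : AnalyticAt ℂ γ (ψ z)) (k : Fin (N + 1)) (l : Fin (n + 1)) :
    cc N e (fun w => γ (ψ w)) z k l = ∑ j, Lb N ψ z k j * cc N e γ (ψ z) j l := by
  have hγl : AnalyticAt ℂ (fun w => γ w l) (ψ z) := (analyticAt_pi_iff.1 hγ) l
  unfold cc
  have h1 := Ev_comp hψ hγl (N := N) (e := e) (k := k) (by omega)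
  rw [h1, range_fin (by omega : (k : ℕ) ≤ N)]
  refine Finset.sum_congr rfl fun j _ => ?_
  unfold Lb
  split_ifs with h2
  · rfl
  · rw [zero_mul]

/-- the Wronskian -/
noncomputable def wn (hr : N + 1 ≤ n + 1) (ℓ : Fin (n + 1) → Fin (N + 1) → ℂ) (e : ℕ)
    (a : Fin (N + 1) → Fin (n + 1) → ℂ) : ℂ :=
  Qt ℓ (fun l => a 0 l ^ e) (cj e a) (tz hr (Zs (a 0)))

theorem jet_zero {γ : ℂ → Fin (n + 1) → ℂ} {z : ℂ} : jet N γ z 0 = γ z := by
  change iteratedDeriv 0 γ z = _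
  rw [iteratedDeriv_zero]

theorem wn_jet {hr : N + 1 ≤ n + 1} {γ : ℂ → Fin (n + 1) → ℂ} {z : ℂ} (hγ : AnalyticAt ℂ γ z) :
    wn hr ℓ e (jet N γ z) = Qt ℓ (fun l => γ z l ^ e) (cc N e γ z) (tz hr (Zs (γ z))) := by
  unfold wn
  rw [cj_jet hγ, jet_zero]

/-- the rows -/
theorem wn_rows {hr : N + 1 ≤ n + 1} (hg : GeneralPosition ℓ) (he : e ≠ 0)
    {γ : ℂ → Fin (n + 1) → ℂ} {z : ℂ}
    (hγ : AnalyticAt ℂ γ z) (hX : ∀ᶠ s in 𝓝 z, γ s ∈ Cone (fermatForms ℓ (e + N)))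
    {t : Fin (N + 1) → Fin (n + 1)} (ht : Adm (Zs (γ z)) t) :
    wn hr ℓ e (jet N γ z) = Qt ℓ (fun l => γ z l ^ e) (cc N e γ z) t := by
  rw [wn_jet hγ]
  apply Qt_indep hg (cc_rel hg hr hγ hX)
  · rw [Zs_pow he]
    exact tz_adm hr (exists_Adm hg (by omega) hr hX.self_of_nhds)
  · rwa [Zs_pow he]

theorem Qt_an {E : Type*} [NormedAddCommGroup E] [NormedSpace ℂ E] (hg : GeneralPosition ℓ)
    {x : E → Fin (n + 1) → ℂ} {s : E → Fin (N + 1) → Fin (n + 1) → ℂ} {p : E}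
    (hx : ∀ l, AnalyticAt ℂ (fun q => x q l) p) (hs : ∀ k l, AnalyticAt ℂ (fun q => s q k l) p)
    {t : Fin (N + 1) → Fin (n + 1)} (ht : Adm (Zs (x p)) t) :
    AnalyticAt ℂ (fun q => Qt ℓ (fun l => x q l ^ e) (s q) t) p := by
  have hS : AnalyticAt ℂ (fun q => St (s q) t) p := by
    unfold St
    simp only [Matrix.det_apply]
    refine Finset.analyticAt_fun_sum _ fun σ _ => ?_
    have h1 : AnalyticAt ℂ (fun q => ∏ i, (Matrix.of fun i k => s q k (t i) :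
        Matrix (Fin (N + 1)) (Fin (N + 1)) ℂ) (σ i) i) p :=
      Finset.analyticAt_fun_prod _ fun i _ => hs _ _
    have h2 : AnalyticAt ℂ (fun q => ((Equiv.Perm.sign σ : ℤ) : ℂ) *
        ∏ i, (Matrix.of fun i k => s q k (t i) :
        Matrix (Fin (N + 1)) (Fin (N + 1)) ℂ) (σ i) i) p := analyticAt_const.mul h1
    refine h2.congr (Eventually.of_forall fun q => ?_)
    simp only [Units.smul_def, zsmul_eq_mul]
  have hG : AnalyticAt ℂ (fun q => Gt (fun l => x q l ^ e) t) p := by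
    unfold Gt
    exact Finset.analyticAt_fun_prod _ fun l _ => (hx l).pow e
  unfold Qt
  refine hS.div (analyticAt_const.mul hG) (mul_ne_zero (hg.mt ht.1) ?_)
  exact Gt_ne.2 fun l hl => pow_ne_zero _ (adm_ne ht hl)

theorem cj_an {E : Type*} [NormedAddCommGroup E] [NormedSpace ℂ E]
    {a : E → Fin (N + 1) → Fin (n + 1) → ℂ} {p : E}
    (ha : ∀ i l, AnalyticAt ℂ (fun q => a q i l) p) (k : Fin (N + 1)) (l : Fin (n + 1)) :
    AnalyticAt ℂ (fun q => cj e (a q) k l) p := by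
  unfold cj
  apply Ev_an
  intro i
  by_cases h : i < N + 1
  · simp only [dif_pos h]
    exact ha _ _
  · simp only [dif_neg h]
    exact analyticAt_const

theorem prod_deriv_pow (c : ℂ) : ∏ k : Fin (N + 1), c ^ (k : ℕ) = c ^ (N * (N + 1) / 2) := by
  rw [Finset.prod_pow_eq_pow_sum, Fin.sum_univ_eq_sum_range (fun i => i) (N + 1),
    Finset.sum_range_id]
  congr 1
  rw [Nat.add_sub_cancel, mul_comm]

theorem st_sing (hN : 0 < N) {γ : ℂ → Fin (n + 1) → ℂ} {z : ℂ} (hγ : AnalyticAt ℂ γ z) {c : ℂ}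
    (hc : deriv γ z = c • γ z) (t : Fin (N + 1) → Fin (n + 1)) : St (cc N e γ z) t = 0 := by
  obtain ⟨N', rfl⟩ : ∃ N', N = N' + 1 := ⟨N - 1, by omega⟩
  have h1 : ∀ l, cc (N' + 1) e γ z 1 l = ((e + (N' + 1) : ℕ) : ℂ) * c *
      cc (N' + 1) e γ z 0 l := by
    intro l
    rw [cc_zero]
    unfold cc
    have h2 : (((1 : Fin (N' + 1 + 1)) : ℕ)) = 1 := rfl
    have h3 : jt (fun w => γ w l) z 1 = c * γ z l := by
      unfold jt
      rw [← iter_pi hγ, iteratedDeriv_one, hc, Pi.smul_apply, smul_eq_mul]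
    rw [h2, Ev_one, jt_zero, h3, Nat.add_sub_cancel, pow_succ]
    ring
  unfold St
  rw [← Matrix.exists_mulVec_eq_zero_iff]
  refine ⟨Pi.single 1 1 - (((e + (N' + 1) : ℕ) : ℂ) * c) • Pi.single 0 1, fun h0 => ?_, ?_⟩
  · have h2 := congrFun h0 1
    simp at h2
  · rw [Matrix.mulVec_sub, Matrix.mulVec_smul]
    funext i
    simp only [Pi.sub_apply, Pi.smul_apply, Matrix.mulVec_single_one, Matrix.col_apply,
      Matrix.of_apply, smul_eq_mul, Pi.zero_apply]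
    rw [h1, sub_self]

/-- **The Wronskian is a jet differential of order `N` and weight `N (N + 1) / 2`.** -/
theorem jetDiff_wn (hr : N + 1 ≤ n + 1) (hg : GeneralPosition ℓ) (hN : 0 < N) (hn : n = m + N)
    (hme : m * e = N * (N + 1)) :
    JetDiff (Cone (fermatForms ℓ (e + N))) N (N * (N + 1) / 2) (wn hr ℓ e) := by
  have he : e ≠ 0 := by
    rintro rfl
    rw [mul_zero] at hme
    have : 0 < N * (N + 1) := by positivity
    omega
  refine ⟨?_, ?_, ?_, ?_⟩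
  · intro E _ _ _ Γ p hΓ hX
    have hi : ∀ (i : Fin (N + 1)) (l : Fin (n + 1)),
        AnalyticAt ℂ (fun q => jet N (Γ q) 0 i l) p := fun i l =>
      (analyticAt_pi_iff.1 (iter_param' hΓ i)) l
    have h0 : AnalyticAt ℂ (fun q => Γ q 0) p := by
      have := iter_param' hΓ 0
      simpa only [iteratedDeriv_zero] using this
    obtain ⟨t, ht⟩ := exists_Adm hg (by omega) hr hX.self_of_nhds
    have h3 : AnalyticAt ℂ (fun q => Qt ℓ (fun l => Γ q 0 l ^ e) (cj e (jet N (Γ q) 0)) t) p :=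
      Qt_an hg (fun l => (analyticAt_pi_iff.1 h0) l) (fun k l => cj_an hi k l) ht
    refine h3.congr ?_
    have e1 : ∀ᶠ q in 𝓝 p, ∀ᶠ s in 𝓝 (0 : ℂ), Γ q s ∈ Cone (fermatForms ℓ (e + N)) := by
      rw [nhds_prod_eq] at hX
      exact hX.curry
    have e2 : ∀ᶠ q in 𝓝 p, AnalyticAt ℂ (Γ q) 0 := by
      have h4 : Tendsto (fun q : E => (q, (0 : ℂ))) (𝓝 p) (𝓝 (p, 0)) :=
        (continuous_id.prodMk continuous_const).tendsto _
      filter_upwards [h4.eventually hΓ.eventually_analyticAt] with q hq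
      exact AnalyticAt.comp (g := fun q : E × ℂ => Γ q.1 q.2) (f := fun s : ℂ => (q, s)) hq
        (analyticAt_const.prod analyticAt_id)
    have e3 : ∀ᶠ q in 𝓝 p, Adm (Zs (Γ q 0)) t := h0.continuousAt.eventually (op_adm ht)
    filter_upwards [e1, e2, e3] with q hq1 hq2 hq3
    rw [cj_jet hq2]
    exact (wn_rows hg he hq2 hq1 hq3).symm
  · intro γ h z hγ hh hh0 hX
    have ht := tz_adm hr (exists_Adm hg (by omega) hr hX.self_of_nhds)
    rw [wn_jet hγ, wn_jet (hh.fun_smul hγ), Zs_smul hh0]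
    have h1 := st_tri (Lh_lower (N := N) (e := e) (h := h) (z := z)) (cc_mul hγ hh hh0)
      (tz hr (Zs (γ z)))
    simp only [Lh_diag, Finset.prod_const, Finset.card_univ, Fintype.card_fin] at h1
    unfold Qt
    have h2 : Gt (fun l => (h z • γ z) l ^ e) (tz hr (Zs (γ z))) =
        (h z ^ e) ^ m * Gt (fun l => γ z l ^ e) (tz hr (Zs (γ z))) := by
      have h3 : (fun l => (h z • γ z) l ^ e) = fun l => h z ^ e * γ z l ^ e := by
        funext l
        rw [Pi.smul_apply, smul_eq_mul, mul_pow]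
      rw [h3, Gt_smul ht.1]
      congr 2
      omega
    rw [h2, h1]
    have h4 : (h z ^ N) ^ (N + 1) = (h z ^ e) ^ m := by
      rw [← pow_mul, ← pow_mul, mul_comm e m, hme]
    rw [h4]
    have h5 : (h z ^ e) ^ m ≠ 0 := pow_ne_zero _ (pow_ne_zero _ hh0)
    rw [← mul_assoc, mul_comm (Mt ℓ _), mul_assoc, mul_div_mul_left _ _ h5]
  · intro γ ψ z hψ hγ hX
    have hc : AnalyticAt ℂ (fun w => γ (ψ w)) z := hγ.comp hψ
    rw [wn_jet hγ, wn_jet hc]
    have h1 := st_tri (Lb_lower (N := N) (ψ := ψ) (z := z)) (cc_comp (e := e) hψ hγ)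
      (tz hr (Zs (γ (ψ z))))
    simp only [Lb_diag] at h1
    rw [prod_deriv_pow] at h1
    unfold Qt
    rw [h1, mul_div_assoc]
  · intro γ z hγ hX ⟨c, hc⟩
    rw [wn_jet hγ]
    unfold Qt
    have h1 : St (cc N e γ z) (tz hr (Zs (γ z))) = 0 := by
      exact st_sing hN hγ hc _
    rw [h1, zero_div]

end Pool.Agent.Helper65.HD
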