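import Mathlib

/-!
The derivatives of the powers of a function.
-/

set_option autoImplicit false

open Filter Topology MvPolynomial Finset

namespace Pool.Agent.Helper65.HD

/-- the derivation with `X i ↦ X (i + 1)` -/
noncomputable def Dm : Derivation ℂ (MvPolynomial ℕ ℂ) (MvPolynomial ℕ ℂ) :=
  mkDerivation ℂ fun i => X (i + 1)

/-- the derivative of order `k` of the power `d`, divided by the power `d - k` -/
noncomputable def rho (d : ℕ) : ℕ → MvPolynomial ℕ ℂ
  | 0 => 1
  | k + 1 => C ((d : ℂ) - k) * X 1 * rho d k + X 0 * Dm (rho d k)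

/-- the sequence of the derivatives -/
noncomputable def jt (x : ℂ → ℂ) (z : ℂ) : ℕ → ℂ := fun i => iteratedDeriv i x z

theorem iter_an {x : ℂ → ℂ} {z : ℂ} (hx : AnalyticAt ℂ x z) (i : ℕ) :
    AnalyticAt ℂ (iteratedDeriv i x) z := by
  rw [iteratedDeriv_eq_iterate]
  exact hx.iterated_deriv i

theorem iter_hd {x : ℂ → ℂ} {z : ℂ} (hx : AnalyticAt ℂ x z) (i : ℕ) :
    HasDerivAt (iteratedDeriv i x) (iteratedDeriv (i + 1) x z) z := by
  rw [iteratedDeriv_succ]
  exact (iter_an hx i).differentiableAt.hasDerivAt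

theorem eval_hd {x : ℂ → ℂ} {z : ℂ} (hx : AnalyticAt ℂ x z) (p : MvPolynomial ℕ ℂ) :
    HasDerivAt (fun w => eval (jt x w) p) (eval (jt x z) (Dm p)) z := by
  induction p using MvPolynomial.induction_on with
  | C a =>
    have h1 : Dm (C a) = 0 := Derivation.map_algebraMap _ _
    rw [h1, map_zero]
    simp only [eval_C]
    exact hasDerivAt_const z a
  | add p q hp hq =>
    rw [map_add, map_add]
    simp only [map_add]
    exact hp.add hq
  | mul_X p i hp =>
    have h1 : Dm (p * X i) = p * X (i + 1) + X i * Dm p := by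
      unfold Dm
      rw [Derivation.leibniz, mkDerivation_X]
      rfl
    rw [h1, map_add, map_mul, map_mul, eval_X, eval_X]
    simp only [map_mul, eval_X]
    have h2 := hp.mul (iter_hd hx i)
    have h3 : eval (jt x z) (Dm p) * iteratedDeriv i x z +
        eval (jt x z) p * iteratedDeriv (i + 1) x z =
        eval (jt x z) p * jt x z (i + 1) + jt x z i * eval (jt x z) (Dm p) := by
      unfold jt
      ring
    rw [← h3]
    exact h2

theorem pow_iter {x : ℂ → ℂ} {z : ℂ} (hx : AnalyticAt ℂ x z) (d : ℕ) {k : ℕ} (hk : k ≤ d) :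
    iteratedDeriv k (fun w => x w ^ d) z = x z ^ (d - k) * eval (jt x z) (rho d k) := by
  induction k generalizing z with
  | zero =>
    rw [iteratedDeriv_zero, Nat.sub_zero]
    simp [rho]
  | succ k ih =>
    have h1 : iteratedDeriv k (fun w => x w ^ d) =ᶠ[𝓝 z]
        fun w => x w ^ (d - k) * eval (jt x w) (rho d k) := by
      filter_upwards [hx.eventually_analyticAt] with w hw
      exact ih hw (by omega)
    rw [iteratedDeriv_succ, h1.deriv_eq]
    have hx' : HasDerivAt x (jt x z 1) z := by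
      have := iter_hd hx 0
      rw [iteratedDeriv_zero] at this
      exact this
    have h2 := (hx'.fun_pow (d - k)).fun_mul (eval_hd hx (rho d k))
    rw [h2.deriv]
    obtain ⟨j, hj⟩ := Nat.exists_eq_add_of_le hk
    have e1 : d - k = j + 1 := by omega
    have e2 : d - (k + 1) = j := by omega
    have e3 : ((d : ℂ) - k) = (j : ℂ) + 1 := by
      rw [hj]
      push_cast
      ring
    rw [e1, e2]
    simp only [rho, map_add, map_mul, eval_X, eval_C, e3, Nat.add_sub_cancel]
    have e4 : jt x z 0 = x z := by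
      unfold jt
      rw [iteratedDeriv_zero]
    rw [e4]
    push_cast
    ring

/-- dependence only on the first variables -/
noncomputable def Dep (k : ℕ) : Subalgebra ℂ (MvPolynomial ℕ ℂ) :=
  Algebra.adjoin ℂ (Set.range fun i : Fin (k + 1) => (X (i : ℕ) : MvPolynomial ℕ ℂ))

theorem dep_X {k i : ℕ} (h : i ≤ k) : (X i : MvPolynomial ℕ ℂ) ∈ Dep k :=
  Algebra.subset_adjoin ⟨⟨i, by omega⟩, rfl⟩

theorem dep_mono {k : ℕ} : Dep k ≤ Dep (k + 1) := by
  apply Algebra.adjoin_le
  rintro _ ⟨i, rfl⟩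
  exact dep_X (by omega)

theorem dep_D {k : ℕ} {p : MvPolynomial ℕ ℂ} (hp : p ∈ Dep k) : Dm p ∈ Dep (k + 1) := by
  refine Algebra.adjoin_induction (p := fun p _ => Dm p ∈ Dep (k + 1)) ?_ ?_ ?_ ?_ hp
  · rintro _ ⟨i, rfl⟩
    have h1 : Dm (X (i : ℕ)) = X ((i : ℕ) + 1) := by
      unfold Dm
      rw [mkDerivation_X]
    simp only [h1]
    exact dep_X (by omega)
  · intro r
    have h1 : Dm (algebraMap ℂ (MvPolynomial ℕ ℂ) r) = 0 := Derivation.map_algebraMap _ _
    rw [h1]
    exact Subalgebra.zero_mem _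
  · intro p q _ _ hp hq
    rw [map_add]
    exact Subalgebra.add_mem _ hp hq
  · intro p q hp' hq' hp hq
    have h1 : Dm (p * q) = p * Dm q + q * Dm p := Derivation.leibniz _ _ _
    rw [h1]
    exact Subalgebra.add_mem _ (Subalgebra.mul_mem _ (dep_mono hp') hq)
      (Subalgebra.mul_mem _ (dep_mono hq') hp)

theorem dep_rho (d k : ℕ) : rho d k ∈ Dep k := by
  induction k with
  | zero => exact Subalgebra.one_mem _
  | succ k ih =>
    unfold rho
    refine Subalgebra.add_mem _ (Subalgebra.mul_mem _ (Subalgebra.mul_mem _ ?_ (dep_X (by omega)))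
      (dep_mono ih)) (Subalgebra.mul_mem _ (dep_X (by omega)) (dep_D ih))
    exact Subalgebra.algebraMap_mem _ _

theorem dep_eval {k : ℕ} {p : MvPolynomial ℕ ℂ} (hp : p ∈ Dep k) {a b : ℕ → ℂ}
    (hab : ∀ i, i ≤ k → a i = b i) : eval a p = eval b p := by
  refine Algebra.adjoin_induction (p := fun p _ => eval a p = eval b p) ?_ ?_ ?_ ?_ hp
  · rintro _ ⟨i, rfl⟩
    simp only [eval_X]
    exact hab _ (by omega)
  · intro r
    have h1 : (algebraMap ℂ (MvPolynomial ℕ ℂ)) r = C r := rfl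
    rw [h1, eval_C, eval_C]
  · intro p q _ _ hp hq
    rw [map_add, map_add, hp, hq]
  · intro p q _ _ hp hq
    rw [map_mul, map_mul, hp, hq]

/-- the reduced derivative of order `k` of the power `d` -/
noncomputable def Ev (N d k : ℕ) (a : ℕ → ℂ) : ℂ := a 0 ^ (N - k) * eval a (rho d k)

theorem Ev_congr {N d k : ℕ} {a b : ℕ → ℂ} (hab : ∀ i, i ≤ k → a i = b i) :
    Ev N d k a = Ev N d k b := by
  unfold Ev
  rw [dep_eval (dep_rho d k) hab, hab 0 (by omega)]

theorem Ev_cont (N d k : ℕ) : Continuous (Ev N d k) := by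
  unfold Ev
  exact ((continuous_apply 0).pow _).mul (MvPolynomial.continuous_eval _)

theorem Ev_an {E : Type*} [NormedAddCommGroup E] [NormedSpace ℂ E] (N d k : ℕ)
    {a : E → ℕ → ℂ} {p : E} (ha : ∀ i, AnalyticAt ℂ (fun q => a q i) p) :
    AnalyticAt ℂ (fun q => Ev N d k (a q)) p := by
  unfold Ev
  refine ((ha 0).pow _).mul ?_
  exact AnalyticAt.aeval_mvPolynomial ha _

theorem jt_zero (x : ℂ → ℂ) (z : ℂ) : jt x z 0 = x z := by
  unfold jt
  rw [iteratedDeriv_zero]

theorem Ev_pow {x : ℂ → ℂ} {z : ℂ} (hx : AnalyticAt ℂ x z) {N e k : ℕ} (hk : k ≤ N) :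
    iteratedDeriv k (fun w => x w ^ (e + N)) z = x z ^ e * Ev N (e + N) k (jt x z) := by
  rw [pow_iter hx _ (by omega)]
  unfold Ev
  rw [jt_zero, ← mul_assoc, ← pow_add]
  congr 3
  omega

theorem eval_rho_zero (d k : ℕ) {a : ℕ → ℂ} (ha : a 0 = 0) :
    eval a (rho d k) = (∏ j ∈ range k, ((d : ℂ) - j)) * a 1 ^ k := by
  induction k with
  | zero => simp [rho]
  | succ k ih =>
    simp only [rho, map_add, map_mul, eval_X, eval_C, ha, ih, zero_mul, add_zero]
    rw [Finset.prod_range_succ, pow_succ]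
    ring

theorem Ev_zero {N d : ℕ} (a : ℕ → ℂ) : Ev N d 0 a = a 0 ^ N := by
  unfold Ev
  simp [rho]

theorem Ev_one {N d : ℕ} (a : ℕ → ℂ) : Ev N d 1 a = (d : ℂ) * a 0 ^ (N - 1) * a 1 := by
  unfold Ev
  have h1 : Dm 1 = 0 := Derivation.map_one_eq_zero _
  simp only [rho, map_add, map_mul, eval_X, eval_C, h1, map_zero, map_one]
  push_cast
  ring

theorem Ev_at_zero {N d k : ℕ} (hk : k < N) {a : ℕ → ℂ} (ha : a 0 = 0) : Ev N d k a = 0 := by
  unfold Ev
  rw [ha, zero_pow (by omega), zero_mul]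

/-- perturbation -/
theorem jt_add {x y : ℂ → ℂ} {z : ℂ} (hx : AnalyticAt ℂ x z) (hy : AnalyticAt ℂ y z) (ε : ℂ) :
    jt (fun w => x w + ε * y w) z = fun i => jt x z i + ε * jt y z i := by
  funext i
  unfold jt
  have h1 : AnalyticAt ℂ (fun w => ε * y w) z := analyticAt_const.mul hy
  rw [iteratedDeriv_fun_add hx.contDiffAt h1.contDiffAt, iteratedDeriv_const_mul_field]

theorem Ev_tendsto {x y : ℂ → ℂ} {z : ℂ} (hx : AnalyticAt ℂ x z) (hy : AnalyticAt ℂ y z)
    (N d k : ℕ) : Tendsto (fun ε => Ev N d k (jt (fun w => x w + ε * y w) z)) (𝓝[≠] 0)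
      (𝓝 (Ev N d k (jt x z))) := by
  have h1 : Continuous fun ε : ℂ => (fun i => jt x z i + ε * jt y z i : ℕ → ℂ) := by
    refine continuous_pi fun i => ?_
    fun_prop
  have h2 := ((Ev_cont N d k).comp h1).tendsto 0
  have h3 : (Ev N d k ∘ fun ε : ℂ => (fun i => jt x z i + ε * jt y z i : ℕ → ℂ)) 0 =
      Ev N d k (jt x z) := by
    simp
  rw [h3] at h2
  refine (h2.mono_left nhdsWithin_le_nhds).congr fun ε => ?_
  rw [jt_add hx hy]
  rfl

/-- **Products.** -/
theorem Ev_mul {h x : ℂ → ℂ} {z : ℂ} (hh : AnalyticAt ℂ h z) (hh0 : h z ≠ 0)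
    (hx : AnalyticAt ℂ x z) {N e k : ℕ} (hk : k ≤ N) :
    Ev N (e + N) k (jt (fun w => h w * x w) z) = ∑ j ∈ range (k + 1),
      ((k.choose j : ℂ) * Ev N (e + N) (k - j) (jt h z)) * Ev N (e + N) j (jt x z) := by
  have key : ∀ x : ℂ → ℂ, AnalyticAt ℂ x z → x z ≠ 0 →
      Ev N (e + N) k (jt (fun w => h w * x w) z) = ∑ j ∈ range (k + 1),
      ((k.choose j : ℂ) * Ev N (e + N) (k - j) (jt h z)) * Ev N (e + N) j (jt x z) := by
    intro x hx hx0
    have hne : (h z * x z) ^ e ≠ 0 := pow_ne_zero _ (mul_ne_zero hh0 hx0)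
    apply mul_left_cancel₀ hne
    rw [← Ev_pow (hh.fun_mul hx) hk]
    have h1 : (fun w => (h w * x w) ^ (e + N)) = fun w => x w ^ (e + N) * h w ^ (e + N) := by
      funext w
      rw [mul_pow, mul_comm]
    have e0 : iteratedDeriv k (fun w => x w ^ (e + N) * h w ^ (e + N)) z =
        ∑ i ∈ range (k + 1), (k.choose i : ℂ) * iteratedDeriv i (fun w => x w ^ (e + N)) z *
          iteratedDeriv (k - i) (fun w => h w ^ (e + N)) z :=
      iteratedDeriv_fun_mul (hx.fun_pow _).contDiffAt (hh.fun_pow _).contDiffAt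
    rw [h1, e0, Finset.mul_sum]
    refine Finset.sum_congr rfl fun j hj => ?_
    rw [Finset.mem_range] at hj
    have e1 := Ev_pow hx (N := N) (e := e) (k := j) (by omega)
    have e2 := Ev_pow hh (N := N) (e := e) (k := k - j) (by omega)
    rw [e1, e2, mul_pow]
    ring
  by_cases hx0 : x z = 0
  · have h1 := Ev_tendsto (hh.fun_mul hx) hh N (e + N) k
    have h2 : Tendsto (fun ε => ∑ j ∈ range (k + 1),
        ((k.choose j : ℂ) * Ev N (e + N) (k - j) (jt h z)) *
          Ev N (e + N) j (jt (fun w => x w + ε * 1) z)) (𝓝[≠] 0) (𝓝 (∑ j ∈ range (k + 1),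
        ((k.choose j : ℂ) * Ev N (e + N) (k - j) (jt h z)) * Ev N (e + N) j (jt x z))) :=
      tendsto_finsetSum _ fun j _ => (Ev_tendsto hx analyticAt_const N (e + N) j).const_mul _
    refine tendsto_nhds_unique h1 (h2.congr' ?_)
    filter_upwards [self_mem_nhdsWithin] with ε hε
    have hε' : ε ≠ 0 := hε
    have h3 := key (fun w => x w + ε * 1) (hx.add analyticAt_const) (by
      simp only [hx0, zero_add, mul_one]
      exact hε')
    rw [← h3]
    congr 2
    funext w
    ring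
  · exact key x hx hx0

/-- the coefficients of the derivatives of compositions -/
noncomputable def Bf (ψ : ℂ → ℂ) : ℕ → ℕ → ℂ → ℂ
  | 0, 0 => fun _ => 1
  | 0, _ + 1 => fun _ => 0
  | k + 1, 0 => deriv (Bf ψ k 0)
  | k + 1, j + 1 => fun w => deriv (Bf ψ k (j + 1)) w + deriv ψ w * Bf ψ k j w

theorem Bf_an {ψ : ℂ → ℂ} {z : ℂ} (hψ : AnalyticAt ℂ ψ z) (k j : ℕ) :
    AnalyticAt ℂ (Bf ψ k j) z := by
  induction k generalizing j with
  | zero =>
    cases j with
    | zero => exact analyticAt_const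
    | succ j => exact analyticAt_const
  | succ k ih =>
    cases j with
    | zero => exact (ih 0).deriv
    | succ j => exact (ih (j + 1)).deriv.add (hψ.deriv.mul (ih j))

theorem Bf_big {ψ : ℂ → ℂ} {k j : ℕ} (hkj : k < j) : Bf ψ k j = fun _ => 0 := by
  induction k generalizing j with
  | zero =>
    cases j with
    | zero => omega
    | succ j => rfl
  | succ k ih =>
    cases j with
    | zero => omega
    | succ j =>
      funext w
      simp only [Bf]
      rw [ih (j := j + 1) (by omega), ih (j := j) (by omega)]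
      simp

theorem Bf_diag {ψ : ℂ → ℂ} (k : ℕ) : Bf ψ k k = fun w => deriv ψ w ^ k := by
  induction k with
  | zero =>
    funext w
    simp [Bf]
  | succ k ih =>
    funext w
    simp only [Bf]
    rw [Bf_big (ψ := ψ) (k := k) (j := k + 1) (by omega), ih]
    simp only [deriv_const, zero_add]
    ring

/-- **Compositions.** -/
theorem iter_comp {f ψ : ℂ → ℂ} {z : ℂ} (hψ : AnalyticAt ℂ ψ z) (hf : AnalyticAt ℂ f (ψ z))
    (k : ℕ) : iteratedDeriv k (fun w => f (ψ w)) z =
      ∑ j ∈ range (k + 1), Bf ψ k j z * iteratedDeriv j f (ψ z) := by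
  induction k generalizing z with
  | zero =>
    rw [iteratedDeriv_zero]
    simp [Bf]
  | succ k ih =>
    have h1 : iteratedDeriv k (fun w => f (ψ w)) =ᶠ[𝓝 z]
        fun w => ∑ j ∈ range (k + 1), Bf ψ k j w * iteratedDeriv j f (ψ w) := by
      filter_upwards [hψ.eventually_analyticAt,
        hψ.continuousAt.eventually hf.eventually_analyticAt] with w hw hw'
      exact ih hw hw'
    rw [iteratedDeriv_succ, h1.deriv_eq]
    have h2 : ∀ j, HasDerivAt (fun w => Bf ψ k j w * iteratedDeriv j f (ψ w))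
        (deriv (Bf ψ k j) z * iteratedDeriv j f (ψ z) +
          Bf ψ k j z * (iteratedDeriv (j + 1) f (ψ z) * deriv ψ z)) z := by
      intro j
      have h3 := (Bf_an hψ k j).differentiableAt.hasDerivAt
      have h4 := (iter_hd hf j).comp z hψ.differentiableAt.hasDerivAt
      exact h3.mul h4
    have h3 := HasDerivAt.fun_sum (u := range (k + 1)) fun j _ => h2 j
    rw [h3.deriv, Finset.sum_add_distrib, Finset.sum_range_succ' (n := k + 1)]
    have e1 : ∑ j ∈ range (k + 1), deriv (Bf ψ k j) z * iteratedDeriv j f (ψ z) =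
        ∑ j ∈ range (k + 1), deriv (Bf ψ k (j + 1)) z * iteratedDeriv (j + 1) f (ψ z) +
          deriv (Bf ψ k 0) z * iteratedDeriv 0 f (ψ z) := by
      rw [← Finset.sum_range_succ' (fun j => deriv (Bf ψ k j) z * iteratedDeriv j f (ψ z)) (k + 1),
        Finset.sum_range_succ _ (k + 1)]
      rw [Bf_big (ψ := ψ) (k := k) (j := k + 1) (by omega)]
      simp
    rw [e1, add_right_comm, ← Finset.sum_add_distrib]
    have e2 : Bf ψ (k + 1) 0 = deriv (Bf ψ k 0) := rfl
    rw [e2]
    congr 1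
    refine Finset.sum_congr rfl fun j _ => ?_
    have e3 : Bf ψ (k + 1) (j + 1) z = deriv (Bf ψ k (j + 1)) z + deriv ψ z * Bf ψ k j z := rfl
    rw [e3]
    ring

theorem Ev_comp {x ψ : ℂ → ℂ} {z : ℂ} (hψ : AnalyticAt ℂ ψ z)
    (hx : AnalyticAt ℂ x (ψ z)) {N e k : ℕ} (hk : k ≤ N) :
    Ev N (e + N) k (jt (fun w => x (ψ w)) z) = ∑ j ∈ range (k + 1),
      Bf ψ k j z * Ev N (e + N) j (jt x (ψ z)) := by
  have key : ∀ x : ℂ → ℂ, AnalyticAt ℂ x (ψ z) → x (ψ z) ≠ 0 →
      Ev N (e + N) k (jt (fun w => x (ψ w)) z) = ∑ j ∈ range (k + 1),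
      Bf ψ k j z * Ev N (e + N) j (jt x (ψ z)) := by
    intro x hx hx0
    have hne : x (ψ z) ^ e ≠ 0 := pow_ne_zero _ hx0
    apply mul_left_cancel₀ hne
    have hc : AnalyticAt ℂ (fun w => x (ψ w)) z := hx.comp hψ
    rw [← Ev_pow hc hk, iter_comp (f := fun w => x w ^ (e + N)) hψ (hx.pow _), Finset.mul_sum]
    refine Finset.sum_congr rfl fun j hj => ?_
    rw [Finset.mem_range] at hj
    rw [Ev_pow hx (N := N) (e := e) (k := j) (by omega)]
    ring
  by_cases hx0 : x (ψ z) = 0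
  · have hc : AnalyticAt ℂ (fun w => x (ψ w)) z := hx.comp hψ
    have h1 := Ev_tendsto hc analyticAt_const N (e + N) k (y := fun _ => 1)
    have h2 : Tendsto (fun ε => ∑ j ∈ range (k + 1), Bf ψ k j z *
          Ev N (e + N) j (jt (fun w => x w + ε * 1) (ψ z))) (𝓝[≠] 0) (𝓝 (∑ j ∈ range (k + 1),
        Bf ψ k j z * Ev N (e + N) j (jt x (ψ z)))) :=
      tendsto_finsetSum _ fun j _ => (Ev_tendsto hx analyticAt_const N (e + N) j).const_mul _
    refine tendsto_nhds_unique h1 (h2.congr' ?_)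
    filter_upwards [self_mem_nhdsWithin] with ε hε
    have hε' : ε ≠ 0 := hε
    exact (key (fun w => x w + ε * 1) (hx.add analyticAt_const) (by
      simp only [hx0, zero_add, mul_one]
      exact hε')).symm
  · exact key x hx hx0

end Pool.Agent.Helper65.HD
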