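import Mathlib

/-!
Weights for families of vectors in subgeneral position.
-/

set_option autoImplicit false

open Finset

namespace Pool.Agent.Helper65.HD

variable {L : Type} [Fintype L] [DecidableEq L]

/-- the properties of the rank function of `q ≥ k + 2 f + 1` vectors in a space of dimension
`k + 1`, such that any `k + f + 1` of them span the space -/
structure Rk (k f : ℕ) (rk : Finset L → ℕ) : Prop where
  empty : rk ∅ = 0
  le : ∀ S, rk S ≤ k + 1
  sub : ∀ S S', rk (S ∪ S') + rk (S ∩ S') ≤ rk S + rk S'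
  full : ∀ S : Finset L, k + f + 1 ≤ S.card → rk S = k + 1
  card : ∀ S : Finset L, S.card ≤ k + f + 1 → S.card ≤ rk S + f
  basis : ∀ S, ∃ T ⊆ S, T.card = rk S ∧ ∀ S', (S' ∩ T).card ≤ rk (S' ∩ S)

/-- **Weights.** -/
theorem exists_weights {k f : ℕ} {rk : Finset L → ℕ} (h : Rk k f rk) (hf : 0 < f)
    (hq : k + 2 * f + 1 ≤ Fintype.card L) :
    ∃ (M : ℕ) (p : L → ℕ), 0 < M ∧ (∀ S : Finset L, S.card ≤ k + f + 1 → ∑ l ∈ S, p l ≤ M * rk S) ∧
      (k + 1) * Fintype.card L * M ≤ (k + 2 * f + 1) * ∑ l, p l := by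
  classical
  set B : ℕ := k + 2 * f + 1 with hB
  -- the set with the largest slope
  obtain ⟨S0, hS0, hmax⟩ := Finset.exists_max_image
    (Finset.univ.filter fun S : Finset L => S.card ≤ k + f + 1)
    (fun S => ((k + 1 - rk S : ℕ) : ℚ) / ((B - S.card : ℕ) : ℚ))
    ⟨∅, by simp⟩
  rw [Finset.mem_filter] at hS0
  have hn0 : S0.card ≤ k + f + 1 := hS0.2
  set M : ℕ := B - S0.card with hM
  set c : ℕ := k + 1 - rk S0 with hc
  have hMpos : 0 < M := by omega
  have hslope : ∀ S : Finset L, S.card ≤ k + f + 1 → (k + 1 - rk S) * M ≤ c * (B - S.card) := by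
    intro S hS
    have h1 := hmax S (by rw [Finset.mem_filter]; exact ⟨Finset.mem_univ _, hS⟩)
    have h2 : (0 : ℚ) < ((B - S.card : ℕ) : ℚ) := by
      have : 0 < B - S.card := by omega
      exact_mod_cast this
    have h3 : (0 : ℚ) < (M : ℚ) := by exact_mod_cast hMpos
    rw [div_le_div_iff₀ h2 h3] at h1
    exact_mod_cast h1
  obtain ⟨T0, hT0, hT0c, hT0r⟩ := h.basis S0
  set p : L → ℕ := fun l => if l ∈ T0 then M else if l ∈ S0 then 0 else c with hp
  have hr0 : rk S0 ≤ k + 1 := h.le S0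
  -- sums of the weights
  have hsum : ∀ S : Finset L, ∑ l ∈ S, p l = M * (S ∩ T0).card + c * (S \ S0).card := by
    intro S
    have h1 : ∀ l ∈ S, p l = (if l ∈ T0 then M else 0) + (if l ∈ S0 then 0 else c) := by
      intro l _
      simp only [hp]
      by_cases hl : l ∈ T0
      · rw [if_pos hl, if_pos hl, if_pos (hT0 hl), add_zero]
      · rw [if_neg hl, if_neg hl, zero_add]
    rw [Finset.sum_congr rfl h1, Finset.sum_add_distrib, Finset.sum_ite_mem, Finset.sum_const,
      smul_eq_mul, mul_comm M]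
    congr 1
    have h2 : ∑ l ∈ S, (if l ∈ S0 then 0 else c) = ∑ l ∈ S \ S0, c := by
      rw [← Finset.sum_filter_add_sum_filter_not S (· ∈ S0)]
      have h3 : ∑ x ∈ S.filter (· ∈ S0), (if x ∈ S0 then 0 else c) = 0 :=
        Finset.sum_eq_zero fun x hx => by rw [if_pos (Finset.mem_filter.1 hx).2]
      have h4 : ∑ x ∈ S.filter (fun x => ¬ x ∈ S0), (if x ∈ S0 then 0 else c) =
          ∑ x ∈ S \ S0, c := by
        rw [← Finset.sdiff_eq_filter]
        exact Finset.sum_congr rfl fun x hx => by rw [if_neg (Finset.mem_sdiff.1 hx).2]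
      rw [h3, h4, zero_add]
    rw [h2, Finset.sum_const, smul_eq_mul, mul_comm]
  refine ⟨M, p, hMpos, fun S hS => ?_, ?_⟩
  · rw [hsum]
    have ha : (S ∩ T0).card ≤ rk (S ∩ S0) := hT0r S
    have hsub := h.sub S S0
    have hcu : (S ∪ S0).card = S0.card + (S \ S0).card := by
      rw [Finset.union_comm, Finset.card_union, Finset.card_sdiff]
      have h1 : (S0 ∩ S).card ≤ S.card := Finset.card_le_card Finset.inter_subset_right
      have h2 : (S ∩ S0).card = (S0 ∩ S).card := by rw [Finset.inter_comm]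
      omega
    set b : ℕ := (S \ S0).card with hb
    set a : ℕ := (S ∩ T0).card with ha'
    rcases le_or_gt (S ∪ S0).card (k + f + 1) with hA | hA
    · -- the union is small
      have h1 := hslope (S ∪ S0) hA
      have hru := h.le (S ∪ S0)
      zify at h1 ha hsub ⊢
      rw [Nat.cast_sub hru, Nat.cast_sub (by omega : (S ∪ S0).card ≤ B)] at h1
      have e1 : (c : ℤ) = (k : ℤ) + 1 - rk S0 := by
        rw [hc, Nat.cast_sub hr0]
        push_cast
        ring
      have e2 : (M : ℤ) = (B : ℤ) - S0.card := by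
        rw [hM, Nat.cast_sub (by omega)]
      have e3 : ((S ∪ S0).card : ℤ) = S0.card + b := by exact_mod_cast hcu
      rw [e3] at h1
      have e4 : (c : ℤ) * ((B : ℤ) - (S0.card + b)) = c * M - c * b := by
        rw [e2]
        ring
      rw [e4] at h1
      push_cast at h1
      have hM0 : (0 : ℤ) < M := by exact_mod_cast hMpos
      have h2 : (c : ℤ) * M = (k + 1) * M - rk S0 * M := by
        rw [e1]
        ring
      have h3 : (M : ℤ) * a ≤ M * rk (S ∩ S0) := mul_le_mul_of_nonneg_left ha hM0.le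
      have h4 : (M : ℤ) * (rk (S ∪ S0) + rk (S ∩ S0)) ≤ M * (rk S + rk S0) :=
        mul_le_mul_of_nonneg_left hsub hM0.le
      linarith
    · have h1 := h.full (S ∪ S0) (by omega)
      rw [h1] at hsub
      have h2 : c + a ≤ rk S := by omega
      rcases le_or_gt b M with hbM | hbM
      · calc M * a + c * b ≤ M * a + c * M := by
              exact Nat.add_le_add_left (Nat.mul_le_mul_left c hbM) _
          _ = M * (c + a) := by ring
          _ ≤ M * rk S := Nat.mul_le_mul_left M h2
      · have h3 := h.card S hS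
        have h4 := h.card S0 hn0
        have h5 : a + b ≤ S.card := by
          have h6 : (S ∩ T0).card ≤ (S ∩ S0).card :=
            Finset.card_le_card (Finset.inter_subset_inter_left hT0)
          have h7 : (S ∩ S0).card + (S \ S0).card = S.card := Finset.card_inter_add_card_sdiff S S0
          omega
        have h6 : c + f ≤ M := by omega
        have h7 : a + b ≤ rk S + f := h5.trans h3
        zify at h6 h7 hbM ⊢
        have hM0 : (0 : ℤ) < M := by exact_mod_cast hMpos
        have hf0 : (0 : ℤ) < f := by exact_mod_cast hf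
        have hb0 : (0 : ℤ) < b := by linarith
        -- `c b ≤ M (b - f)`
        have h8 : (c : ℤ) * b ≤ (M - f) * b := mul_le_mul_of_nonneg_right (by linarith) hb0.le
        have h9 : (f : ℤ) * M ≤ f * b := mul_le_mul_of_nonneg_left hbM.le hf0.le
        have h10 : (M : ℤ) * (a + b) ≤ M * (rk S + f) := mul_le_mul_of_nonneg_left h7 hM0.le
        nlinarith
  · rw [hsum]
    have h1 : (Finset.univ ∩ T0).card = rk S0 := by
      rw [Finset.univ_inter, hT0c]
    have h2 : (Finset.univ \ S0).card = Fintype.card L - S0.card := by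
      rw [Finset.card_sdiff, Finset.inter_univ, Finset.card_univ]
    rw [h1, h2]
    have h3 := hslope ∅ (by simp)
    rw [h.empty, Finset.card_empty, Nat.sub_zero, Nat.sub_zero] at h3
    set q : ℕ := Fintype.card L with hqd
    have hnq : S0.card ≤ q := Finset.card_le_univ S0
    zify [hnq] at h3 ⊢
    have e1 : (c : ℤ) = (k : ℤ) + 1 - rk S0 := by
      rw [hc, Nat.cast_sub hr0]
      push_cast
      ring
    have e2 : (S0.card : ℤ) = B - M := by
      rw [hM, Nat.cast_sub (by omega)]
      ring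
    have hqB : (B : ℤ) ≤ q := by exact_mod_cast hq
    have e3 : (rk S0 : ℤ) = k + 1 - c := by
      rw [e1]
      ring
    rw [e2, e3]
    have h4 : ((B : ℤ)) * ((c : ℤ) * B - (k + 1) * M) ≤ q * ((c : ℤ) * B - (k + 1) * M) :=
      mul_le_mul_of_nonneg_right hqB (by linarith)
    nlinarith

omit [Fintype L] in
/-- **The product inequality.** -/
theorem prod_ineq {rk : Finset L → ℕ} {M : ℕ} {p : L → ℕ} {Ind : Finset L → Prop}
    (h0 : Ind ∅)
    (hstep : ∀ (S : Finset L) (l : L), l ∉ S → ∀ T ⊆ S, Ind T → T.card = rk S →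
      (rk (insert l S) = rk S) ∨ (rk (insert l S) = rk S + 1 ∧ Ind (insert l T)))
    (hrk0 : rk ∅ = 0) (S : Finset L) :
    (∀ S' ⊆ S, ∑ l ∈ S', p l ≤ M * rk S') → ∀ a : L → ℝ, (∀ l ∈ S, 0 < a l ∧ a l ≤ 1) →
      ∃ T ⊆ S, Ind T ∧ T.card = rk S ∧ ∏ l ∈ T, a l ^ M ≤ ∏ l ∈ S, a l ^ p l := by
  classical
  induction' hn : S.card with m ih generalizing S
  · intro _ a _
    have hS : S = ∅ := Finset.card_eq_zero.1 hn
    subst hS
    exact ⟨∅, le_rfl, h0, by simp [hrk0], by simp⟩
  · intro hp a ha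
    have hne : S.Nonempty := Finset.card_pos.1 (by omega)
    obtain ⟨l, hl, hmax⟩ := Finset.exists_max_image S a hne
    set α : ℝ := a l with hα
    have hα0 : 0 < α := (ha l hl).1
    have hα1 : α ≤ 1 := (ha l hl).2
    set S' : Finset L := S.erase l with hS'
    have hS'S : S' ⊆ S := Finset.erase_subset _ _
    have hlS' : l ∉ S' := Finset.notMem_erase _ _
    have hins : insert l S' = S := Finset.insert_erase hl
    obtain ⟨T, hT, hTi, hTc, hTp⟩ := ih S' (by rw [hS', Finset.card_erase_of_mem hl, hn]; rfl)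
      (fun S'' hS'' => hp S'' (hS''.trans hS'S)) (fun j => a j / α) (fun j hj => by
        have h1 := ha j (hS'S hj)
        exact ⟨div_pos h1.1 hα0, (div_le_one hα0).2 (hmax j (hS'S hj))⟩)
    have hdiv : ∀ (U : Finset L) (w : L → ℕ), ∏ j ∈ U, (a j / α) ^ w j =
        (∏ j ∈ U, a j ^ w j) / α ^ (∑ j ∈ U, w j) := by
      intro U w
      simp only [div_pow]
      rw [Finset.prod_div_distrib, Finset.prod_pow_eq_pow_sum]
    have hdT := hdiv T fun _ => M
    rw [Finset.sum_const, smul_eq_mul] at hdT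
    rw [hdT, hdiv S' p, hTc] at hTp
    have hps := hp S le_rfl
    rw [← hins, Finset.sum_insert hlS'] at hps
    have hα' : ∀ j, 0 < α ^ j := fun j => pow_pos hα0 j
    have hTp' : (∏ j ∈ T, a j ^ M) * α ^ (∑ j ∈ S', p j) ≤
        (∏ j ∈ S', a j ^ p j) * α ^ (rk S' * M) := by
      rwa [div_le_div_iff₀ (hα' _) (hα' _)] at hTp
    have hprodS : ∏ j ∈ S, a j ^ p j = α ^ p l * ∏ j ∈ S', a j ^ p j := by
      rw [← hins, Finset.prod_insert hlS']
    have hPS : 0 < ∏ j ∈ S', a j ^ p j :=
      Finset.prod_pos fun j hj => pow_pos (ha j (hS'S hj)).1 _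
    have key : ∀ X : ℝ, X * α ^ (∑ j ∈ S', p j) ≤ (∏ j ∈ S', a j ^ p j) *
        α ^ (rk (insert l S') * M) → X ≤ ∏ j ∈ S, a j ^ p j := by
      intro X hX
      have h1 : α ^ (rk (insert l S') * M) ≤ α ^ (p l + ∑ j ∈ S', p j) :=
        pow_le_pow_of_le_one hα0.le hα1 (by rw [mul_comm]; exact hps)
      have h2 : X * α ^ (∑ j ∈ S', p j) ≤ (∏ j ∈ S', a j ^ p j) * (α ^ p l *
          α ^ (∑ j ∈ S', p j)) := by
        refine hX.trans (mul_le_mul_of_nonneg_left ?_ hPS.le)
        rw [← pow_add]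
        exact h1
      rw [hprodS]
      refine le_of_mul_le_mul_right (le_trans h2 (le_of_eq ?_)) (hα' (∑ j ∈ S', p j))
      ring
    rcases hstep S' l hlS' T hT hTi hTc with h1 | ⟨h1, h2⟩
    · refine ⟨T, hT.trans hS'S, hTi, ?_, key _ ?_⟩
      · rw [← hins, h1, hTc]
      · rw [h1]
        exact hTp'
    · have hlT : l ∉ T := fun h => hlS' (hT h)
      refine ⟨insert l T, ?_, h2, ?_, key _ ?_⟩
      · rw [← hins]
        exact Finset.insert_subset_insert l hT
      · rw [Finset.card_insert_of_notMem hlT, hTc, ← hins, h1]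
      · rw [Finset.prod_insert hlT, h1, add_mul, one_mul, pow_add]
        calc α ^ M * (∏ j ∈ T, a j ^ M) * α ^ (∑ j ∈ S', p j) =
              ((∏ j ∈ T, a j ^ M) * α ^ (∑ j ∈ S', p j)) * α ^ M := by ring
          _ ≤ ((∏ j ∈ S', a j ^ p j) * α ^ (rk S' * M)) * α ^ M :=
              mul_le_mul_of_nonneg_right hTp' (hα' M).le
          _ = _ := by ring

end Pool.Agent.Helper65.HD
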