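import Pool.Agent.Helper65.HD.Rb

/-!
Deformations of the nondegenerate curves of bounded derivative are tangent to the curve.
-/

set_option autoImplicit false

open Filter Topology Metric MvPolynomial Set

namespace Pool.Agent.Helper65.HD

open Pool.Agent.W602.GT Pool.Agent.N155.BB Pool.Agent.Y190.OP Pool.Agent.N155
  Pool.Agent.N155.GD Pool.Agent.Helper65.BF Pool.Agent.Helper65.GG

variable {n N m e : ℕ} {ℓ : Fin (n + 1) → Fin (N + 1) → ℂ} {T : Set (Mat (n + 1))}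
  {𝓤 : Ultrafilter ℕ} {χ : ℂ → Mat (n + 1)} {P Q : ℕ → ℂ → Mat (n + 1)} {s wt : ℕ → ℂ → ℂ}
  {B C0 : ℝ}

/-- the Wronskian is equal to `c` -/
def Wc (N e : ℕ) (ℓ : Fin (n + 1) → Fin (N + 1) → ℂ) (χ : ℂ → Mat (n + 1)) (c : ℂ) : Prop :=
  ∀ z i (t : Fin (N + 1) → Fin (n + 1)), χ z i i ≠ 0 → Adm (Zs (cu χ i z)) t →
    Qt ℓ (fun l => cu χ i z l ^ e) (cc N e (cu χ i) z) t = c

theorem Wc.nz {c : ℂ} (hc : c ≠ 0) (h : Wc N e ℓ χ c) : NZ N e χ := by
  intro z i t hi ht h0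
  apply hc
  rw [← h z i t hi ht]
  unfold Qt
  rw [h0, zero_div]

/-- a local bound for the top coefficient -/
theorem top_bd (hg : GeneralPosition ℓ) (hr : N + 1 ≤ n + 1) (he : 0 < e)
    (h : RGd T 𝓤 χ P Q s wt B C0)
    (hbd : BD (TF (fermatForms ℓ (e + N))) χ) {c : ℂ} (hc : c ≠ 0) (hW : Wc N e ℓ χ c)
    (k : Fin (N + 1)) {M0 : Mat (n + 1)} (hM0 : M0 ∈ TF (fermatForms ℓ (e + N))) :
    ∃ (O : Set (Mat (n + 1))) (i : Fin (n + 1)) (C : ℝ), IsOpen O ∧ M0 ∈ O ∧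
      ∀ z, χ z ∈ O → χ z i i ≠ 0 ∧ ∀ ζ, IsRep N e 𝓤 χ P Q s wt i z ζ → ‖ζ k‖ ≤ C := by
  have hnz := hW.nz hc
  obtain ⟨i, hi⟩ := PM.exists_diag (TF_PM hM0)
  obtain ⟨t, ht⟩ := exists_Adm hg (by omega) hr (chart_cone form_fermat hM0 hi)
  obtain ⟨O1, hO1, hMO1, hO1i, K, hK, hjet⟩ :=
    jets_bd (T := TF (fermatForms ℓ (e + N))) hi N
  obtain ⟨L, O2, hL, hO2, hMO2, -, hlip, -⟩ := lip_chart hi
  obtain ⟨δ, hδ, hGt⟩ := Gt_low e ht
  have hch := continuousAt_chart hi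
  obtain ⟨O3, hO3s, hO3, hMO3⟩ := _root_.mem_nhds_iff.1
    ((hch.eventually hGt).and (hch.eventually (op_adm ht)))
  set Φ : (Fin (N + 1) → Fin (n + 1) → ℂ) × (Fin (n + 1) → ℂ) → ℂ := fun p =>
    St (Function.update (cj e p.1) k (vc N e (p.1 0) p.2)) t with hΦ
  have hΦc : Continuous Φ := by
    refine St_cont (fun k' l => ?_) t
    by_cases hk : k' = k
    · rw [hk]
      simp only [Function.update_self]
      unfold vc
      have h1 : Continuous fun q : (Fin (N + 1) → Fin (n + 1) → ℂ) × (Fin (n + 1) → ℂ) =>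
          q.1 0 l := (continuous_apply_apply 0 l).comp continuous_fst
      have h2 : Continuous fun q : (Fin (N + 1) → Fin (n + 1) → ℂ) × (Fin (n + 1) → ℂ) =>
          q.2 l := (continuous_apply l).comp continuous_snd
      exact (continuous_const.mul (h1.pow _)).mul h2
    · simp only [Function.update_of_ne hk]
      unfold cj
      refine (Ev_cont N (e + N) k').comp (continuous_pi fun j => ?_)
      by_cases hj : j < N + 1
      · simp only [dif_pos hj]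
        exact (continuous_apply_apply _ l).comp continuous_fst
      · simp only [dif_neg hj]
        exact continuous_const
  obtain ⟨CN, hCN⟩ := ((isCompact_closedBall (0 : Fin (N + 1) → Fin (n + 1) → ℂ) K).prod
    (isCompact_closedBall (0 : Fin (n + 1) → ℂ) (L * C0))).exists_bound_of_continuousOn
      hΦc.continuousOn
  have hM := norm_pos_iff.2 (hg.mt ht.1)
  have hc' := norm_pos_iff.2 hc
  refine ⟨O1 ∩ O2 ∩ O3, i, CN / (‖c‖ * (‖Mt ℓ t‖ * δ)), (hO1.inter hO2).inter hO3,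
    ⟨⟨hMO1, hMO2⟩, hMO3⟩, fun z hz => ⟨hO1i _ hz.1.1, fun ζ hζ => ?_⟩⟩
  have hiz := hO1i _ hz.1.1
  obtain ⟨hG, htz⟩ := hO3s hz.2
  have htz' : Adm (Zs (cu χ i z)) t := htz
  rw [isRep_cramer hnz hiz hζ htz' k]
  have han := cu_an h.hχ i hiz
  have e1 : Function.update (cc N e (cu χ i) z) k (vd N e 𝓤 χ P Q s wt i z) =
      Function.update (cj e (jet N (cu χ i) z)) k (vc N e (jet N (cu χ i) z 0)
        (Vv 𝓤 P Q s wt i z)) := by
    rw [cj_jet han, jet_zero]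
    rfl
  have e2 : ‖St (Function.update (cc N e (cu χ i) z) k (vd N e 𝓤 χ P Q s wt i z)) t‖ ≤ CN := by
    rw [e1]
    refine hCN (jet N (cu χ i) z, Vv 𝓤 P Q s wt i z) ⟨?_, ?_⟩
    · rw [mem_closedBall_zero_iff, pi_norm_le_iff_of_nonneg hK]
      intro j
      exact hjet χ hbd z hz.1.1 j
    · rw [mem_closedBall_zero_iff]
      exact (h.Vt i hL hO2 hz.1.2 hlip).2
  have e3 : St (cc N e (cu χ i) z) t = c * (Mt ℓ t * Gt (fun l => cu χ i z l ^ e) t) := by
    have h1 := hW z i t hiz htz'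
    unfold Qt at h1
    rw [div_eq_iff] at h1
    · exact h1
    · exact mul_ne_zero (hg.mt ht.1) (Gt_ne.2 fun l hl => pow_ne_zero _ (adm_ne htz' hl))
  rw [norm_div, e3, norm_mul, norm_mul]
  have hG' : δ < ‖Gt (fun l => cu χ i z l ^ e) t‖ := hG
  have h5 : 0 < ‖c‖ * (‖Mt ℓ t‖ * δ) := by positivity
  have h6 : ‖c‖ * (‖Mt ℓ t‖ * δ) ≤ ‖c‖ * (‖Mt ℓ t‖ * ‖Gt (fun l => cu χ i z l ^ e) t‖) :=
    mul_le_mul_of_nonneg_left (mul_le_mul_of_nonneg_left hG'.le hM.le) hc'.le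
  exact div_le_div₀ ((norm_nonneg _).trans e2) e2 h5 h6

/-- the first coordinate vanishes in all charts -/
theorem chart_zero {M : Mat (n + 1)} (hM : M ∈ PM) {i l : Fin (n + 1)} (hi : M i i ≠ 0) :
    chart i M l = 0 ↔ M l l = 0 := by
  obtain ⟨u, hu, rfl⟩ := hM
  have hui := (Phi_diag_ne hu).1 hi
  rw [chart_Phi hu hui, Pi.smul_apply, smul_eq_mul]
  constructor
  · intro h
    have h1 := (mul_eq_zero.1 h).resolve_left (inv_ne_zero hui)
    by_contra hcon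
    exact (Phi_diag_ne hu).1 hcon h1
  · intro h
    by_contra hcon
    have h1 : u l ≠ 0 := fun h2 => hcon (by rw [h2, mul_zero])
    exact (Phi_diag_ne hu).2 h1 h

/-- the value at a zero of a coordinate -/
theorem zero_at (hg : GeneralPosition ℓ) (hr : N + 1 ≤ n + 1) (hN : 0 < N) (he : 0 < e)
    (hT : T ⊆ TF (fermatForms ℓ (e + N))) (h : RGd T 𝓤 χ P Q s wt B C0) (hnz : NZ N e χ)
    {p : ℂ} {l0 : Fin (n + 1)} (hp : χ p l0 l0 = 0) {i : Fin (n + 1)} (hi : χ p i i ≠ 0)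
    {k : Fin (N + 1)} (hk : 2 ≤ (k : ℕ))
    (h0 : ∀ z ζ, χ z i i ≠ 0 → IsRep N e 𝓤 χ P Q s wt i z ζ → ∀ j, k < j → ζ j = 0)
    {ζ : Fin (N + 1) → ℂ} (hζ : IsRep N e 𝓤 χ P Q s wt i p ζ) : ζ k = 0 := by
  have hTP : T ⊆ PM := hT.trans TF_PM
  obtain ⟨t, ht⟩ := ex_adm hg hr he (fun z => hT (h.mχ z)) hi
  obtain ⟨ξ, Nn, β, hξ, hNn, hev⟩ := loc_an hg hr hN he hT h hnz hi
  have hk1 : k ≠ ⟨1, by omega⟩ := by
    intro h1
    rw [h1] at hk
    simp at hk
  have hj1 : ∀ j : Fin (N + 1), k < j → j ≠ ⟨1, by omega⟩ := by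
    intro j hj h1
    rw [h1] at hj
    have : (k : ℕ) < 1 := hj
    omega
  -- the value at `p`
  have hζp : ζ k = ξ p k := by
    obtain ⟨-, -, h3⟩ := hev.self_of_nhds
    have h4 : ζ = Function.update (ξ p) ⟨1, by omega⟩ (ξ p ⟨1, by omega⟩ + β p) := by
      funext j
      rw [isRep_cramer hnz hi hζ ht j, isRep_cramer hnz hi h3 ht j]
    rw [h4, Function.update_of_ne hk1]
  rw [hζp]
  have han := cu_an h.hχ i hi
  set x : ℂ → ℂ := fun w => cu χ i w l0 with hx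
  have hxa : AnalyticAt ℂ x p := (analyticAt_pi_iff.1 han) l0
  have hx0 : x p = 0 := (chart_zero (hTP (h.mχ p)) hi).2 hp
  have hx1 : deriv x p ≠ 0 := by
    have h1 := row_ne hN han ht (hnz p i t hi ht) hx0
    have h2 : deriv x p = deriv (cu χ i) p l0 := by
      have h3 := iter_pi han 1 l0
      rw [iteratedDeriv_one, iteratedDeriv_one] at h3
      exact h3.symm
    rwa [h2]
  set E : ℕ → ℂ → ℂ := fun j w => eval (jt x w) (rho (e + N) j) with hE
  have hEa : ∀ j, AnalyticAt ℂ (E j) p := fun j =>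
    AnalyticAt.aeval_mvPolynomial (fun i => iter_an hxa i) _
  set H : ℂ → ℂ := fun w => ((e + N : ℕ) : ℂ) * x w ^ ((k : ℕ) - 1) * Nn w l0 -
    ∑ j : Fin (N + 1), if (j : ℕ) ≤ k then ξ w j * (x w ^ ((k : ℕ) - j) * E j w) else 0 with hH
  have hHc : ContinuousAt H p := by
    rw [hH]
    refine ContinuousAt.sub ?_ ?_
    · exact (continuousAt_const.mul (hxa.continuousAt.pow _)).mul (hNn l0).continuousAt
    · refine tendsto_finsetSum _ fun j _ => ?_
      by_cases hj : (j : ℕ) ≤ k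
      · simp only [if_pos hj]
        exact (hξ j).continuousAt.mul ((hxa.continuousAt.pow _).mul (hEa j).continuousAt)
      · simp only [if_neg hj]
        exact tendsto_const_nhds
  have hH0 : ∀ᶠ w in 𝓝[≠] p, H w = 0 := by
    have h1 : ∀ᶠ w in 𝓝[≠] p, x w ≠ 0 :=
      hxa.differentiableAt.hasDerivAt.eventually_ne hx1
    filter_upwards [h1, hev.filter_mono nhdsWithin_le_nhds] with w hw hw'
    obtain ⟨h2, h3, h4⟩ := hw'
    have h5 : ∀ j, k < j → ξ w j = 0 := by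
      intro j hj
      have h6 := h0 w _ h2 h4 j hj
      rwa [Function.update_of_ne (hj1 j hj)] at h6
    have h6 := h3 l0
    have h7 : ∑ j, ξ w j * cc N e (cu χ i) w j l0 = x w ^ (N - (k : ℕ)) *
        ∑ j : Fin (N + 1), if (j : ℕ) ≤ k then ξ w j * (x w ^ ((k : ℕ) - j) * E j w) else 0 := by
      rw [Finset.mul_sum]
      refine Finset.sum_congr rfl fun j _ => ?_
      by_cases hj : (j : ℕ) ≤ k
      · rw [if_pos hj]
        unfold cc Ev
        have h8 : x w ^ (N - (j : ℕ)) = x w ^ (N - (k : ℕ)) * x w ^ ((k : ℕ) - j) := by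
          rw [← pow_add]
          congr 1
          omega
        have h9 : jt (fun w => cu χ i w l0) w 0 = x w := jt_zero _ _
        rw [h9, h8]
        ring
      · rw [if_neg hj, h5 j (by
          rw [not_le] at hj
          exact hj), zero_mul, mul_zero]
    rw [h7] at h6
    unfold vc at h6
    have h8 : cu χ i w l0 ^ (N - 1) = x w ^ (N - (k : ℕ)) * x w ^ ((k : ℕ) - 1) := by
      change x w ^ (N - 1) = _
      rw [← pow_add]
      congr 1
      omega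
    rw [h8] at h6
    apply mul_left_cancel₀ (pow_ne_zero (N - (k : ℕ)) hw)
    rw [mul_zero, hH]
    simp only [mul_sub]
    rw [sub_eq_zero, ← h6]
    ring
  have hHp : H p = 0 := by
    have h1 : Tendsto H (𝓝[≠] p) (𝓝 (H p)) := hHc.tendsto.mono_left nhdsWithin_le_nhds
    have h2 : Tendsto H (𝓝[≠] p) (𝓝 0) := tendsto_const_nhds.congr' (by
      filter_upwards [hH0] with w hw
      exact hw.symm)
    exact tendsto_nhds_unique h1 h2
  have h1 : H p = -(ξ p k * E k p) := by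
    rw [hH]
    simp only [hx0]
    rw [zero_pow (by omega), mul_zero, zero_mul, zero_sub]
    congr 1
    rw [Finset.sum_eq_single k]
    · rw [if_pos le_rfl, Nat.sub_self, pow_zero, one_mul]
    · intro j _ hj
      split_ifs with h2
      · have h3 : (j : ℕ) ≠ k := fun h4 => hj (Fin.ext h4)
        rw [zero_pow (by omega), zero_mul, mul_zero]
      · rfl
    · intro h2
      exact absurd (Finset.mem_univ k) h2
  rw [h1, neg_eq_zero] at hHp
  refine (mul_eq_zero.1 hHp).resolve_right ?_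
  have h2 : jt x p 0 = 0 := by
    rw [jt_zero]
    exact hx0
  rw [hE]
  simp only
  rw [eval_rho_zero _ _ h2]
  refine mul_ne_zero (Finset.prod_ne_zero_iff.2 fun j hj => ?_) (pow_ne_zero _ ?_)
  · rw [Finset.mem_range] at hj
    rw [sub_ne_zero]
    exact_mod_cast (by omega : e + N ≠ j)
  · unfold jt
    rw [iteratedDeriv_one]
    exact hx1

/-- one step -/
theorem step (hg : GeneralPosition ℓ) (hr : N + 1 ≤ n + 1) (hN : 0 < N) (he : 0 < e)
    (hT : T ⊆ TF (fermatForms ℓ (e + N))) (h : RGd T 𝓤 χ P Q s wt B C0)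
    (hbd : BD (TF (fermatForms ℓ (e + N))) χ) {c : ℂ} (hc : c ≠ 0) (hW : Wc N e ℓ χ c)
    {p : ℂ} {l0 : Fin (n + 1)} (hp : χ p l0 l0 = 0) {k : Fin (N + 1)} (hk : 2 ≤ (k : ℕ))
    (h0 : ∀ z i ζ, χ z i i ≠ 0 → IsRep N e 𝓤 χ P Q s wt i z ζ → ∀ j, k < j → ζ j = 0) :
    ∀ z i ζ, χ z i i ≠ 0 → IsRep N e 𝓤 χ P Q s wt i z ζ → ζ k = 0 := by
  have hnz := hW.nz hc
  have hTP : T ⊆ PM := hT.trans TF_PM
  have hk0 : k ≠ 0 := by
    intro h1
    rw [h1] at hk
    simp at hk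
  have hk1 : k ≠ ⟨1, by omega⟩ := by
    intro h1
    rw [h1] at hk
    simp at hk
  choose idx hidx using fun z => PM.exists_diag (hTP (h.mχ z))
  choose ζ0 hζ0 using fun z => isRep_ex hg hr hN he hT h hnz (hidx z)
  set f : ℂ → ℂ := fun z => ζ0 z k with hf
  have hfi : ∀ z i ζ, χ z i i ≠ 0 → IsRep N e 𝓤 χ P Q s wt i z ζ → ζ k = f z :=
    fun z i ζ hi hζ => isRep_top hg hr hN he hT h hnz (hidx z) hi (hζ0 z) hζ hk0
      (h0 z i ζ hi hζ)
  have hana : Differentiable ℂ f := by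
    intro z
    obtain ⟨ξ, Nn, β, hξ, -, hev⟩ := loc_an hg hr hN he hT h hnz (hidx z)
    refine ((hξ k).congr ?_).differentiableAt
    filter_upwards [hev] with w hw
    rw [← hfi w _ _ hw.1 hw.2.2, Function.update_of_ne hk1]
  have hbdd : ∃ C : ℝ, ∀ z, χ z ∈ TF (fermatForms ℓ (e + N)) → ‖f z‖ ≤ C := by
    refine (isCompact_TF form_fermat).induction_on
      (p := fun s => ∃ C : ℝ, ∀ z, χ z ∈ s → ‖f z‖ ≤ C) ?_ ?_ ?_ ?_
    · exact ⟨0, fun z hz => absurd hz (notMem_empty _)⟩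
    · rintro s s' hss ⟨C, hC⟩
      exact ⟨C, fun z hz => hC z (hss hz)⟩
    · rintro s s' ⟨C, hC⟩ ⟨C', hC'⟩
      refine ⟨max C C', fun z hz => ?_⟩
      rcases hz with hz | hz
      · exact (hC z hz).trans (le_max_left _ _)
      · exact (hC' z hz).trans (le_max_right _ _)
    · intro M hM
      obtain ⟨O, i, C, hO, hMO, h1⟩ := top_bd hg hr he h hbd hc hW k hM
      refine ⟨O, mem_nhdsWithin_of_mem_nhds (hO.mem_nhds hMO), C, fun z hz => ?_⟩
      obtain ⟨h2, h3⟩ := h1 z hz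
      obtain ⟨ζ, hζ⟩ := isRep_ex hg hr hN he hT h hnz h2
      rw [← hfi z i ζ h2 hζ]
      exact h3 ζ hζ
  obtain ⟨C, hC⟩ := hbdd
  have hconst : ∀ z, f z = f p := by
    intro z
    apply hana.apply_eq_apply_of_bounded
    rw [isBounded_iff_forall_norm_le]
    refine ⟨C, ?_⟩
    rintro _ ⟨w, rfl⟩
    exact hC w (hT (h.mχ w))
  have hfp : f p = 0 := zero_at hg hr hN he hT h hnz hp (hidx p) hk
    (fun z ζ hi hζ => h0 z _ ζ hi hζ) (hζ0 p)
  intro z i ζ hi hζ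
  rw [hfi z i ζ hi hζ, hconst z, hfp]

/-- the component of the chart -/
theorem V_self (h : RGd T 𝓤 χ P Q s wt B C0) {i : Fin (n + 1)} {z : ℂ} (hi : χ z i i ≠ 0) :
    Vv 𝓤 P Q s wt i z i = 0 := by
  have h1 := tendsto_pi_nhds.1 (h.Vten i hi) i
  have h2 : Tendsto (fun m => (wt m z • (chart i (Q m (z + s m z)) - chart i (P m z))) i) 𝓤
      (𝓝 0) := by
    refine tendsto_const_nhds.congr' ?_
    filter_upwards [(h.ev_diag i hi).1] with m hm
    rw [Pi.smul_apply, Pi.sub_apply, PM.chart_self hm.1, PM.chart_self hm.2, sub_self, smul_zero]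
  exact tendsto_nhds_unique h1 h2

/-- **Rigidity.** -/
theorem par_of (hg : GeneralPosition ℓ) (hr : N + 1 ≤ n + 1) (hN : 2 ≤ N) (he : 0 < e)
    (hT : T ⊆ TF (fermatForms ℓ (e + N))) (h : RGd T 𝓤 χ P Q s wt B C0)
    (hbd : BD (TF (fermatForms ℓ (e + N))) χ) {c : ℂ} (hc : c ≠ 0) (hW : Wc N e ℓ χ c)
    {p : ℂ} {l0 : Fin (n + 1)} (hp : χ p l0 l0 = 0) :
    ∃ z, ∀ᶠ t in 𝓝 z, Par 𝓤 χ P Q s wt t := by
  have hnz := hW.nz hc
  have hN0 : 0 < N := by omega
  -- the coefficients of order at least 2 vanish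
  have key : ∀ d : ℕ, ∀ z i ζ, χ z i i ≠ 0 → IsRep N e 𝓤 χ P Q s wt i z ζ →
      ∀ j : Fin (N + 1), 2 ≤ (j : ℕ) → N < (j : ℕ) + d → ζ j = 0 := by
    intro d
    induction d with
    | zero =>
      intro z i ζ _ _ j _ hj
      omega
    | succ d ih =>
      intro z i ζ hi hζ j hj2 hj
      refine step hg hr hN0 he hT h hbd hc hW hp hj2 ?_ z i ζ hi hζ
      intro z' i' ζ' hi' hζ' j' hj'
      have h1 : (j : ℕ) < j' := hj'
      exact ih z' i' ζ' hi' hζ' j' (by omega) (by omega)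
  have key2 : ∀ z i ζ, χ z i i ≠ 0 → IsRep N e 𝓤 χ P Q s wt i z ζ →
      ∀ j : Fin (N + 1), 2 ≤ (j : ℕ) → ζ j = 0 := fun z i ζ hi hζ j hj =>
    key (N + 1) z i ζ hi hζ j hj (by omega)
  obtain ⟨i, hi⟩ := PM.exists_diag ((hT.trans TF_PM) (h.mχ 0))
  obtain ⟨t, ht⟩ := ex_adm hg hr he (fun z => hT (h.mχ z)) hi
  have han := cu_an h.hχ i hi
  have hne : ∀ᶠ w in 𝓝[≠] (0 : ℂ), ∀ l, cu χ i w l ≠ 0 := by
    rw [eventually_all]
    intro l
    have hla : AnalyticAt ℂ (fun w => cu χ i w l) 0 := (analyticAt_pi_iff.1 han) l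
    by_cases hl : cu χ i 0 l = 0
    · have h1 := row_ne hN0 han ht (hnz 0 i t hi ht) hl
      have h2 : deriv (fun w => cu χ i w l) 0 = deriv (cu χ i) 0 l := by
        have h3 := iter_pi han 1 l
        rw [iteratedDeriv_one, iteratedDeriv_one] at h3
        exact h3.symm
      exact hla.differentiableAt.hasDerivAt.eventually_ne (by rwa [h2])
    · exact (hla.continuousAt.eventually_ne hl).filter_mono nhdsWithin_le_nhds
  have hdiag : ∀ᶠ w in 𝓝[≠] (0 : ℂ), χ w i i ≠ 0 :=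
    (BF.ev_diag h.hχ hi).filter_mono nhdsWithin_le_nhds
  obtain ⟨z1, hz1, hz1i⟩ := (hne.and hdiag).exists
  refine ⟨z1, ?_⟩
  have han1 := cu_an h.hχ i hz1i
  have hev : ∀ᶠ w in 𝓝 z1, ∀ l, cu χ i w l ≠ 0 := by
    rw [eventually_all]
    intro l
    exact ((analyticAt_pi_iff.1 han1) l).continuousAt.eventually_ne (hz1 l)
  filter_upwards [hev, BF.ev_diag h.hχ hz1i] with w hw hwi
  have hanw := cu_an h.hχ i hwi
  obtain ⟨ζ, hζ⟩ := isRep_ex hg hr hN0 he hT h hnz hwi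
  refine ⟨i, hwi, ζ ⟨1, by omega⟩, ?_⟩
  have h1 : ∀ l, ((e + N : ℕ) : ℂ) * cu χ i w l ^ (N - 1) * Vv 𝓤 P Q s wt i w l =
      ζ 0 * cu χ i w l ^ N + ζ ⟨1, by omega⟩ *
        (((e + N : ℕ) : ℂ) * cu χ i w l ^ (N - 1) * deriv (cu χ i) w l) := by
    intro l
    have h2 := hζ l
    have h3 : ∑ k, ζ k * cc N e (cu χ i) w k l = ζ 0 * cc N e (cu χ i) w 0 l +
        ζ ⟨1, by omega⟩ * cc N e (cu χ i) w ⟨1, by omega⟩ l := by
      rw [← Finset.add_sum_erase _ _ (Finset.mem_univ (0 : Fin (N + 1)))]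
      congr 1
      rw [Finset.sum_eq_single (⟨1, by omega⟩ : Fin (N + 1))]
      · intro j hj hj1
        have h4 : (j : ℕ) ≠ 0 := fun h5 => (Finset.ne_of_mem_erase hj) (Fin.ext h5)
        have h5 : (j : ℕ) ≠ 1 := fun h5 => hj1 (Fin.ext h5)
        rw [key2 w i ζ hwi hζ j (by omega), zero_mul]
      · intro h4
        exfalso
        apply h4
        rw [Finset.mem_erase]
        refine ⟨fun h5 => ?_, Finset.mem_univ _⟩
        have := congrArg Fin.val h5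
        simp at this
    rw [h3, cc_zero, cc_one hN0 hanw] at h2
    exact h2
  have hd0 : deriv (cu χ i) w i = 0 := by
    have h3 := iter_pi hanw 1 i
    rw [iteratedDeriv_one, iteratedDeriv_one] at h3
    rw [h3]
    have h4 : (fun w => cu χ i w i) =ᶠ[𝓝 w] fun _ => 1 := by
      filter_upwards [BF.ev_diag h.hχ hwi] with v hv
      exact PM.chart_self hv
    rw [h4.deriv_eq, deriv_const]
  have hii : cu χ i w i = 1 := PM.chart_self hwi
  have hz0 : ζ 0 = 0 := by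
    have h2 := h1 i
    rw [V_self h hwi, hd0, hii] at h2
    simpa using h2.symm
  funext l
  have h2 := h1 l
  rw [hz0, zero_mul, zero_add] at h2
  have h3 : ((e + N : ℕ) : ℂ) * cu χ i w l ^ (N - 1) ≠ 0 := by
    refine mul_ne_zero ?_ (pow_ne_zero _ (hw l))
    exact_mod_cast (by omega : e + N ≠ 0)
  apply mul_left_cancel₀ h3
  rw [Pi.smul_apply, smul_eq_mul]
  have h4 : deriv (fun s => chart i (χ s)) w = deriv (cu χ i) w := rfl
  rw [h4, h2]
  ring

end Pool.Agent.Helper65.HD
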