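import Pool.Agent.Helper65.HD.Nk
import Pool.Agent.Helper65.BF.FC

/-!
The rank function of a family of vectors.
-/

set_option autoImplicit false

open Finset

namespace Pool.Agent.Helper65.HD

open Pool.Agent.Helper65.BF

variable {n k : ℕ}

/-- the rank -/
noncomputable def rkv (κ : Fin (n + 1) → Fin (k + 1) → ℂ) (S : Finset (Fin (n + 1))) : ℕ :=
  Module.finrank ℂ (Submodule.span ℂ (κ '' (S : Set (Fin (n + 1)))))

/-- any `N + 1` of the linear forms have no common zero -/
def Sep (N : ℕ) (κ : Fin (n + 1) → Fin (k + 1) → ℂ) : Prop :=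
  ∀ t : Fin (N + 1) → Fin (n + 1), Function.Injective t → ∀ u : Fin (k + 1) → ℂ,
    (∀ i, ∑ j, κ (t i) j * u j = 0) → u = 0

variable {κ : Fin (n + 1) → Fin (k + 1) → ℂ}

theorem rkv_empty : rkv κ ∅ = 0 := by
  unfold rkv
  simp

theorem rkv_le (S : Finset (Fin (n + 1))) : rkv κ S ≤ k + 1 := by
  unfold rkv
  have h := Submodule.finrank_le (Submodule.span ℂ (κ '' (S : Set (Fin (n + 1)))))
  simpa using h

theorem rkv_mono {S S' : Finset (Fin (n + 1))} (h : S ⊆ S') : rkv κ S ≤ rkv κ S' := by
  unfold rkv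
  apply Submodule.finrank_mono
  apply Submodule.span_mono
  apply Set.image_mono
  exact_mod_cast h

theorem rkv_sub (S S' : Finset (Fin (n + 1))) :
    rkv κ (S ∪ S') + rkv κ (S ∩ S') ≤ rkv κ S + rkv κ S' := by
  unfold rkv
  have h0 := Submodule.finrank_sup_add_finrank_inf_eq
    (Submodule.span ℂ (κ '' (S : Set (Fin (n + 1)))))
    (Submodule.span ℂ (κ '' (S' : Set (Fin (n + 1)))))
  have h1 : Submodule.span ℂ (κ '' ((S ∪ S' : Finset (Fin (n + 1))) : Set (Fin (n + 1)))) =
      Submodule.span ℂ (κ '' (S : Set (Fin (n + 1)))) ⊔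
        Submodule.span ℂ (κ '' (S' : Set (Fin (n + 1)))) := by
    rw [← Submodule.span_union, ← Set.image_union, Finset.coe_union]
  have h2 : Submodule.span ℂ (κ '' ((S ∩ S' : Finset (Fin (n + 1))) : Set (Fin (n + 1)))) ≤
      Submodule.span ℂ (κ '' (S : Set (Fin (n + 1)))) ⊓
        Submodule.span ℂ (κ '' (S' : Set (Fin (n + 1)))) := by
    apply le_inf
    · apply Submodule.span_mono
      apply Set.image_mono
      exact_mod_cast Finset.inter_subset_left
    · apply Submodule.span_mono
      apply Set.image_mono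
      exact_mod_cast Finset.inter_subset_right
  rw [h1, ← h0]
  exact Nat.add_le_add_left (Submodule.finrank_mono h2) _

theorem rkv_card (S : Finset (Fin (n + 1))) : rkv κ S ≤ S.card := by
  classical
  unfold rkv
  have h1 : κ '' (S : Set (Fin (n + 1))) = ((S.image κ : Finset (Fin (k + 1) → ℂ)) : Set _) := by
    rw [Finset.coe_image]
  rw [h1]
  exact (finrank_span_finset_le_card _).trans Finset.card_image_le

theorem rkv_indep {T : Finset (Fin (n + 1))} (h : LinearIndepOn ℂ κ (T : Set (Fin (n + 1)))) :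
    rkv κ T = T.card := by
  unfold rkv
  have h1 : LinearIndependent ℂ fun i : T => κ i := h
  have h2 := finrank_span_eq_card h1
  have h3 : Set.range (fun i : T => κ i) = κ '' (T : Set (Fin (n + 1))) := by
    ext x
    simp
  rw [h3] at h2
  rw [h2, Fintype.card_coe]

theorem indep_mono {T T' : Finset (Fin (n + 1))}
    (h : LinearIndepOn ℂ κ (T : Set (Fin (n + 1)))) (hT : T' ⊆ T) :
    LinearIndepOn ℂ κ (T' : Set (Fin (n + 1))) := h.mono (by exact_mod_cast hT)

theorem exists_basis_ext {S T0 : Finset (Fin (n + 1))} (hT0 : T0 ⊆ S)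
    (h0 : LinearIndepOn ℂ κ (T0 : Set (Fin (n + 1)))) :
    ∃ T : Finset (Fin (n + 1)), T0 ⊆ T ∧ T ⊆ S ∧ LinearIndepOn ℂ κ (T : Set (Fin (n + 1))) ∧
      T.card = rkv κ S := by
  classical
  obtain ⟨b, hbS, hT0b, hspan, hind⟩ := exists_linearIndepOn_extension h0
    (show (T0 : Set (Fin (n + 1))) ⊆ S by exact_mod_cast hT0)
  have hfin : b.Finite := Set.toFinite b
  refine ⟨hfin.toFinset, ?_, ?_, by rw [hfin.coe_toFinset]; exact hind, ?_⟩
  · intro x hx
    rw [hfin.mem_toFinset]
    exact hT0b (by exact_mod_cast hx)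
  · intro x hx
    rw [hfin.mem_toFinset] at hx
    exact_mod_cast hbS hx
  · have h1 := rkv_indep (κ := κ) (T := hfin.toFinset) (by rw [hfin.coe_toFinset]; exact hind)
    rw [← h1]
    unfold rkv
    rw [hfin.coe_toFinset]
    have h2 : Submodule.span ℂ (κ '' b) = Submodule.span ℂ (κ '' (S : Set (Fin (n + 1)))) :=
      le_antisymm (Submodule.span_mono (Set.image_mono hbS)) (Submodule.span_le.2 hspan)
    rw [h2]

theorem rkv_full {N : ℕ} (h : Sep N κ) {S : Finset (Fin (n + 1))} (hS : N + 1 ≤ S.card) :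
    rkv κ S = k + 1 := by
  classical
  unfold rkv
  have h1 : Submodule.span ℂ (κ '' (S : Set (Fin (n + 1)))) = ⊤ := by
    by_contra hcon
    obtain ⟨f, hf, hle⟩ := Submodule.exists_le_ker_of_lt_top _ (lt_top_iff_ne_top.2 hcon)
    obtain ⟨S', hS', hcard⟩ := Finset.exists_subset_card_eq hS
    have hf' : ∀ v, f v = ∑ j, v j * f (Pi.single j 1) := by
      intro v
      conv_lhs => rw [← Finset.univ_sum_single v]
      rw [map_sum]
      refine Finset.sum_congr rfl fun j _ => ?_
      have h2 : (Pi.single j (v j) : Fin (k + 1) → ℂ) = v j • Pi.single j 1 := by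
        rw [← Pi.single_smul, smul_eq_mul, mul_one]
      rw [h2, map_smul, smul_eq_mul]
    have hu := h (S'.orderEmbOfFin hcard) (S'.orderEmbOfFin hcard).injective
      (fun j => f (Pi.single j 1)) (fun i => by
        rw [← hf']
        have h2 : κ (S'.orderEmbOfFin hcard i) ∈
            Submodule.span ℂ (κ '' (S : Set (Fin (n + 1)))) :=
          Submodule.subset_span ⟨_, by exact_mod_cast hS' (S'.orderEmbOfFin_mem hcard i), rfl⟩
        exact LinearMap.mem_ker.1 (hle h2))
    apply hf
    ext j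
    have h3 := congrFun hu j
    simpa using h3
  rw [h1, finrank_top]
  simp

theorem sep_rk {f : ℕ} (h : Sep (k + f) κ) (hn : k + f ≤ n) : Rk k f (rkv κ) where
  empty := rkv_empty
  le := rkv_le
  sub := rkv_sub
  full := fun S hS => rkv_full h hS
  card := fun S hS => by
    classical
    obtain ⟨S', hSS', -, hcard⟩ := Finset.exists_subsuperset_card_eq
      (Finset.subset_univ S) hS (by
        rw [Finset.card_univ, Fintype.card_fin]
        omega)
    have h1 := rkv_full h (S := S') (by omega)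
    have h2 := rkv_sub (κ := κ) S (S' \ S)
    have h3 : S ∪ (S' \ S) = S' := Finset.union_sdiff_of_subset hSS'
    rw [h3, h1] at h2
    have h4 := rkv_card (κ := κ) (S' \ S)
    rw [Finset.card_sdiff_of_subset hSS', hcard] at h4
    omega
  basis := fun S => by
    classical
    obtain ⟨T, -, hTS, hT, hTc⟩ := exists_basis_ext (κ := κ) (Finset.empty_subset S) (by simp)
    refine ⟨T, hTS, hTc, fun S' => ?_⟩
    rw [← rkv_indep (indep_mono hT (Finset.inter_subset_right : S' ∩ T ⊆ T))]
    exact rkv_mono (Finset.inter_subset_inter_left hTS)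

theorem rk_step (S : Finset (Fin (n + 1))) (l : Fin (n + 1)) (hl : l ∉ S)
    (T : Finset (Fin (n + 1))) (hTS : T ⊆ S) (hT : LinearIndepOn ℂ κ (T : Set (Fin (n + 1))))
    (hTc : T.card = rkv κ S) : (rkv κ (insert l S) = rkv κ S) ∨
      (rkv κ (insert l S) = rkv κ S + 1 ∧
        LinearIndepOn ℂ κ ((insert l T : Finset (Fin (n + 1))) : Set (Fin (n + 1)))) := by
  classical
  have hTr := rkv_indep hT
  have hspan : Submodule.span ℂ (κ '' (T : Set (Fin (n + 1)))) =
      Submodule.span ℂ (κ '' (S : Set (Fin (n + 1)))) := by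
    apply Submodule.eq_of_le_of_finrank_eq
    · apply Submodule.span_mono
      apply Set.image_mono
      exact_mod_cast hTS
    · change rkv κ T = rkv κ S
      rw [hTr, hTc]
  have hins : ∀ U : Finset (Fin (n + 1)), Submodule.span ℂ
      (κ '' ((insert l U : Finset (Fin (n + 1))) : Set (Fin (n + 1)))) =
        Submodule.span ℂ {κ l} ⊔ Submodule.span ℂ (κ '' (U : Set (Fin (n + 1)))) := by
    intro U
    rw [Finset.coe_insert, Set.image_insert_eq, Set.insert_eq, Submodule.span_union]
  by_cases hmem : κ l ∈ Submodule.span ℂ (κ '' (S : Set (Fin (n + 1))))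
  · left
    unfold rkv
    rw [hins, sup_eq_right.2]
    rw [Submodule.span_singleton_le_iff_mem]
    exact hmem
  · right
    have hi : LinearIndepOn ℂ κ ((insert l T : Finset (Fin (n + 1))) : Set (Fin (n + 1))) := by
      rw [Finset.coe_insert]
      refine hT.insert ?_
      rw [hspan]
      exact hmem
    refine ⟨?_, hi⟩
    have h1 := rkv_indep hi
    rw [Finset.card_insert_of_notMem (fun h => hl (hTS h)), hTc] at h1
    rw [← h1]
    unfold rkv
    rw [hins, hins, hspan]

/-- bases as functions -/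
theorem basis_fun {T : Finset (Fin (n + 1))} (hT : LinearIndepOn ℂ κ (T : Set (Fin (n + 1))))
    (hc : T.card = k + 1) : Mt κ (T.orderEmbOfFin hc) ≠ 0 := by
  have h0 : LinearIndependent ℂ fun i : T => κ i := hT
  have h1 : LinearIndependent ℂ (fun i : Fin (k + 1) => κ (T.orderEmbOfFin hc i)) :=
    h0.comp (fun i => ⟨T.orderEmbOfFin hc i, T.orderEmbOfFin_mem hc i⟩) fun a b hab => by
      have h2 := congrArg Subtype.val hab
      exact (T.orderEmbOfFin hc).injective h2
  have h2 : LinearIndependent ℂ (Matrix.of fun i j => κ (T.orderEmbOfFin hc i) j :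
      Matrix (Fin (k + 1)) (Fin (k + 1)) ℂ).row := h1
  rw [Matrix.linearIndependent_rows_iff_isUnit, Matrix.isUnit_iff_isUnit_det] at h2
  exact h2.ne_zero

end Pool.Agent.Helper65.HD
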